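import Pool.Agent.W81.RD.PowG

/-!
The number of representations as a prime and a `d`-th power.
-/

set_option autoImplicit false

namespace Pool.Agent.W81.RD

open Finset Filter Polynomial
open Pool.Agent.H442R2.EHI (evt_log_pow evt_log_ge)
open Pool.Agent.H300R2.BH (rho SS pv lF)
open Pool.Agent.W81.R1

/-- the number of `m ≥ 1` with `n - m^d` prime -/
noncomputable def repd (d n : ℕ) : ℕ :=
  ((Icc 1 n).filter (fun m : ℕ => m ^ d ≤ n ∧ (n - m ^ d).Prime)).card

/-- the sum of `1 / log (n - m^d)` over `m ≥ 1` with `m^d + 2 ≤ n` -/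
noncomputable def msd (d n : ℕ) : ℝ :=
  ∑ m ∈ (Icc 1 n).filter (fun m : ℕ => m ^ d + 2 ≤ n), 1 / Real.log ((n - m ^ d : ℕ) : ℝ)

lemma pv_eq_repd (d n x : ℕ) (hd : 1 ≤ d) (hx : n ≤ x ^ d) :
    pv (C (-1) * X ^ d + C (n : ℤ)) x = (repd d n : ℝ) := by
  unfold pv repd
  congr 2
  ext m
  simp only [mem_filter, mem_Icc, eval_P]
  have e1 : ∀ h : m ^ d ≤ n, (-1 * (m : ℤ) ^ d + n).toNat = n - m ^ d := by
    intro h
    have h2 : (-1 * (m : ℤ) ^ d + n) = ((n - m ^ d : ℕ) : ℤ) := by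
      push_cast [Nat.cast_sub h]
      ring
    rw [h2, Int.toNat_natCast]
  constructor
  · rintro ⟨⟨h1, h2⟩, h3⟩
    have h4 : m ^ d ≤ n := by
      by_contra hcon
      have h5 := h3.two_le
      have h6 : (n : ℤ) < (m : ℤ) ^ d := by exact_mod_cast not_le.1 hcon
      omega
    rw [e1 h4] at h3
    exact ⟨⟨h1, (Nat.le_self_pow (by omega) m).trans h4⟩, h4, h3⟩
  · rintro ⟨⟨h1, h2⟩, h4, h3⟩
    refine ⟨⟨h1, ?_⟩, ?_⟩
    · have h5 : m ^ d ≤ x ^ d := h4.trans hx
      exact (Nat.pow_le_pow_iff_left (by omega)).1 h5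
    · rw [e1 h4]; exact h3

lemma lF_eq_msd (d n x : ℕ) (hd : 1 ≤ d) (hx : n ≤ x ^ d) :
    lF (C (-1) * X ^ d + C (n : ℤ)) x = msd d n := by
  unfold lF msd
  have hset : (Icc 1 x).filter (fun k : ℕ => 2 ≤ (C (-1) * X ^ d + C (n : ℤ) : ℤ[X]).eval (k : ℤ)) =
      (Icc 1 n).filter (fun m : ℕ => m ^ d + 2 ≤ n) := by
    ext m
    simp only [mem_filter, mem_Icc, eval_P]
    constructor
    · rintro ⟨⟨h1, h2⟩, h3⟩
      have h4 : (m : ℤ) ^ d + 2 ≤ n := by omega
      have h5 : m ^ d + 2 ≤ n := by exact_mod_cast h4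
      have h6 : m ^ d ≤ n := by omega
      exact ⟨⟨h1, (Nat.le_self_pow (by omega) m).trans h6⟩, h5⟩
    · rintro ⟨⟨h1, h2⟩, h3⟩
      have h4 : (m : ℤ) ^ d + 2 ≤ n := by exact_mod_cast h3
      refine ⟨⟨h1, ?_⟩, by omega⟩
      have h5 : m ^ d ≤ x ^ d := by omega
      exact (Nat.pow_le_pow_iff_left (by omega)).1 h5
  rw [hset]
  refine sum_congr rfl fun m hm => ?_
  rw [mem_filter] at hm
  rw [eval_P]
  congr 2
  rw [Nat.cast_sub (by omega)]
  push_cast
  ring

lemma root_pow (d : ℕ) (hd : 1 ≤ d) (t : ℝ) (ht : 0 ≤ t) : (t ^ (1 / (d : ℝ))) ^ d = t := by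
  rw [← Real.rpow_natCast, ← Real.rpow_mul ht, one_div, inv_mul_cancel₀, Real.rpow_one]
  have : (0 : ℝ) < d := by exact_mod_cast hd
  exact this.ne'

/-- the main term -/
lemma msd_asymp (d : ℕ) (hd : 2 ≤ d) (ε : ℝ) (hε : 0 < ε) (hε1 : ε ≤ 1) : ∀ᶠ n : ℕ in atTop,
    |msd d n - (n : ℝ) ^ (1 / (d : ℝ)) / Real.log n| ≤ ε * ((n : ℝ) ^ (1 / (d : ℝ)) / Real.log n) := by
  have hd0 : (0 : ℝ) < d := by
    have : 0 < d := by omega
    exact_mod_cast this
  have hd2 : (2 : ℝ) ≤ d := by exact_mod_cast hd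
  have hll : ∀ᶠ x : ℕ in atTop, (3 : ℕ) * Real.log (Real.log x) ≤ ε / 8 * Real.log x := by
    have := evt_loglog 3 1 (ε / 8) (by positivity)
    filter_upwards [this] with x hx
    simpa using hx
  filter_upwards [hll, evt_log_ge (64 / ε), evt_log_ge 4, evt_log_pow 4 (1 / (d : ℝ)) (by positivity),
    eventually_ge_atTop 16] with n hll hLε hL4 hpow hn16
  set L := Real.log n with hL
  set s := (n : ℝ) ^ (1 / (d : ℝ)) with hs
  have hL0 : 0 < L := by linarith
  have hL1 : 1 ≤ L := by linarith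
  have hLε' : 64 ≤ ε * L := by
    rw [div_le_iff₀ hε] at hLε
    linarith
  have hnr : (16 : ℝ) ≤ n := by exact_mod_cast hn16
  have hn0 : (0 : ℝ) < n := by linarith
  have hs0 : 0 < s := by positivity
  have hsd : s ^ d = n := root_pow d (by omega) n hn0.le
  have hL3s : L * L ^ 3 ≤ s := by
    calc L * L ^ 3 = L ^ 4 := by ring
      _ ≤ s := hpow
  have hL3 : 1 ≤ L ^ 3 := one_le_pow₀ hL1
  have hLs : L ≤ s := by nlinarith
  have hs4 : 4 ≤ s := by linarith
  set T := (Icc 1 n).filter (fun m : ℕ => m ^ d + 2 ≤ n) with hT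
  have hTm : ∀ m ∈ T, (m : ℝ) ≤ s ∧ (2 : ℝ) ≤ ((n - m ^ d : ℕ) : ℝ) ∧
      ((n - m ^ d : ℕ) : ℝ) = n - (m : ℝ) ^ d := by
    intro m hm
    rw [hT, mem_filter] at hm
    have h1 : (m : ℝ) ^ d + 2 ≤ n := by exact_mod_cast hm.2
    have h2 : ((n - m ^ d : ℕ) : ℝ) = n - (m : ℝ) ^ d := by
      rw [Nat.cast_sub (by omega)]
      push_cast
      rfl
    refine ⟨?_, by rw [h2]; linarith, h2⟩
    by_contra hcon
    have h3 : s ^ d < (m : ℝ) ^ d := pow_lt_pow_left₀ (not_le.1 hcon) hs0.le (by omega)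
    rw [hsd] at h3
    linarith
  have hTc : (T.card : ℝ) ≤ s := by
    have h1 : T ⊆ Icc 1 ⌊s⌋₊ := by
      intro m hm
      rw [mem_Icc]
      refine ⟨(mem_Icc.1 (mem_filter.1 hm).1).1, Nat.le_floor (hTm m hm).1⟩
    have h2 := card_le_card h1
    rw [Nat.card_Icc, Nat.add_sub_cancel] at h2
    calc (T.card : ℝ) ≤ (⌊s⌋₊ : ℝ) := by exact_mod_cast h2
      _ ≤ s := Nat.floor_le hs0.le
  have hTc2 : s - 2 ≤ T.card := by
    have h1 : Icc 1 ⌊s - 1⌋₊ ⊆ T := by
      intro m hm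
      rw [mem_Icc] at hm
      have h2 : (m : ℝ) ≤ s - 1 := (Nat.le_floor_iff (by linarith)).1 hm.2
      have hm0 : (0 : ℝ) ≤ m := Nat.cast_nonneg _
      have h3 : (m : ℝ) ^ d + s ≤ n := by
        obtain ⟨e, rfl⟩ : ∃ e, d = e + 1 := ⟨d - 1, by omega⟩
        have h4 : (m : ℝ) ^ (e + 1) ≤ (s - 1) * s ^ e := by
          rw [pow_succ, mul_comm]
          apply mul_le_mul h2 (pow_le_pow_left₀ hm0 (by linarith) _) (by positivity) (by linarith)
        have h5 : s ≤ s ^ e := le_self_pow₀ (by linarith) (by omega)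
        have h6 : s * s ^ e = n := by rw [← hsd, pow_succ]; ring
        nlinarith
      have h7 : (m : ℝ) ^ d + 2 ≤ n := by linarith
      have h8 : m ^ d + 2 ≤ n := by exact_mod_cast h7
      rw [hT, mem_filter, mem_Icc]
      have h9 : m ^ d ≤ n := by omega
      exact ⟨⟨hm.1, (Nat.le_self_pow (by omega) m).trans h9⟩, h8⟩
    have h2 := card_le_card h1
    rw [Nat.card_Icc, Nat.add_sub_cancel] at h2
    have h3 : ((⌊s - 1⌋₊ : ℕ) : ℝ) ≤ T.card := by exact_mod_cast h2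
    have h4 : s - 1 < ⌊s - 1⌋₊ + 1 := Nat.lt_floor_add_one _
    linarith
  have hlog2 : 1 / 2 ≤ Real.log 2 := by have := Real.log_two_gt_d9; linarith
  have hlow : ∀ m ∈ T, 1 / L ≤ 1 / Real.log ((n - m ^ d : ℕ) : ℝ) := by
    intro m hm
    obtain ⟨h1, h2, h3⟩ := hTm m hm
    have h4 : Real.log 2 ≤ Real.log ((n - m ^ d : ℕ) : ℝ) := Real.log_le_log (by norm_num) h2
    apply one_div_le_one_div_of_le (by linarith)
    apply Real.log_le_log (by linarith)
    rw [h3]
    have : 0 ≤ (m : ℝ) ^ d := by positivity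
    linarith
  have htwo : ∀ m ∈ T, 1 / Real.log ((n - m ^ d : ℕ) : ℝ) ≤ 2 := by
    intro m hm
    obtain ⟨h1, h2, h3⟩ := hTm m hm
    have h4 : Real.log 2 ≤ Real.log ((n - m ^ d : ℕ) : ℝ) := Real.log_le_log (by norm_num) h2
    rw [div_le_iff₀ (by linarith)]
    linarith
  have hms : msd d n = ∑ m ∈ T, 1 / Real.log ((n - m ^ d : ℕ) : ℝ) := rfl
  have hsL : 0 < s / L := by positivity
  have hlower : (1 - ε) * (s / L) ≤ msd d n := by
    rw [hms]
    have h1 : (T.card : ℝ) * (1 / L) ≤ ∑ m ∈ T, 1 / Real.log ((n - m ^ d : ℕ) : ℝ) := by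
      rw [← nsmul_eq_mul, ← sum_const]
      exact sum_le_sum hlow
    refine le_trans ?_ h1
    rw [mul_one_div, mul_div_assoc']
    apply div_le_div_of_nonneg_right _ hL0.le
    nlinarith
  have hupper : msd d n ≤ (1 + ε) * (s / L) := by
    have hδ0 : 0 < 1 - ε / 8 := by linarith
    rw [hms, ← sum_filter_add_sum_filter_not T (fun m : ℕ => (m : ℝ) ≤ s * (1 - 1 / L ^ 3))]
    have b1 : ∑ m ∈ T.filter (fun m : ℕ => (m : ℝ) ≤ s * (1 - 1 / L ^ 3)),
        1 / Real.log ((n - m ^ d : ℕ) : ℝ) ≤ s * (1 / ((1 - ε / 8) * L)) := by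
      calc ∑ m ∈ T.filter (fun m : ℕ => (m : ℝ) ≤ s * (1 - 1 / L ^ 3)), 1 / Real.log ((n - m ^ d : ℕ) : ℝ)
          ≤ ∑ m ∈ T.filter (fun m : ℕ => (m : ℝ) ≤ s * (1 - 1 / L ^ 3)), 1 / ((1 - ε / 8) * L) := by
            refine sum_le_sum fun m hm => ?_
            rw [mem_filter] at hm
            obtain ⟨h1, h2, h3⟩ := hTm m hm.1
            apply one_div_le_one_div_of_le (by positivity)
            have hm0 : (0 : ℝ) ≤ m := Nat.cast_nonneg _
            have hq0 : 0 < 1 / L ^ 3 := by positivity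
            have hq1 : 1 / L ^ 3 ≤ 1 := by rw [div_le_one (by positivity)]; exact hL3
            have h4 : (m : ℝ) ^ d ≤ n * (1 - 1 / L ^ 3) := by
              calc (m : ℝ) ^ d ≤ (s * (1 - 1 / L ^ 3)) ^ d := pow_le_pow_left₀ hm0 hm.2 d
                _ = n * (1 - 1 / L ^ 3) ^ d := by rw [mul_pow, hsd]
                _ ≤ n * (1 - 1 / L ^ 3) ^ 1 := by
                    apply mul_le_mul_of_nonneg_left _ hn0.le
                    apply pow_le_pow_of_le_one (by linarith) (by linarith) (by omega)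
                _ = n * (1 - 1 / L ^ 3) := by rw [pow_one]
            have h5 : (n : ℝ) / L ^ 3 ≤ ((n - m ^ d : ℕ) : ℝ) := by
              rw [h3]
              have : (n : ℝ) / L ^ 3 = n - n * (1 - 1 / L ^ 3) := by ring
              linarith
            have h6 := Real.log_le_log (by positivity) h5
            rw [Real.log_div (by linarith) (by positivity), Real.log_pow, ← hL] at h6
            push_cast at h6 hll
            linarith
        _ = ((T.filter (fun m : ℕ => (m : ℝ) ≤ s * (1 - 1 / L ^ 3))).card : ℝ) * (1 / ((1 - ε / 8) * L)) := by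
            rw [sum_const, nsmul_eq_mul]
        _ ≤ s * (1 / ((1 - ε / 8) * L)) := by
            apply mul_le_mul_of_nonneg_right _ (by positivity)
            refine le_trans ?_ hTc
            exact_mod_cast card_filter_le _ _
    have b2 : ∑ m ∈ T.filter (fun m : ℕ => ¬ (m : ℝ) ≤ s * (1 - 1 / L ^ 3)),
        1 / Real.log ((n - m ^ d : ℕ) : ℝ) ≤ (s / L ^ 3 + 1) * 2 := by
      calc ∑ m ∈ T.filter (fun m : ℕ => ¬ (m : ℝ) ≤ s * (1 - 1 / L ^ 3)), 1 / Real.log ((n - m ^ d : ℕ) : ℝ)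
          ≤ ∑ m ∈ T.filter (fun m : ℕ => ¬ (m : ℝ) ≤ s * (1 - 1 / L ^ 3)), (2 : ℝ) :=
            sum_le_sum fun m hm => htwo m (mem_filter.1 hm).1
        _ = ((T.filter (fun m : ℕ => ¬ (m : ℝ) ≤ s * (1 - 1 / L ^ 3))).card : ℝ) * 2 := by
            rw [sum_const, nsmul_eq_mul]
        _ ≤ (s / L ^ 3 + 1) * 2 := by
            apply mul_le_mul_of_nonneg_right _ (by norm_num)
            have h1 : T.filter (fun m : ℕ => ¬ (m : ℝ) ≤ s * (1 - 1 / L ^ 3)) ⊆
                Ioc ⌊s * (1 - 1 / L ^ 3)⌋₊ ⌊s⌋₊ := by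
              intro m hm
              rw [mem_filter] at hm
              rw [mem_Ioc]
              refine ⟨?_, Nat.le_floor (hTm m hm.1).1⟩
              have hq1 : 1 / L ^ 3 ≤ 1 := by rw [div_le_one (by positivity)]; exact hL3
              rw [Nat.floor_lt (by apply mul_nonneg hs0.le; linarith)]
              exact not_le.1 hm.2
            have h2 := card_le_card h1
            rw [Nat.card_Ioc] at h2
            have h3 : ⌊s * (1 - 1 / L ^ 3)⌋₊ ≤ ⌊s⌋₊ := by
              apply Nat.floor_le_floor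
              have hq0 : 0 < 1 / L ^ 3 := by positivity
              nlinarith
            have h4 : (((⌊s⌋₊ - ⌊s * (1 - 1 / L ^ 3)⌋₊ : ℕ)) : ℝ) ≤ s / L ^ 3 + 1 := by
              rw [Nat.cast_sub h3]
              have h5 : (⌊s⌋₊ : ℝ) ≤ s := Nat.floor_le hs0.le
              have h6 : s * (1 - 1 / L ^ 3) < ⌊s * (1 - 1 / L ^ 3)⌋₊ + 1 := Nat.lt_floor_add_one _
              have h7 : s * (1 - 1 / L ^ 3) = s - s / L ^ 3 := by ring
              rw [h7] at h6 ⊢
              linarith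
            refine le_trans ?_ h4
            exact_mod_cast h2
    refine (add_le_add b1 b2).trans ?_
    have c1 : s * (1 / ((1 - ε / 8) * L)) ≤ (1 + ε / 4) * (s / L) := by
      rw [mul_one_div, mul_div_assoc', div_le_div_iff₀ (by positivity) hL0]
      have h5 : 1 ≤ (1 + ε / 4) * (1 - ε / 8) := by nlinarith
      have h6 : 0 ≤ s * L := by positivity
      nlinarith
    have c2 : (s / L ^ 3 + 1) * 2 ≤ (3 * ε / 4) * (s / L) := by
      have h7 : s / L ^ 3 = (s / L) * (1 / L ^ 2) := by field_simp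
      have h8 : 1 / L ^ 2 ≤ ε / 16 := by
        rw [div_le_div_iff₀ (by positivity) (by norm_num)]
        nlinarith
      have h9 : 1 ≤ (s / L) * (ε / 16) := by
        have h10 : L ^ 2 ≤ s / L := by
          rw [le_div_iff₀ hL0]
          calc L ^ 2 * L = L ^ 3 := by ring
            _ ≤ L * L ^ 3 := by nlinarith
            _ ≤ s := hL3s
        calc (1 : ℝ) ≤ L ^ 2 * (ε / 16) := by nlinarith
          _ ≤ (s / L) * (ε / 16) := by gcongr
      have h11 : (s / L) * (1 / L ^ 2) ≤ (s / L) * (ε / 16) := by gcongr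
      rw [h7]
      nlinarith
    linarith
  rw [abs_le]
  constructor <;> linarith

/-- **prime plus a `d`-th power, almost all integers of short intervals** -/
theorem addd (d : ℕ) (hd : 2 ≤ d) (U : ℕ) (ε : ℝ) (hε : 0 < ε) (hε1 : ε ≤ 1) : ∃ E0 : ℕ, ∀ E : ℕ,
    E0 ≤ E → ∃ B N0 : ℕ, ∀ N H : ℕ, N0 ≤ N →
    (N : ℝ) ^ (1 - 1 / (d : ℝ)) * Real.log N ^ B ≤ H → H ≤ N →
    ∃ Bad : Finset ℕ, (Bad.card : ℝ) ≤ H / Real.log N ^ U ∧ ∀ n : ℕ, N < n → n ≤ N + H → n ∉ Bad →
      1 / Real.log N ≤ SS ⌊Real.log N ^ E⌋₊ (C (-1) * X ^ d + C (n : ℤ)) ∧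
      |(repd d n : ℝ) - SS ⌊Real.log N ^ E⌋₊ (C (-1) * X ^ d + C (n : ℤ)) * msd d n| ≤
        SS ⌊Real.log N ^ E⌋₊ (C (-1) * X ^ d + C (n : ℤ)) *
          ((n : ℝ) ^ (1 / (d : ℝ)) / Real.log n ^ U) ∧
      |(repd d n : ℝ) - SS ⌊Real.log N ^ E⌋₊ (C (-1) * X ^ d + C (n : ℤ)) *
          ((n : ℝ) ^ (1 / (d : ℝ)) / Real.log n)| ≤
        ε * (SS ⌊Real.log N ^ E⌋₊ (C (-1) * X ^ d + C (n : ℤ)) *
          ((n : ℝ) ^ (1 / (d : ℝ)) / Real.log n)) := by
  have hd0 : (0 : ℝ) < d := by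
    have : 0 < d := by omega
    exact_mod_cast this
  have hd2 : (2 : ℝ) ≤ d := by exact_mod_cast hd
  have hd1 : (1 : ℝ) ≤ d := by linarith
  obtain ⟨E', h⟩ := powG d hd (-1) (Or.inr rfl) 1 (U + 2)
  refine ⟨E' + 1, fun E hE => ?_⟩
  obtain ⟨B, hB⟩ := h (E + 1) (by omega)
  obtain ⟨X0, hX0⟩ := eventually_atTop.mp hB
  obtain ⟨N1, hN1⟩ := eventually_atTop.mp (msd_asymp d hd (ε / 2) (by positivity) (by linarith))
  obtain ⟨N2, hN2⟩ := eventually_atTop.mp ((evt_log_ge (3 ^ d)).and ((evt_log_ge ((d : ℝ) * d ^ E)).and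
    ((evt_log_ge ((d : ℝ) ^ (U + 2))).and ((evt_log_ge (6 * (2 * d) ^ (U + 3) / ε)).and
      (eventually_ge_atTop 64)))))
  refine ⟨B + 1, X0 ^ d + N1 + N2, fun N H hN hH1 hH2 => ?_⟩
  obtain ⟨hL3, hLE, hLU, hLε, hN64⟩ := hN2 N (by omega)
  set L := Real.log N with hL
  have hNr : (64 : ℝ) ≤ N := by exact_mod_cast hN64
  have hN0 : (0 : ℝ) < N := by linarith
  have hL9 : 9 ≤ L := by
    refine le_trans ?_ hL3
    calc (9 : ℝ) = 3 ^ 2 := by norm_num
      _ ≤ 3 ^ d := pow_le_pow_right₀ (by norm_num) hd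
  have hL0 : 0 < L := by linarith
  have hL1 : 1 ≤ L := by linarith
  set s := (N : ℝ) ^ (1 / (d : ℝ)) with hs
  have hs0 : 0 < s := by positivity
  have hsd : s ^ d = N := root_pow d (by omega) N hN0.le
  have hs1 : 1 ≤ s := Real.one_le_rpow (by linarith) (by positivity)
  have hsh : s ≤ (N : ℝ) ^ (1 / 2 : ℝ) := by
    apply Real.rpow_le_rpow_of_exponent_le (by linarith)
    exact one_div_le_one_div_of_le (by norm_num) hd2
  -- x
  set r := (2 * (N : ℝ)) ^ (1 / (d : ℝ)) with hr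
  have hrd : r ^ d = 2 * N := root_pow d (by omega) _ (by positivity)
  have hr0 : 0 < r := by positivity
  have hrs : r ≤ 2 * s := by
    rw [hr, Real.mul_rpow (by norm_num) hN0.le]
    apply mul_le_mul_of_nonneg_right _ hs0.le
    calc (2 : ℝ) ^ (1 / (d : ℝ)) ≤ (2 : ℝ) ^ (1 : ℝ) := by
          apply Real.rpow_le_rpow_of_exponent_le (by norm_num)
          rw [div_le_one hd0]
          exact hd1
      _ = 2 := Real.rpow_one _
  have hsr : s ≤ r := Real.rpow_le_rpow hN0.le (by linarith) (by positivity)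
  set x := ⌈r⌉₊ with hx
  have hxr : r ≤ x := Nat.le_ceil _
  have hx3 : (x : ℝ) ≤ 3 * s := by
    have : (x : ℝ) < r + 1 := Nat.ceil_lt_add_one hr0.le
    linarith
  have hsx : s ≤ x := hsr.trans hxr
  have hx0 : (0 : ℝ) < x := by linarith
  have h2N : 2 * N ≤ x ^ d := by
    have h1 : (2 * (N : ℝ)) ≤ (x : ℝ) ^ d := by
      rw [← hrd]
      exact pow_le_pow_left₀ hr0.le hxr d
    exact_mod_cast h1
  have hNxd : (2 * (N : ℝ)) ≤ (x : ℝ) ^ d := by exact_mod_cast h2N
  have hxN : (x : ℝ) ≤ N := by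
    have h1 : (N : ℝ) ^ (1 / 2 : ℝ) * (N : ℝ) ^ (1 / 2 : ℝ) = N := by
      rw [← Real.rpow_add hN0]; norm_num
    have h2 : 3 ≤ (N : ℝ) ^ (1 / 2 : ℝ) := by
      rw [← Real.sqrt_eq_rpow]
      apply Real.le_sqrt_of_sq_le
      linarith
    calc (x : ℝ) ≤ 3 * s := hx3
      _ ≤ (N : ℝ) ^ (1 / 2 : ℝ) * (N : ℝ) ^ (1 / 2 : ℝ) := by gcongr
      _ = N := h1
  have hlx : Real.log x ≤ L := Real.log_le_log hx0 hxN
  have hlx2 : L / d ≤ Real.log x := by
    have h1 := Real.log_le_log hs0 hsx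
    rw [hs, Real.log_rpow hN0] at h1
    refine le_trans (le_of_eq ?_) h1
    rw [hL]
    ring
  have hdL : (d : ℝ) ≤ L := by
    refine le_trans ?_ hLU
    calc (d : ℝ) = (d : ℝ) ^ 1 := (pow_one _).symm
      _ ≤ (d : ℝ) ^ (U + 2) := pow_le_pow_right₀ hd1 (by omega)
  have hlx1 : 1 ≤ Real.log x := by
    refine le_trans ?_ hlx2
    rwa [one_le_div hd0]
  have hlx0 : 0 < Real.log x := by linarith
  have hLx : L ≤ d * Real.log x := by
    rw [div_le_iff₀ hd0] at hlx2
    linarith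
  have hxX0 : X0 ≤ x := by
    have h1 : X0 ^ d ≤ x ^ d := by omega
    exact (Nat.pow_le_pow_iff_left (by omega)).1 h1
  have hHr : (H : ℝ) ≤ N := by exact_mod_cast hH2
  -- z
  set z := ⌊L ^ E⌋₊ with hz
  have hzle : (z : ℝ) ≤ L ^ E := Nat.floor_le (by positivity)
  have hzlo : Real.log x ^ E' ≤ z := by
    have h1 : L ^ E < z + 1 := Nat.lt_floor_add_one _
    have h2 : L ^ (E' + 1) ≤ L ^ E := pow_le_pow_right₀ hL1 hE
    have h3 : 1 ≤ L ^ E' := one_le_pow₀ hL1
    have h4 : Real.log x ^ E' ≤ L ^ E' := pow_le_pow_left₀ hlx0.le hlx _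
    rw [pow_succ] at h2
    nlinarith
  have hzhi : (z : ℝ) ≤ Real.log x ^ (E + 1) := by
    refine hzle.trans ?_
    calc L ^ E ≤ (d * Real.log x) ^ E := pow_le_pow_left₀ hL0.le hLx E
      _ = (d : ℝ) ^ E * Real.log x ^ E := by rw [mul_pow]
      _ ≤ Real.log x * Real.log x ^ E := by
          apply mul_le_mul_of_nonneg_right _ (by positivity)
          refine le_trans ?_ hlx2
          rw [le_div_iff₀ hd0]
          linarith
      _ = Real.log x ^ (E + 1) := by ring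
  obtain ⟨Bad, hBad, hgood⟩ := hX0 x hxX0 (N : ℤ) H z hzlo hzhi
    (by
      rw [Int.cast_natCast, abs_of_nonneg hN0.le, pow_one]
      nlinarith)
    (by
      refine le_trans ?_ hH1
      have h1 : Real.log x ^ B ≤ L ^ B := pow_le_pow_left₀ hlx0.le hlx B
      have h2 : s ^ (d - 1) = (N : ℝ) ^ (1 - 1 / (d : ℝ)) := by
        rw [hs, ← Real.rpow_natCast, ← Real.rpow_mul hN0.le]
        congr 1
        rw [Nat.cast_sub (by omega)]
        push_cast
        field_simp
      calc (x : ℝ) ^ (d - 1) * Real.log x ^ B ≤ (3 * s) ^ (d - 1) * L ^ B := by gcongr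
        _ = 3 ^ (d - 1) * (s ^ (d - 1) * L ^ B) := by rw [mul_pow]; ring
        _ ≤ L * (s ^ (d - 1) * L ^ B) := by
            apply mul_le_mul_of_nonneg_right _ (by positivity)
            refine le_trans ?_ hL3
            exact pow_le_pow_right₀ (by norm_num) (by omega)
        _ = (N : ℝ) ^ (1 - 1 / (d : ℝ)) * L ^ (B + 1) := by rw [h2]; ring)
    (by
      rw [pow_one]
      nlinarith)
  refine ⟨(Ioc N (N + H)).filter (fun n : ℕ => (n : ℤ) ∈ Bad), ?_, ?_⟩
  · have h1 : ((Ioc N (N + H)).filter (fun n : ℕ => (n : ℤ) ∈ Bad)).card ≤ Bad.card := by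
      apply card_le_card_of_injOn (fun n : ℕ => (n : ℤ))
      · intro n hn
        rw [mem_coe, mem_filter] at hn
        exact hn.2
      · intro a _ b _ h
        simpa using h
    have h2 : (((Ioc N (N + H)).filter (fun n : ℕ => (n : ℤ) ∈ Bad)).card : ℝ) ≤ Bad.card := by
      exact_mod_cast h1
    refine h2.trans (hBad.trans ?_)
    have h3 : L ^ U ≤ Real.log x ^ (U + 2) := by
      have h4 : (L / d) ^ (U + 2) ≤ Real.log x ^ (U + 2) := pow_le_pow_left₀ (by positivity) hlx2 _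
      refine le_trans ?_ h4
      rw [div_pow, le_div_iff₀ (by positivity)]
      calc L ^ U * (d : ℝ) ^ (U + 2) ≤ L ^ U * L := by gcongr
        _ ≤ L ^ U * L ^ 2 := by
            gcongr
            nlinarith
        _ = L ^ (U + 2) := by ring
    exact div_le_div_of_nonneg_left (Nat.cast_nonneg _) (by positivity) h3
  · intro n hn1 hn2 hnB
    have hnB' : (n : ℤ) ∉ Bad := by
      intro hcon
      apply hnB
      rw [mem_filter, mem_Ioc]
      exact ⟨⟨hn1, hn2⟩, hcon⟩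
    obtain ⟨hS, hall⟩ := hgood n (by rw [mem_Ioc]; omega) hnB'
    set S := SS z (C (-1) * X ^ d + C (n : ℤ) : ℤ[X]) with hSd
    have hnx : n ≤ x ^ d := by omega
    have hx1 := hall x le_rfl
    rw [pv_eq_repd d n x (by omega) hnx, lF_eq_msd d n x (by omega) hnx] at hx1
    have hM := hN1 n (by omega)
    have hNn : (N : ℝ) ≤ n := by exact_mod_cast hn1.le
    have hn2N : (n : ℝ) ≤ 2 * N := by
      have : n ≤ 2 * N := by omega
      exact_mod_cast this
    have hn0 : (0 : ℝ) < n := by linarith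
    have hLn : L ≤ Real.log n := Real.log_le_log hN0 hNn
    have hLn2 : Real.log n ≤ 2 * L := by
      have h1 := Real.log_le_log hn0 hn2N
      rw [Real.log_mul (by norm_num) (by linarith)] at h1
      have h2 : Real.log 2 ≤ 1 := by have := Real.log_two_lt_d9; linarith
      linarith
    set Ln := Real.log n with hLnd
    have hLn0 : 0 < Ln := by linarith
    have hLn1 : 1 ≤ Ln := by linarith
    set t := (n : ℝ) ^ (1 / (d : ℝ)) with ht
    have hst : s ≤ t := Real.rpow_le_rpow hN0.le hNn (by positivity)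
    have ht0 : 0 < t := by linarith
    have hS1 : 1 / L ≤ S := by
      refine le_trans ?_ hS
      exact one_div_le_one_div_of_le hlx0 hlx
    have hS0 : 0 < S := lt_of_lt_of_le (by positivity) hS1
    have hxLn : Ln / (2 * d) ≤ Real.log x := by
      refine le_trans ?_ hlx2
      rw [div_le_div_iff₀ (by positivity) hd0]
      nlinarith
    have hLn3 : 6 * (2 * (d : ℝ)) ^ (U + 3) ≤ ε * Ln := by
      rw [div_le_iff₀ hε] at hLε
      nlinarith
    have herr : (x : ℝ) / Real.log x ^ (U + 2 + 1) ≤ ε / 2 * (t / Ln ^ (U + 2)) := by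
      have h1 : (Ln / (2 * d)) ^ (U + 3) ≤ Real.log x ^ (U + 3) := pow_le_pow_left₀ (by positivity) hxLn _
      calc (x : ℝ) / Real.log x ^ (U + 3) ≤ (3 * t) / (Ln / (2 * d)) ^ (U + 3) := by
            apply div_le_div₀ (by positivity) (by linarith) (by positivity) h1
        _ = (6 * (2 * (d : ℝ)) ^ (U + 3)) / 2 * (t / Ln ^ (U + 3)) := by
            rw [div_pow]
            field_simp
            ring
        _ ≤ (ε * Ln) / 2 * (t / Ln ^ (U + 3)) := by gcongr
        _ = ε / 2 * (t / Ln ^ (U + 2)) := by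
            rw [pow_succ Ln (U + 2)]
            field_simp
    refine ⟨hS1, ?_, ?_⟩
    · refine hx1.trans ?_
      apply mul_le_mul_of_nonneg_left _ hS0.le
      refine herr.trans ?_
      have h1 : t / Ln ^ (U + 2) ≤ t / Ln ^ U := by
        apply div_le_div_of_nonneg_left ht0.le (by positivity)
        exact pow_le_pow_right₀ hLn1 (by omega)
      have h2 : 0 < t / Ln ^ (U + 2) := by positivity
      nlinarith
    · set M := t / Ln with hMd
      have hM0 : 0 < M := by positivity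
      have h1 : (x : ℝ) / Real.log x ^ (U + 2 + 1) ≤ (ε / 2) * M := by
        refine herr.trans ?_
        apply mul_le_mul_of_nonneg_left _ (by positivity)
        rw [hMd]
        apply div_le_div_of_nonneg_left ht0.le hLn0
        calc Ln = Ln ^ 1 := (pow_one _).symm
          _ ≤ Ln ^ (U + 2) := pow_le_pow_right₀ hLn1 (by omega)
      have e2 : (repd d n : ℝ) - S * M = ((repd d n : ℝ) - S * msd d n) + S * (msd d n - M) := by ring
      rw [e2]
      calc |((repd d n : ℝ) - S * msd d n) + S * (msd d n - M)|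
          ≤ |(repd d n : ℝ) - S * msd d n| + |S * (msd d n - M)| := abs_add_le _ _
        _ ≤ S * ((ε / 2) * M) + S * (ε / 2 * M) := by
            apply add_le_add
            · exact hx1.trans (mul_le_mul_of_nonneg_left h1 hS0.le)
            · rw [abs_mul, abs_of_pos hS0]
              exact mul_le_mul_of_nonneg_left hM hS0.le
        _ = ε * (S * M) := by ring

end Pool.Agent.W81.RD
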