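import Pool.Agent.W81.R1.Core2

/-!
The second moment in short intervals of shifts for a general convex integer valued sequence,
explicit form.
-/

set_option autoImplicit false

namespace Pool.Agent.W81.RD

open Finset
open Pool.Agent.H469R2.NK (e norm_e e_add conj_e e_zero kusmin_landau_mono norm_sum_neg)
open Pool.Agent.H442R2.EHI (sum_e_range e_add_int e_int)
open Pool.Agent.H300R2.BH (chf fz ch_inv ch_parseval)
open Pool.Agent.W81.R1

/-- hypotheses on the sequence of values: periodicity, slopes between `P1` and `P2`, convexity -/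
structure Slo (F : ℕ → ℤ) (x1 x P1 P2 : ℕ) : Prop where
  per : ∀ n q k : ℕ, ∃ j : ℤ, F (n + q * k) = F n + q * j
  low : ∀ n l : ℕ, x1 < n → (l : ℤ) * P1 ≤ F (n + l) - F n
  up : ∀ n l : ℕ, x1 < n → n ≤ x → l ≤ x → F (n + l) - F n ≤ (l : ℤ) * P2
  conv : ∀ l n : ℕ, x1 < n → F (n + l) - F n ≤ F (n + 1 + l) - F (n + 1)

lemma Slo.conv' {F : ℕ → ℤ} {x1 x P1 P2 : ℕ} (h : Slo F x1 x P1 P2) (l k n : ℕ) (hn : x1 < n) :
    F (n + l) - F n ≤ F (n + k + l) - F (n + k) := by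
  induction k with
  | zero => exact le_rfl
  | succ k ih =>
    have := h.conv l (n + k) (by omega)
    exact ih.trans this

/-- `W` near a rational point -/
lemma outerG (F : ℕ → ℤ) (x1 x P1 P2 q : ℕ) (b : ℤ) (β' : ℝ) (hF : Slo F x1 x P1 P2)
    (hP1 : 1 ≤ P1) (hP12 : P1 ≤ P2) (hq : 1 ≤ q) (hqx : q ≤ x) (hβ' : β' ≠ 0)
    (hsmall : |β'| * (q * P2) ≤ 1 / 2) :
    ‖∑ n ∈ Ioc x1 x, e (-((F n : ℝ) * (b / q + β')))‖ ≤ 2 / (|β'| * P1) := by
  classical
  have hb0 : 0 < |β'| := abs_pos.2 hβ'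
  have hq0 : (0 : ℝ) < q := by exact_mod_cast hq
  have hP10 : (0 : ℝ) < P1 := by exact_mod_cast hP1
  have hsplit : ∑ n ∈ Ioc x1 x, e (-((F n : ℝ) * (b / q + β'))) =
      ∑ r ∈ range q, ∑ n ∈ (Ioc x1 x).filter (fun n => n % q = r),
        e (-((F n : ℝ) * (b / q + β'))) := by
    rw [sum_fiberwise_of_maps_to]
    intro n _
    rw [mem_range]
    exact Nat.mod_lt _ (by omega)
  rw [hsplit]
  have hone : ∀ r ∈ range q, ‖∑ n ∈ (Ioc x1 x).filter (fun n => n % q = r),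
        e (-((F n : ℝ) * (b / q + β')))‖ ≤ 2 / (|β'| * q * P1) := by
    intro r hr
    rw [mem_range] at hr
    obtain ⟨n0, c, hn0, hcb, himg⟩ := class_image x1 x q r hr
    have h1 : ∀ n ∈ (Ioc x1 x).filter (fun n => n % q = r),
        e (-((F n : ℝ) * (b / q + β'))) =
        e (-((F r : ℝ) * (b / q))) * e (-((F n : ℝ) * β')) := by
      intro n hn
      rw [mem_filter] at hn
      obtain ⟨k, hk⟩ : ∃ k : ℤ, F n = F r + q * k := by
        obtain ⟨j, hj⟩ := hF.per r q (n / q)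
        refine ⟨j, ?_⟩
        have h2 := Nat.mod_add_div n q
        rw [hn.2] at h2
        rw [h2] at hj
        exact hj
      rw [← e_add]
      have h3 : -((F n : ℝ) * (b / q + β')) = (-((F r : ℝ) * (b / q)) +
          -((F n : ℝ) * β')) + ((-(k * b) : ℤ) : ℝ) := by
        rw [hk]
        push_cast
        field_simp
        ring
      rw [h3, e_add_int]
    rw [sum_congr rfl h1, ← mul_sum, norm_mul, norm_e, one_mul, himg, sum_image (by
      intro i _ j _ hij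
      simp only at hij
      have : q * i = q * j := by omega
      exact Nat.eq_of_mul_eq_mul_left (by omega) this)]
    -- reduce to positive frequency
    have h4 : ‖∑ i ∈ range c, e (-((F (n0 + q * i) : ℝ) * β'))‖ =
        ‖∑ i ∈ range c, e ((F (n0 + q * i) : ℝ) * |β'|)‖ := by
      rcases lt_or_gt_of_ne hβ' with h | h
      · rw [abs_of_neg h]
        congr 1
        refine sum_congr rfl fun i _ => ?_
        congr 1
        ring
      · rw [abs_of_pos h]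
        exact norm_sum_neg (fun i : ℕ => (F (n0 + q * i) : ℝ) * β') c
    rw [h4]
    have hdiff : ∀ i : ℕ, n0 + q * i ≤ x →
        (q : ℝ) * P1 ≤ (F (n0 + q * (i + 1)) : ℝ) - F (n0 + q * i) ∧
        (F (n0 + q * (i + 1)) : ℝ) - F (n0 + q * i) ≤ q * P2 := by
      intro i hi
      have h5 := hF.low (n0 + q * i) q (by omega)
      have h6 := hF.up (n0 + q * i) q (by omega) hi hqx
      have h7 : n0 + q * (i + 1) = n0 + q * i + q := by ring
      rw [h7]
      constructor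
      · exact_mod_cast h5
      · exact_mod_cast h6
    have h14 : 2 / (|β'| * q * P1) = 2 / (|β'| * (q * P1)) := by rw [mul_assoc]
    rw [h14]
    have hle : |β'| * ((q : ℝ) * P1) ≤ |β'| * (q * P2) := by
      have h12 : (P1 : ℝ) ≤ P2 := by exact_mod_cast hP12
      gcongr
    apply kusmin_landau_mono (fun i : ℕ => (F (n0 + q * i) : ℝ) * |β'|) c (by positivity)
    · intro i hi
      obtain ⟨h5, h6⟩ := hdiff i (hcb i hi)
      calc |β'| * ((q : ℝ) * P1) ≤ |β'| * ((F (n0 + q * (i + 1)) : ℝ) - F (n0 + q * i)) := by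
            gcongr
        _ = _ := by ring
    · intro i hi
      obtain ⟨h5, h6⟩ := hdiff i (hcb i hi)
      calc (F (n0 + q * (i + 1)) : ℝ) * |β'| - (F (n0 + q * i) : ℝ) * |β'|
          = |β'| * ((F (n0 + q * (i + 1)) : ℝ) - F (n0 + q * i)) := by ring
        _ ≤ |β'| * (q * P2) := by gcongr
        _ ≤ 1 / 2 := hsmall
        _ ≤ 1 - |β'| * ((q : ℝ) * P1) := by linarith
    · intro i _
      have h15 : (F (n0 + q * (i + 1)) : ℝ) - F (n0 + q * i) ≤
          (F (n0 + q * (i + 2)) : ℝ) - F (n0 + q * (i + 1)) := by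
        have h16 := hF.conv' q q (n0 + q * i) (by omega)
        have h17 : n0 + q * (i + 1) = n0 + q * i + q := by ring
        have h18 : n0 + q * (i + 2) = n0 + q * i + q + q := by ring
        rw [h17, h18]
        exact_mod_cast h16
      calc (F (n0 + q * (i + 1)) : ℝ) * |β'| - (F (n0 + q * i) : ℝ) * |β'|
          = ((F (n0 + q * (i + 1)) : ℝ) - F (n0 + q * i)) * |β'| := by ring
        _ ≤ ((F (n0 + q * (i + 2)) : ℝ) - F (n0 + q * (i + 1))) * |β'| := by gcongr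
        _ = _ := by ring
  calc ‖∑ r ∈ range q, ∑ n ∈ (Ioc x1 x).filter (fun n => n % q = r),
        e (-((F n : ℝ) * (b / q + β')))‖
      ≤ ∑ r ∈ range q, 2 / (|β'| * q * P1) := (norm_sum_le _ _).trans (sum_le_sum hone)
    _ = _ := by
        rw [sum_const, card_range, nsmul_eq_mul]
        field_simp

/-- the Weyl sum -/
noncomputable def WF (F : ℕ → ℤ) (x1 x M : ℕ) (h : ℤ) : ℂ :=
  ∑ n ∈ Ioc x1 x, e (-((F n : ℝ) * h / M))

lemma WF_per (F : ℕ → ℤ) (x1 x M : ℕ) (hM : 1 ≤ M) (h : ℤ) :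
    WF F x1 x M (h + M) = WF F x1 x M h := by
  unfold WF
  refine sum_congr rfl fun n _ => ?_
  have hM0 : (M : ℝ) ≠ 0 := by positivity
  have : -((F n : ℝ) * ((h + M : ℤ) : ℝ) / M) = -((F n : ℝ) * h / M) +
      ((-(F n) : ℤ) : ℝ) := by
    push_cast; field_simp; ring
  rw [this, e_add_int]

lemma WF_le (F : ℕ → ℤ) (x1 x M : ℕ) (h : ℤ) : ‖WF F x1 x M h‖ ≤ x := by
  unfold WF
  calc ‖∑ n ∈ Ioc x1 x, e (-((F n : ℝ) * h / M))‖ ≤ ∑ n ∈ Ioc x1 x, 1 :=
        (norm_sum_le _ _).trans (sum_le_sum fun n _ => by rw [norm_e])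
    _ = ((x - x1 : ℕ) : ℝ) := by rw [sum_const, Nat.card_Ioc]; simp
    _ ≤ x := by exact_mod_cast Nat.sub_le _ _

/-- the contribution of one rational point -/
lemma one_arcG (F : ℕ → ℤ) (x1 x P1 P2 q M N : ℕ) (b : ℤ) (g : ℕ → ℂ) (G2 S0 δ δ1 : ℝ)
    (hF : Slo F x1 x P1 P2) (hP1 : 1 ≤ P1) (hP12 : P1 ≤ P2) (hM : 1 ≤ M) (hNM : N + 1 ≤ M)
    (hq : 1 ≤ q) (hqx : q ≤ x)
    (hsmall : δ * (q * P2) ≤ 1 / 2) (hδ1 : 0 < δ1) (hδ1M : 1 ≤ δ1 * M)
    (hG2 : ∑ n ∈ Icc 1 N, ‖g n‖ ^ 2 ≤ G2) (hS0 : 0 ≤ S0)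
    (hsup : ∀ t : ℝ, ‖∑ n ∈ Icc 1 N, g n * e (n * t)‖ ≤ S0) :
    ∑ h ∈ (range M).filter (fun h : ℕ => |(h : ℝ) / M - b / q| ≤ δ), ‖chf g N M h‖ * ‖WF F x1 x M h‖ ≤
      3 * δ1 * S0 * x + 4 * Real.sqrt (G2 / δ1) / P1 := by
  classical
  have hM0 : (0 : ℝ) < M := by exact_mod_cast hM
  have hP10 : (0 : ℝ) < P1 := by exact_mod_cast hP1
  have hG20 : 0 ≤ G2 := le_trans (sum_nonneg fun n _ => by positivity) hG2
  have hch : ∀ h : ℤ, ‖chf g N M h‖ ≤ S0 / M := by
    intro h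
    unfold chf
    rw [norm_mul, norm_div, norm_one, Complex.norm_natCast, one_div, inv_mul_eq_div]
    gcongr
    exact hsup _
  set c : ℝ := M * (b / q) with hc
  set P : ℝ := δ1 * M with hP
  have hd : ∀ h : ℕ, (h : ℝ) / M - b / q = ((h : ℝ) - c) / M := by
    intro h
    rw [hc]
    field_simp
  set S := (range M).filter (fun h : ℕ => |(h : ℝ) / M - b / q| ≤ δ) with hS
  -- inner part
  have hin : ∑ h ∈ S.filter (fun h : ℕ => |(h : ℝ) - c| < P), ‖chf g N M h‖ * ‖WF F x1 x M h‖ ≤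
      3 * δ1 * S0 * x := by
    have hcard : (((S.filter (fun h : ℕ => |(h : ℝ) - c| < P)).card : ℕ) : ℝ) ≤ 2 * P + 1 := by
      have h1 : (S.filter (fun h : ℕ => |(h : ℝ) - c| < P)).image (fun h : ℕ => (h : ℤ)) ⊆
          Icc ⌈c - P⌉ ⌊c + P⌋ := by
        intro h hh
        rw [mem_image] at hh
        obtain ⟨k, hk, rfl⟩ := hh
        rw [mem_filter] at hk
        have h2 := abs_lt.1 hk.2
        rw [mem_Icc]
        constructor
        · rw [Int.ceil_le]; push_cast; linarith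
        · rw [Int.le_floor]; push_cast; linarith
      have h2 := card_le_card h1
      rw [card_image_of_injective _ Nat.cast_injective, Int.card_Icc] at h2
      have h3 : ((⌊c + P⌋ + 1 - ⌈c - P⌉).toNat : ℝ) ≤ 2 * P + 1 := by
        have h4 : ((⌊c + P⌋ + 1 - ⌈c - P⌉ : ℤ) : ℝ) ≤ 2 * P + 1 := by
          push_cast
          have := Int.floor_le (c + P)
          have := Int.le_ceil (c - P)
          linarith
        rcases le_or_gt 0 (⌊c + P⌋ + 1 - ⌈c - P⌉) with h5 | h5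
        · have : (((⌊c + P⌋ + 1 - ⌈c - P⌉).toNat : ℤ) : ℝ) = ((⌊c + P⌋ + 1 - ⌈c - P⌉ : ℤ) : ℝ) := by
            rw [Int.toNat_of_nonneg h5]
          have h6 : ((⌊c + P⌋ + 1 - ⌈c - P⌉).toNat : ℝ) = (((⌊c + P⌋ + 1 - ⌈c - P⌉).toNat : ℤ) : ℝ) :=
            (Int.cast_natCast _).symm
          rw [h6, this]
          exact h4
        · rw [Int.toNat_eq_zero.2 h5.le]
          simp
          linarith
      calc _ ≤ ((⌊c + P⌋ + 1 - ⌈c - P⌉).toNat : ℝ) := by exact_mod_cast h2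
        _ ≤ _ := h3
    calc ∑ h ∈ S.filter (fun h : ℕ => |(h : ℝ) - c| < P), ‖chf g N M h‖ * ‖WF F x1 x M h‖
        ≤ ∑ h ∈ S.filter (fun h : ℕ => |(h : ℝ) - c| < P), (S0 / M) * x := by
          refine sum_le_sum fun h _ => ?_
          exact mul_le_mul (hch h) (WF_le _ _ _ _ _) (norm_nonneg _) (by positivity)
      _ = (((S.filter (fun h : ℕ => |(h : ℝ) - c| < P)).card : ℕ) : ℝ) * ((S0 / M) * x) := by
          rw [sum_const, nsmul_eq_mul]
      _ ≤ (3 * P) * ((S0 / M) * x) := by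
          gcongr
          linarith
      _ = _ := by rw [hP]; field_simp
  -- outer part
  have hout : ∑ h ∈ S.filter (fun h : ℕ => ¬ |(h : ℝ) - c| < P), ‖chf g N M h‖ * ‖WF F x1 x M h‖ ≤
      4 * Real.sqrt (G2 / δ1) / P1 := by
    set S' := S.filter (fun h : ℕ => ¬ |(h : ℝ) - c| < P) with hS'
    have hP0 : 0 < P := by linarith
    have hW : ∀ h ∈ S', ‖WF F x1 x M h‖ ^ 2 ≤ (4 * (M : ℝ) ^ 2 / (P1 : ℝ) ^ 2) * (1 / ((h : ℝ) - c) ^ 2) := by
      intro h hh
      rw [hS', mem_filter, hS, mem_filter] at hh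
      obtain ⟨⟨h1, h2⟩, h3⟩ := hh
      push Not at h3
      have hne : (h : ℝ) - c ≠ 0 := by
        intro h0; rw [h0, abs_zero] at h3; linarith
      have hb : ((h : ℝ) / M - b / q) ≠ 0 := by
        rw [hd]; exact div_ne_zero hne hM0.ne'
      have h4 := outerG F x1 x P1 P2 q b ((h : ℝ) / M - b / q) hF hP1 hP12 hq hqx hb (by
        calc |(h : ℝ) / M - b / q| * (q * P2) ≤ δ * (q * P2) := by gcongr
          _ ≤ 1 / 2 := hsmall)
      have h5 : WF F x1 x M h = ∑ n ∈ Ioc x1 x, e (-((F n : ℝ) * (b / q + ((h : ℝ) / M - b / q)))) := by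
        unfold WF
        refine sum_congr rfl fun n _ => ?_
        congr 2
        have : (b : ℝ) / q + ((h : ℝ) / M - b / q) = h / M := by ring
        rw [this]
        push_cast
        ring
      rw [h5]
      calc ‖∑ n ∈ Ioc x1 x, e (-((F n : ℝ) * (b / q + ((h : ℝ) / M - b / q))))‖ ^ 2
          ≤ (2 / (|(h : ℝ) / M - b / q| * P1)) ^ 2 := by gcongr
        _ = _ := by
            rw [hd, div_pow, mul_pow, sq_abs, div_pow]
            field_simp
            ring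
    have hsumW : ∑ h ∈ S', ‖WF F x1 x M h‖ ^ 2 ≤ (4 * (M : ℝ) ^ 2 / (P1 : ℝ) ^ 2) * (4 / P) := by
      calc ∑ h ∈ S', ‖WF F x1 x M h‖ ^ 2
          ≤ ∑ h ∈ S', (4 * (M : ℝ) ^ 2 / (P1 : ℝ) ^ 2) * (1 / ((h : ℝ) - c) ^ 2) := sum_le_sum hW
        _ = (4 * (M : ℝ) ^ 2 / (P1 : ℝ) ^ 2) * ∑ h ∈ S', 1 / ((h : ℝ) - c) ^ 2 := by rw [mul_sum]
        _ ≤ (4 * (M : ℝ) ^ 2 / (P1 : ℝ) ^ 2) * (4 / P) := by
            gcongr
            have h6 : S' ⊆ ((range M).filter (fun h : ℕ => c + P ≤ h)) ∪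
                ((range M).filter (fun h : ℕ => (h : ℝ) ≤ c - P)) := by
              intro h hh
              rw [hS', mem_filter, hS, mem_filter] at hh
              obtain ⟨⟨h1, h2⟩, h3⟩ := hh
              push Not at h3
              rw [mem_union, mem_filter, mem_filter]
              rcases le_abs.1 h3 with h4 | h4
              · left; exact ⟨h1, by linarith⟩
              · right; exact ⟨h1, by linarith⟩
            calc ∑ h ∈ S', 1 / ((h : ℝ) - c) ^ 2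
                ≤ ∑ h ∈ ((range M).filter (fun h : ℕ => c + P ≤ h)) ∪
                ((range M).filter (fun h : ℕ => (h : ℝ) ≤ c - P)), 1 / ((h : ℝ) - c) ^ 2 :=
                  sum_le_sum_of_subset_of_nonneg h6 (fun _ _ _ => by positivity)
              _ ≤ ∑ h ∈ (range M).filter (fun h : ℕ => c + P ≤ h), 1 / ((h : ℝ) - c) ^ 2 +
                ∑ h ∈ (range M).filter (fun h : ℕ => (h : ℝ) ≤ c - P), 1 / ((h : ℝ) - c) ^ 2 := by
                  rw [← sum_union_inter]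
                  have : 0 ≤ ∑ h ∈ ((range M).filter (fun h : ℕ => c + P ≤ h)) ∩
                    ((range M).filter (fun h : ℕ => (h : ℝ) ≤ c - P)), 1 / ((h : ℝ) - c) ^ 2 :=
                    sum_nonneg fun _ _ => by positivity
                  linarith
              _ ≤ 2 / P + 2 / P := add_le_add (tail_right M c P hδ1M) (tail_left M c P hδ1M)
              _ = 4 / P := by ring
    have hsumC : ∑ h ∈ S', ‖chf g N M h‖ ^ 2 ≤ G2 / M := by
      rw [le_div_iff₀ hM0, mul_comm]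
      calc (M : ℝ) * ∑ h ∈ S', ‖chf g N M h‖ ^ 2 ≤ M * ∑ h ∈ range M, ‖chf g N M h‖ ^ 2 := by
            gcongr
            exact (filter_subset _ _).trans (filter_subset _ _)
        _ = ∑ n ∈ Icc 1 N, ‖g n‖ ^ 2 := ch_parseval g N M hNM
        _ ≤ G2 := hG2
    have hcs : ∑ h ∈ S', ‖chf g N M h‖ * ‖WF F x1 x M h‖ ≤
        Real.sqrt ((G2 / M) * ((4 * (M : ℝ) ^ 2 / (P1 : ℝ) ^ 2) * (4 / P))) := by
      apply Real.le_sqrt_of_sq_le
      refine (sum_mul_sq_le_sq_mul_sq _ _ _).trans ?_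
      exact mul_le_mul hsumC hsumW (sum_nonneg fun _ _ => by positivity) (by positivity)
    refine hcs.trans (le_of_eq ?_)
    have h7 : (G2 / M) * ((4 * (M : ℝ) ^ 2 / (P1 : ℝ) ^ 2) * (4 / P)) = (4 / P1) ^ 2 * (G2 / δ1) := by
      rw [hP]; field_simp
    rw [h7, Real.sqrt_mul (by positivity), Real.sqrt_sq (by positivity)]
    ring
  calc ∑ h ∈ S, ‖chf g N M h‖ * ‖WF F x1 x M h‖
      = ∑ h ∈ S.filter (fun h : ℕ => |(h : ℝ) - c| < P), ‖chf g N M h‖ * ‖WF F x1 x M h‖ +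
        ∑ h ∈ S.filter (fun h : ℕ => ¬ |(h : ℝ) - c| < P), ‖chf g N M h‖ * ‖WF F x1 x M h‖ :=
        (sum_filter_add_sum_filter_not _ _ _).symm
    _ ≤ _ := add_le_add hin hout

/-- the minor arcs -/
lemma minor_TG (F : ℕ → ℤ) (x1 x P1 P2 A K : ℕ) (hF : Slo F x1 x P1 P2) (hP1 : 1 ≤ P1)
    (hA : 1 ≤ A) (hK : 1 ≤ K)
    (hrange : ∀ n ∈ Ioc x1 x, ∀ n' ∈ Ioc x1 x, (F n - F n').natAbs + A ≤ 16 * A * K)
    (h : ℤ) (B : ℕ → ℝ) (hB0 : ∀ l, 0 ≤ B l)
    (hB : ∀ l ∈ Icc 1 (A / P1), ∀ m, m + l ≤ x →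
      ‖∑ n ∈ Ioc x1 m, e (-(((F (n + l) - F n : ℤ) : ℝ) * ((h - K : ℤ) : ℝ) / ((16 * A * K : ℕ) : ℝ)))‖ ≤ B l) :
    ∑ k ∈ range (2 * K), ‖WF F x1 x (16 * A * K) (h - K + k)‖ ^ 2 ≤
      (32 * (K : ℝ)) * (x + 2 * ∑ l ∈ Icc 1 (A / P1), B l) := by
  classical
  set M := 16 * A * K with hM
  set Y := A / P1 with hY
  have hM1 : 1 ≤ M := by
    rw [hM]
    have : 1 ≤ A * K := Nat.mul_pos hA hK
    nlinarith
  have hM0 : (0 : ℝ) < M := by exact_mod_cast hM1
  have hA0 : (0 : ℝ) < A := by exact_mod_cast hA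
  have hK0 : (0 : ℝ) < K := by exact_mod_cast hK
  have hts := time_side M A K hM1 hA le_rfl F x1 x Y hrange
    (fun l n hn => hF.conv l n hn)
    (by
      intro n l hn hl
      have := hF.low n l hn
      have h1 : (0 : ℤ) < (l : ℤ) * P1 := by
        have : (0 : ℤ) < l := by exact_mod_cast hl
        have : (0 : ℤ) < P1 := by exact_mod_cast hP1
        positivity
      linarith)
    (by
      intro n l hn hl
      have h1 := hF.low n l hn
      have h2 : A < P1 * (Y + 1) := by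
        rw [hY]
        exact Nat.lt_mul_div_succ A (by omega)
      have h3 : (A : ℤ) ≤ (l : ℤ) * P1 := by
        have : A ≤ l * P1 := by
          calc A ≤ P1 * (Y + 1) := h2.le
            _ ≤ P1 * l := by gcongr; omega
            _ = l * P1 := mul_comm _ _
        exact_mod_cast this
      linarith)
    (h - K) B hB0 hB
  have hfin : ∑ k ∈ range (2 * K), ‖WF F x1 x M (h - K + k)‖ ^ 2 ≤
      (2 * (M : ℝ) / A) * (x + 2 * ∑ l ∈ Icc 1 Y, B l) := by
    refine le_trans (le_of_eq ?_) hts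
    refine sum_congr rfl fun k _ => ?_
    unfold WF
    congr 2
    refine sum_congr rfl fun n _ => ?_
    push_cast
    rfl
  refine hfin.trans ?_
  have h5 : 2 * (M : ℝ) / A = 32 * K := by
    rw [hM]; push_cast; field_simp; ring
  rw [h5]

theorem short_coreG (F : ℕ → ℤ) (x1 x P1 P2 A K N Q : ℕ) (a0 : ℤ) (g : ℕ → ℂ) (G2 S0 T δ δ1 : ℝ)
    (hF : Slo F x1 x P1 P2) (hP1 : 1 ≤ P1) (hP12 : P1 ≤ P2) (hx0' : 1 ≤ x)
    (hA1 : 1 ≤ A) (hK : 1 ≤ K)
    (hg : ∀ n, N < n → g n = 0) (hNM : N + 1 ≤ 16 * A * K)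
    (hval : ∀ n ∈ Ioc x1 x, ∀ k < A, (N : ℤ) - (16 * A * K : ℕ) < F n + (a0 + k) ∧
      F n + (a0 + k) ≤ (16 * A * K : ℕ))
    (hrange : ∀ n ∈ Ioc x1 x, ∀ n' ∈ Ioc x1 x, (F n - F n').natAbs + A ≤ 16 * A * K)
    (hT0 : 0 ≤ T) (hQx : Q ≤ x) (hδ0 : 0 < δ)
    (hsmall : δ * (Q * P2) ≤ 1 / 2)
    (hmin : ∀ h : ℕ, (¬ ∃ q : ℕ, 1 ≤ q ∧ q ≤ Q ∧ ∃ b : ℤ, |(h : ℝ) / ((16 * A * K : ℕ) : ℝ) - b / q| ≤ δ) →
      ∃ B : ℕ → ℝ, (∀ l, 0 ≤ B l) ∧ (∀ l ∈ Icc 1 (A / P1), ∀ m, m + l ≤ x →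
        ‖∑ n ∈ Ioc x1 m, e (-(((F (n + l) - F n : ℤ) : ℝ) * (((h : ℤ) - K : ℤ) : ℝ) /
          ((16 * A * K : ℕ) : ℝ)))‖ ≤ B l) ∧ ∑ l ∈ Icc 1 (A / P1), B l ≤ T)
    (hδ1 : 0 < δ1) (hδ1M : 1 ≤ δ1 * (16 * A * K : ℕ))
    (hG2 : ∑ n ∈ Icc 1 N, ‖g n‖ ^ 2 ≤ G2) (hS0 : 0 ≤ S0)
    (hsup : ∀ t : ℝ, ‖∑ n ∈ Icc 1 N, g n * e (n * t)‖ ≤ S0) :
    ∑ k ∈ range A, ‖∑ n ∈ Ioc x1 x, fz g (F n + (a0 + k))‖ ^ 2 ≤
      128 * G2 * (x + 2 * T) +
      64 * A * ((Q : ℝ) * (Q + 1) * (3 * δ1 * S0 * x + 4 * Real.sqrt (G2 / δ1) / P1)) ^ 2 := by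
  classical
  set M := 16 * A * K with hM
  have hM1 : 1 ≤ M := by omega
  have hM0 : (0 : ℝ) < M := by exact_mod_cast hM1
  have hA0 : (0 : ℝ) < A := by exact_mod_cast hA1
  have hK0 : (0 : ℝ) < K := by exact_mod_cast hK
  have hG20 : 0 ≤ G2 := le_trans (sum_nonneg fun n _ => by positivity) hG2
  have hx0 : (0 : ℝ) < x := by exact_mod_cast (by omega : 0 < x)
  have hP2r : (1 : ℝ) ≤ P2 := by exact_mod_cast hP1.trans hP12
  set W : ℤ → ℂ := WF F x1 x M with hW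
  set maj : ℕ → Prop := fun h => ∃ q : ℕ, 1 ≤ q ∧ q ≤ Q ∧ ∃ b : ℤ, |(h : ℝ) / M - b / q| ≤ δ with hmaj
  -- expansion
  have hexp : ∀ k ∈ range A, ∑ n ∈ Ioc x1 x, fz g (F n + (a0 + k)) =
      (∑ h ∈ range M, (if maj h then chf g N M h * W h else 0) * e (-(((h : ℤ) : ℝ) * (a0 + k) / M))) +
      ∑ h ∈ range M, (if maj h then 0 else chf g N M h * W h) * e (-(((h : ℤ) : ℝ) * (a0 + k) / M)) := by
    intro k hk
    rw [mem_range] at hk
    have h1 : ∀ n ∈ Ioc x1 x, fz g (F n + (a0 + k)) = ∑ h ∈ range M, chf g N M h *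
        e (-(((F n + (a0 + k) : ℤ) : ℝ) * h / M)) := by
      intro n hn
      have := hval n hn k hk
      rw [ch_inv g N M hg hM1 _ this.1 this.2]
    rw [sum_congr rfl h1, sum_comm, ← sum_add_distrib]
    refine sum_congr rfl fun h _ => ?_
    have h2 : (if maj h then chf g N M h * W h else 0) * e (-(((h : ℤ) : ℝ) * (a0 + k) / M)) +
        (if maj h then 0 else chf g N M h * W h) * e (-(((h : ℤ) : ℝ) * (a0 + k) / M)) =
        chf g N M h * W h * e (-(((h : ℤ) : ℝ) * (a0 + k) / M)) := by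
      split_ifs <;> ring
    rw [h2, hW, WF, mul_sum, sum_mul]
    refine sum_congr rfl fun n _ => ?_
    rw [mul_assoc, ← e_add]
    congr 2
    push_cast
    ring
  -- major part
  have hR : ∑ h ∈ range M, ‖if maj h then chf g N M h * W h else 0‖ ≤
      (Q : ℝ) * (Q + 1) * (3 * δ1 * S0 * x + 4 * Real.sqrt (G2 / δ1) / P1) := by
    have hsub : (range M).filter (fun h => maj h) ⊆ (Icc 1 Q ×ˢ range (Q + 1)).biUnion
        (fun p : ℕ × ℕ => (range M).filter (fun h : ℕ => |(h : ℝ) / M - ((p.2 : ℤ) : ℝ) / p.1| ≤ δ)) := by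
      intro h hh
      rw [mem_filter, mem_range] at hh
      obtain ⟨hhM, q, hq1, hqQ, b, hb⟩ := hh
      have hq0 : (0 : ℝ) < q := by exact_mod_cast hq1
      have hδq : δ * q ≤ 1 / 2 := by
        refine le_trans ?_ hsmall
        have h1 : (q : ℝ) ≤ Q := by exact_mod_cast hqQ
        have h3 : (q : ℝ) ≤ Q * P2 := by
          have : (0 : ℝ) ≤ Q := by positivity
          nlinarith
        gcongr
      have h4 := abs_le.1 hb
      have h5 : (0 : ℝ) ≤ (h : ℝ) / M := by positivity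
      have h6 : (h : ℝ) / M < 1 := by
        rw [div_lt_one hM0]; exact_mod_cast hhM
      have hb0 : 0 ≤ b := by
        by_contra hcon
        push Not at hcon
        have h7 : (b : ℝ) ≤ -1 := by exact_mod_cast (by omega : b ≤ -1)
        have h8 : (b : ℝ) / q ≤ -1 / q := by gcongr
        have h9 : (1 : ℝ) / q ≤ δ := by
          have : -1 / (q : ℝ) = -(1 / q) := by ring
          linarith
        rw [div_le_iff₀ hq0] at h9
        linarith
      have hbq : b ≤ q := by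
        by_contra hcon
        push Not at hcon
        have h7 : (q : ℝ) + 1 ≤ b := by exact_mod_cast (by omega : (q : ℤ) + 1 ≤ b)
        have h8 : ((q : ℝ) + 1) / q ≤ b / q := by gcongr
        have h9 : ((q : ℝ) + 1) / q = 1 + 1 / q := by field_simp
        have h10 : (1 : ℝ) / q ≤ δ := by linarith
        rw [div_le_iff₀ hq0] at h10
        linarith
      rw [mem_biUnion]
      refine ⟨(q, b.toNat), ?_, ?_⟩
      · rw [mem_product, mem_Icc, mem_range]
        exact ⟨⟨hq1, hqQ⟩, by omega⟩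
      · rw [mem_filter, mem_range]
        refine ⟨hhM, ?_⟩
        simp only
        rw [Int.toNat_of_nonneg hb0]
        exact hb
    have h1 : ∑ h ∈ range M, ‖if maj h then chf g N M h * W h else 0‖ =
        ∑ h ∈ (range M).filter (fun h => maj h), ‖chf g N M h‖ * ‖W h‖ := by
      rw [sum_filter]
      refine sum_congr rfl fun h _ => ?_
      split_ifs
      · rw [norm_mul]
      · simp
    rw [h1]
    set Ar : ℕ × ℕ → Finset ℕ := fun p => (range M).filter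
      (fun h : ℕ => |(h : ℝ) / M - ((p.2 : ℤ) : ℝ) / p.1| ≤ δ) with hAr
    have hbu : ∀ (T : Finset (ℕ × ℕ)), ∑ h ∈ T.biUnion Ar, ‖chf g N M h‖ * ‖W h‖ ≤
        ∑ p ∈ T, ∑ h ∈ Ar p, ‖chf g N M h‖ * ‖W h‖ := by
      intro T
      induction T using Finset.induction_on with
      | empty => simp
      | insert p T hp ih =>
        rw [biUnion_insert, sum_insert hp]
        have h2 : ∑ h ∈ Ar p ∪ T.biUnion Ar, ‖chf g N M h‖ * ‖W h‖ ≤
            ∑ h ∈ Ar p, ‖chf g N M h‖ * ‖W h‖ + ∑ h ∈ T.biUnion Ar, ‖chf g N M h‖ * ‖W h‖ := by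
          rw [← sum_union_inter]
          have : 0 ≤ ∑ h ∈ Ar p ∩ T.biUnion Ar, ‖chf g N M h‖ * ‖W h‖ :=
            sum_nonneg fun _ _ => by positivity
          linarith
        linarith
    calc ∑ h ∈ (range M).filter (fun h => maj h), ‖chf g N M h‖ * ‖W h‖
        ≤ ∑ h ∈ (Icc 1 Q ×ˢ range (Q + 1)).biUnion Ar, ‖chf g N M h‖ * ‖W h‖ :=
          sum_le_sum_of_subset_of_nonneg hsub fun _ _ _ => by positivity
      _ ≤ ∑ p ∈ Icc 1 Q ×ˢ range (Q + 1), ∑ h ∈ Ar p, ‖chf g N M h‖ * ‖W h‖ := hbu _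
      _ ≤ ∑ p ∈ Icc 1 Q ×ˢ range (Q + 1), (3 * δ1 * S0 * x + 4 * Real.sqrt (G2 / δ1) / P1) := by
          refine sum_le_sum fun p hp => ?_
          rw [mem_product, mem_Icc, mem_range] at hp
          apply one_arcG F x1 x P1 P2 p.1 M N (p.2 : ℤ) g G2 S0 δ δ1 hF hP1 hP12 hM1 hNM hp.1.1
            (hp.1.2.trans hQx) _ hδ1 hδ1M hG2 hS0 hsup
          refine le_trans ?_ hsmall
          have : (p.1 : ℝ) ≤ Q := by exact_mod_cast hp.1.2
          gcongr
      _ = _ := by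
          rw [sum_const, card_product, Nat.card_Icc, card_range, nsmul_eq_mul, Nat.add_sub_cancel]
          push_cast
          ring
  have hmajor := freq_maj M A K hM1 hK (by rw [hM]; nlinarith [Nat.zero_le (A * K)]) (by rw [hM]; nlinarith) a0
    (fun h => if maj h then chf g N M h * W h else 0)
  -- minor part
  have hminor : ∑ k ∈ range A, ‖∑ h ∈ range M, (if maj h then 0 else chf g N M h * W h) *
        e (-(((h : ℤ) : ℝ) * (a0 + k) / M))‖ ^ 2 ≤ (2 * (M : ℝ) / K) *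
      (((32 * (K : ℝ)) * (x + 2 * T)) *
        ∑ h ∈ range M, (if maj h then 0 else ‖chf g N M h‖) ^ 2) := by
    apply freq_min M A K hM1 hK (by rw [hM]; nlinarith [Nat.zero_le (A * K)]) (by rw [hM]; nlinarith) a0
      (fun h => if maj h then 0 else chf g N M h * W h) _ (fun h => ‖W h‖)
    · intro h
      split_ifs <;> positivity
    · intro h
      exact norm_nonneg _
    · intro h
      simp only [hW]
      rw [WF_per F x1 x M hM1]
    · intro h _
      split_ifs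
      · simp
      · rw [norm_mul]
    · intro h _ hp
      have hnm : ¬ maj h := by
        intro hm
        simp only [if_pos hm] at hp
        exact hp rfl
      obtain ⟨B, hB0, hB1, hB2⟩ := hmin h hnm
      have h3 := minor_TG F x1 x P1 P2 A K hF hP1 hA1 hK hrange (h : ℤ) B hB0 hB1
      refine h3.trans ?_
      gcongr
  have hpar : ∑ h ∈ range M, (if maj h then 0 else ‖chf g N M h‖) ^ 2 ≤ G2 / M := by
    rw [le_div_iff₀ hM0, mul_comm]
    calc (M : ℝ) * ∑ h ∈ range M, (if maj h then 0 else ‖chf g N M h‖) ^ 2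
        ≤ M * ∑ h ∈ range M, ‖chf g N M h‖ ^ 2 := by
          gcongr with h _
          split_ifs
          · exact norm_nonneg _
          · exact le_rfl
      _ = ∑ n ∈ Icc 1 N, ‖g n‖ ^ 2 := ch_parseval g N M hNM
      _ ≤ G2 := hG2
  have hM16 : (M : ℝ) = 16 * A * K := by rw [hM]; push_cast; ring
  calc ∑ k ∈ range A, ‖∑ n ∈ Ioc x1 x, fz g (F n + (a0 + k))‖ ^ 2
      ≤ ∑ k ∈ range A, (2 * ‖∑ h ∈ range M, (if maj h then 0 else chf g N M h * W h) *
          e (-(((h : ℤ) : ℝ) * (a0 + k) / M))‖ ^ 2 +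
        2 * ‖∑ h ∈ range M, (if maj h then chf g N M h * W h else 0) *
          e (-(((h : ℤ) : ℝ) * (a0 + k) / M))‖ ^ 2) := by
        refine sum_le_sum fun k hk => ?_
        rw [hexp k hk, add_comm]
        exact norm_add_sq_le' _ _
    _ = 2 * ∑ k ∈ range A, ‖∑ h ∈ range M, (if maj h then 0 else chf g N M h * W h) *
          e (-(((h : ℤ) : ℝ) * (a0 + k) / M))‖ ^ 2 +
        2 * ∑ k ∈ range A, ‖∑ h ∈ range M, (if maj h then chf g N M h * W h else 0) *
          e (-(((h : ℤ) : ℝ) * (a0 + k) / M))‖ ^ 2 := by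
        rw [sum_add_distrib, mul_sum, mul_sum]
    _ ≤ 2 * ((2 * (M : ℝ) / K) * (((32 * (K : ℝ)) * (x + 2 * T)) * (G2 / M))) +
        2 * ((2 * (M : ℝ) / K) * ((Q : ℝ) * (Q + 1) * (3 * δ1 * S0 * x + 4 * Real.sqrt (G2 / δ1) / P1)) ^ 2) := by
        gcongr
        · refine hminor.trans ?_
          gcongr
        · refine hmajor.trans ?_
          gcongr
    _ = _ := by
        rw [hM16]
        field_simp
        ring

end Pool.Agent.W81.RD
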