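import Pool.Agent.W81.R1.Model
import Pool.Agent.W81.R1N.ModelN
import Pool.Agent.H300R2.BH.BHcor

/-!
From the weighted sums to the number of prime values, for one polynomial of arbitrary degree whose
values are monotone from some point on.
-/

set_option autoImplicit false

namespace Pool.Agent.W81.RD

open Finset Filter Polynomial
open Pool.Agent.H442R2.EHI (evt_log_pow evt_log_ge)
open Pool.Agent.H300R2.BH (rho SS pv lF rho_le)
open Pool.Agent.H338R2.BH (rho_le_deg)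
open Pool.Agent.H373R2.T7 (lamz Vz pz mem_pz lamz_nonneg Vz_pos Vz_inv_small sys_count PerB nuB)
open Pool.Agent.W81.R1
open Pool.Agent.W81.R1N (abel_mono)

lemma PP_boundsG (z : ℕ) (F : ℤ[X]) : 0 ≤ PP z F ∧ PP z F ≤ 1 := by
  have h : ∀ p ∈ pz z, 0 ≤ 1 - (rho F p : ℝ) / p ∧ 1 - (rho F p : ℝ) / p ≤ 1 := by
    intro p hp
    have hp0 : (0 : ℝ) < p := by exact_mod_cast (mem_pz.1 hp).2.pos
    have h1 : (rho F p : ℝ) ≤ p := by exact_mod_cast rho_le F p
    have h2 : (rho F p : ℝ) / p ≤ 1 := by rw [div_le_one hp0]; exact h1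
    have h3 : 0 ≤ (rho F p : ℝ) / p := by positivity
    constructor <;> linarith
  constructor
  · exact prod_nonneg fun p hp => (h p hp).1
  · exact prod_le_one (fun p hp => (h p hp).1) fun p hp => (h p hp).2

open Classical in
/-- counting the arguments with rough values -/
theorem count_allG (d E V : ℕ) (hd : 1 ≤ d) : ∀ᶠ x : ℕ in atTop, ∀ z : ℕ, 1 ≤ z →
    (z : ℝ) ≤ Real.log x ^ E → ∀ F : ℤ[X], F.natDegree ≤ d →
    (∀ p : ℕ, p.Prime → p ≤ z → rho F p ≠ p) → ∀ n ≤ x,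
      |(((Icc 1 n).filter (fun m : ℕ => ∀ p ∈ pz z, ¬ (p : ℤ) ∣ F.eval (m : ℤ))).card : ℝ) -
        n * PP z F| ≤ x / Real.log x ^ V := by
  obtain ⟨N0, h0⟩ := sys_count d (E + 1) (V + 1) hd
  filter_upwards [evt_log_ge (2 ^ (V + 1)), evt_log_ge (2 ^ (E + 1)), evt_log_ge 4,
    evt_log_pow V (1 / 2) (by norm_num), eventually_ge_atTop (N0 ^ 2), eventually_ge_atTop 1]
    with x hLV hLE hL4 hV hxN hx1 z hz hzE F hFd hfix n hn
  set L := Real.log x with hL
  have hL0 : 0 < L := by linarith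
  have hxr : (1 : ℝ) ≤ x := by exact_mod_cast hx1
  have hx0 : (0 : ℝ) < x := by linarith
  have hnx : (n : ℝ) ≤ x := by exact_mod_cast hn
  have hP := PP_boundsG z F
  rcases lt_or_ge (n : ℝ) (x / L ^ V) with hsm | hlg
  · -- short
    have h1 : (((Icc 1 n).filter (fun m : ℕ => ∀ p ∈ pz z, ¬ (p : ℤ) ∣ F.eval (m : ℤ))).card : ℝ) ≤ n := by
      have := card_filter_le (Icc 1 n) (fun m : ℕ => ∀ p ∈ pz z, ¬ (p : ℤ) ∣ F.eval (m : ℤ))
      rw [Nat.card_Icc, Nat.add_sub_cancel] at this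
      exact_mod_cast this
    have h2 : (0 : ℝ) ≤ (((Icc 1 n).filter (fun m : ℕ => ∀ p ∈ pz z, ¬ (p : ℤ) ∣ F.eval (m : ℤ))).card : ℝ) :=
      Nat.cast_nonneg _
    have h3 : (n : ℝ) * PP z F ≤ n := by
      have : (0 : ℝ) ≤ n := Nat.cast_nonneg _
      nlinarith [hP.2]
    have h4 : 0 ≤ (n : ℝ) * PP z F := mul_nonneg (Nat.cast_nonneg _) hP.1
    rw [abs_le]
    constructor <;> linarith
  · have h12 : (x : ℝ) ^ (1 / 2 : ℝ) ≤ n := by
      refine le_trans ?_ hlg
      rw [le_div_iff₀ (by positivity)]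
      calc (x : ℝ) ^ (1 / 2 : ℝ) * L ^ V ≤ (x : ℝ) ^ (1 / 2 : ℝ) * (x : ℝ) ^ (1 / 2 : ℝ) := by gcongr
        _ = x := by rw [← Real.rpow_add hx0]; norm_num
    have hNn : N0 ≤ n := by
      have h1 : ((N0 : ℝ)) ≤ (x : ℝ) ^ (1 / 2 : ℝ) := by
        rw [← Real.sqrt_eq_rpow]
        apply Real.le_sqrt_of_sq_le
        exact_mod_cast hxN
      exact_mod_cast h1.trans h12
    have hn0 : (0 : ℝ) < n := lt_of_lt_of_le (by positivity) h12
    set M := Real.log n with hM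
    have hLM : L ≤ 2 * M := by
      have h1 := Real.log_le_log (by positivity) h12
      rw [Real.log_rpow hx0] at h1
      linarith
    have hM0 : 0 < M := by linarith
    have hM2 : (2 : ℝ) ^ E ≤ M := by
      have : (2 : ℝ) ^ (E + 1) = 2 * 2 ^ E := by ring
      linarith
    have hzE' : (z : ℝ) ≤ M ^ (E + 1) := by
      refine hzE.trans ?_
      calc L ^ E ≤ (2 * M) ^ E := pow_le_pow_left₀ hL0.le hLM E
        _ = 2 ^ E * M ^ E := by rw [mul_pow]
        _ ≤ M * M ^ E := by gcongr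
        _ = M ^ (E + 1) := by ring
    have hnuB : ∀ p : ℕ, p ≤ z → nuB (fun (p m : ℕ) => p ≤ z ∧ (p : ℤ) ∣ F.eval (m : ℤ)) p = rho F p := by
      intro p hp
      unfold nuB rho
      refine congrArg Finset.card ?_
      ext r
      simp only [mem_filter, mem_range]
      tauto
    have hper : PerB (fun (p m : ℕ) => p ≤ z ∧ (p : ℤ) ∣ F.eval (m : ℤ)) d := by
      refine ⟨fun p m => ?_, fun p hp => ?_⟩
      · have h1 : (p : ℤ) ∣ ((m : ℤ) - ((m % p : ℕ) : ℤ)) := by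
          have h2 := Nat.div_add_mod m p
          refine ⟨((m / p : ℕ) : ℤ), ?_⟩
          have h3 : ((p * (m / p) + m % p : ℕ) : ℤ) = (m : ℤ) := by rw [h2]
          push_cast at h3 ⊢
          linarith
        have h2 : (p : ℤ) ∣ F.eval (m : ℤ) - F.eval ((m % p : ℕ) : ℤ) :=
          h1.trans (Polynomial.sub_dvd_eval_sub _ _ _)
        constructor
        · rintro ⟨h4, h3⟩
          refine ⟨h4, ?_⟩
          have := dvd_sub h3 h2
          simpa using this
        · rintro ⟨h4, h3⟩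
          refine ⟨h4, ?_⟩
          have := dvd_add h2 h3
          simpa using this
      · by_cases hpz : p ≤ z
        · rw [hnuB p hpz]
          exact rho_le_deg F p d hp hFd (hfix p hp hpz)
        · have : nuB (fun (p m : ℕ) => p ≤ z ∧ (p : ℤ) ∣ F.eval (m : ℤ)) p = 0 := by
            unfold nuB
            rw [card_eq_zero]
            ext r
            simp only [mem_filter, mem_range, notMem_empty, iff_false]
            rintro ⟨_, h⟩
            exact hpz h.1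
          omega
    have key := h0 n hNn z hz hzE' _ hper
    have hnu : ∏ p ∈ pz z, (1 - (nuB (fun (p m : ℕ) => p ≤ z ∧ (p : ℤ) ∣ F.eval (m : ℤ)) p : ℝ) / p) =
        PP z F := by
      unfold PP
      refine prod_congr rfl fun p hp => ?_
      rw [hnuB p (mem_pz.1 hp).1]
    rw [hnu] at key
    have hset : ((Icc 1 n).filter (fun m : ℕ => ∀ p ∈ pz z, ¬ (p : ℤ) ∣ F.eval (m : ℤ))) =
        ((Icc 1 n).filter (fun m : ℕ => ∀ p ∈ pz z, ¬ (p ≤ z ∧ (p : ℤ) ∣ F.eval (m : ℤ)))) := by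
      apply filter_congr
      intro m _
      constructor
      · intro h p hp hh
        exact h p hp hh.2
      · intro h p hp hh
        exact h p hp ⟨(mem_pz.1 hp).1, hh⟩
    rw [hset]
    refine (le_of_eq ?_).trans (key.trans ?_)
    · exact congrArg (fun t : ℕ => |(t : ℝ) - n * PP z F|) (card_inst _ _ _ _)
    rw [div_le_div_iff₀ (by positivity) (by positivity)]
    calc (n : ℝ) * L ^ V ≤ x * (2 * M) ^ V := by gcongr
      _ = x * (2 ^ V * M ^ V) := by rw [mul_pow]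
      _ ≤ x * (M * M ^ V) := by
          gcongr
          have : (2 : ℝ) ^ (V + 1) = 2 * 2 ^ V := by ring
          linarith
      _ = x * M ^ (V + 1) := by ring

/-- the arguments with values at least `2`, for monotone values -/
lemma thr (F : ℕ → ℤ) (n0 y : ℕ) (h : (∀ n m : ℕ, n0 < n → n ≤ m → F n ≤ F m) ∨
    (∀ n m : ℕ, n0 < n → n ≤ m → F m ≤ F n)) : ∃ u v : ℕ, n0 ≤ u ∧ u ≤ v ∧ v ≤ max n0 y ∧
    ∀ n, n0 < n → n ≤ y → (2 ≤ F n ↔ u < n ∧ n ≤ v) := by
  classical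
  rcases h with h | h
  · set S := (Ioc n0 y).filter (fun n => F n < 2) with hS
    refine ⟨max n0 (S.sup id), max n0 y, le_max_left _ _, ?_, le_rfl, ?_⟩
    · apply max_le_max le_rfl
      apply Finset.sup_le
      intro n hn
      rw [hS, mem_filter, mem_Ioc] at hn
      exact hn.1.2
    · intro n hn hny
      constructor
      · intro h2
        refine ⟨?_, hny.trans (le_max_right _ _)⟩
        rw [max_lt_iff]
        refine ⟨hn, ?_⟩
        rw [Finset.sup_lt_iff (by simp; omega)]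
        intro m hm
        rw [hS, mem_filter, mem_Ioc] at hm
        by_contra hcon
        have h3 := h n m hn (by simpa using hcon)
        omega
      · rintro ⟨h2, _⟩
        by_contra hcon
        have h3 : n ∈ S := by
          rw [hS, mem_filter, mem_Ioc]
          exact ⟨⟨hn, hny⟩, by omega⟩
        have h4 : n ≤ S.sup id := Finset.le_sup (f := id) h3
        have h5 := le_max_right n0 (S.sup id)
        omega
  · set S := (Ioc n0 y).filter (fun n => 2 ≤ F n) with hS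
    refine ⟨n0, max n0 (S.sup id), le_rfl, le_max_left _ _, ?_, ?_⟩
    · apply max_le_max le_rfl
      apply Finset.sup_le
      intro n hn
      rw [hS, mem_filter, mem_Ioc] at hn
      exact hn.1.2
    · intro n hn hny
      constructor
      · intro h2
        refine ⟨hn, ?_⟩
        have h3 : n ∈ S := by
          rw [hS, mem_filter, mem_Ioc]
          exact ⟨⟨hn, hny⟩, h2⟩
        exact (Finset.le_sup (f := id) h3).trans (le_max_right _ _)
      · rintro ⟨_, h2⟩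
        have h3 : n ≤ S.sup id := by
          rcases le_max_iff.1 h2 with h4 | h4
          · omega
          · exact h4
        have hne : S.Nonempty := by
          by_contra hcon
          rw [Finset.not_nonempty_iff_eq_empty] at hcon
          rw [hcon, Finset.sup_empty] at h3
          simp at h3
          omega
        obtain ⟨m, hm, hm2⟩ := Finset.exists_mem_eq_sup S hne id
        rw [hm2] at h3
        rw [hS, mem_filter, mem_Ioc] at hm
        exact hm.2.trans (h n m hn h3)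

open Classical in
/-- from the weighted sums to the number of prime values -/
theorem pv_closeG (d E V : ℕ) (hd : 1 ≤ d) : ∀ᶠ x : ℕ in atTop, ∀ (F : ℤ[X]) (z n0 : ℕ),
    F.natDegree ≤ d → 1 ≤ z → (z : ℝ) ≤ Real.log x ^ E →
    (∀ p : ℕ, p.Prime → p ≤ z → rho F p ≠ p) → (n0 : ℝ) ≤ x / Real.log x ^ (V + 3) →
    ((∀ n m : ℕ, n0 < n → n ≤ m → F.eval (n : ℤ) ≤ F.eval (m : ℤ)) ∨
      (∀ n m : ℕ, n0 < n → n ≤ m → F.eval (m : ℤ) ≤ F.eval (n : ℤ))) →
    (∀ y ≤ x, |∑ n ∈ Ioc 0 y, gI z (F.eval (n : ℤ))| ≤ x / Real.log x ^ (V + 2)) →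
    ∀ y ≤ x, |pv F y - SS z F * lF F y| ≤ x / Real.log x ^ V := by
  obtain ⟨N1, hN1⟩ := Vz_inv_small E
  filter_upwards [count_allG d E (V + 3) hd, eventually_ge_atTop N1, evt_log_ge 100,
    evt_log_pow (V + 3) 1 (by norm_num), eventually_ge_atTop 1]
    with x hcount hxN1 hL hV hx1 F z n0 hFd hz hzE hfix hn0r hmono hS y hy
  rw [Real.rpow_one] at hV
  have hVz := hN1 x hxN1 z hz hzE
  have hcnt := hcount z hz hzE F hFd hfix
  set L := Real.log x with hLd
  have hL0 : 0 < L := by linarith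
  have hL1 : 1 ≤ L := by linarith
  have hxr : (1 : ℝ) ≤ x := by exact_mod_cast hx1
  have hx0 : (0 : ℝ) < x := by linarith
  have hn0x : n0 ≤ x := by
    have h1 : (n0 : ℝ) ≤ x := by
      refine hn0r.trans ?_
      rw [div_le_iff₀ (by positivity)]
      have : 1 ≤ L ^ (V + 3) := one_le_pow₀ hL1
      nlinarith
    exact_mod_cast h1
  set v := (Vz z)⁻¹ with hv
  have hv0 : 0 < v := inv_pos.2 (Vz_pos z)
  obtain ⟨hP0, hP1⟩ := PP_boundsG z F
  set P := PP z F with hP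
  have hSS : SS z F = v * P := SS_eq_PP z F
  have hSS0 : 0 ≤ SS z F := by rw [hSS]; positivity
  have hSSL : SS z F ≤ L := by
    rw [hSS]
    calc v * P ≤ L * 1 := mul_le_mul hVz hP1 hP0 hL0.le
      _ = L := mul_one L
  -- the threshold
  obtain ⟨n2, n3, hn02, hn23, hn3y, hiff⟩ := thr (fun n => F.eval (n : ℤ)) n0 y hmono
  have hn3x : n3 ≤ x := hn3y.trans (max_le hn0x hy)
  have hin : ∀ n : ℕ, n2 < n → n ≤ n3 → n ≤ y := by
    intro n h1 h2
    rcases le_max_iff.1 (h2.trans hn3y) with h3 | h3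
    · omega
    · exact h3
  have hpos : ∀ n : ℕ, n2 < n → n ≤ n3 → 2 ≤ F.eval (n : ℤ) := by
    intro n h1 h2
    exact (hiff n (by omega) (hin n h1 h2)).2 ⟨h1, h2⟩
  -- the sum of the weights between the thresholds
  have hT : ∀ u t : ℕ, n2 ≤ u → u ≤ t → t ≤ n3 → |∑ n ∈ Ioc u t, (thw (F.eval (n : ℤ)) - SS z F)| ≤
      4 * x / L ^ (V + 2) := by
    intro u t hu hut htn3
    have htx : t ≤ x := htn3.trans hn3x
    have e1 : ∑ n ∈ Ioc u t, (thw (F.eval (n : ℤ)) - SS z F) =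
        (∑ n ∈ Ioc 0 t, gI z (F.eval (n : ℤ)) - ∑ n ∈ Ioc 0 u, gI z (F.eval (n : ℤ))) +
        v * (((((Icc 1 t).filter (fun m : ℕ => ∀ p ∈ pz z, ¬ (p : ℤ) ∣ F.eval (m : ℤ))).card : ℝ) - t * P) -
          ((((Icc 1 u).filter (fun m : ℕ => ∀ p ∈ pz z, ¬ (p : ℤ) ∣ F.eval (m : ℤ))).card : ℝ) - u * P)) := by
      have h1 : ∑ n ∈ Ioc 0 t, gI z (F.eval (n : ℤ)) - ∑ n ∈ Ioc 0 u, gI z (F.eval (n : ℤ)) =
          ∑ n ∈ Ioc u t, gI z (F.eval (n : ℤ)) := by
        rw [sub_eq_iff_eq_add, ← sum_union]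
        · congr 1
          ext n
          simp only [mem_Ioc, mem_union]
          omega
        · rw [disjoint_left]
          intro n hn hn2
          rw [mem_Ioc] at hn hn2
          omega
      have h2 : ((((Icc 1 t).filter (fun m : ℕ => ∀ p ∈ pz z, ¬ (p : ℤ) ∣ F.eval (m : ℤ))).card : ℝ)) -
          ((((Icc 1 u).filter (fun m : ℕ => ∀ p ∈ pz z, ¬ (p : ℤ) ∣ F.eval (m : ℤ))).card : ℝ)) =
          ∑ n ∈ Ioc u t, (if ∀ p ∈ pz z, ¬ (p : ℤ) ∣ F.eval (n : ℤ) then (1 : ℝ) else 0) := by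
        rw [sub_eq_iff_eq_add]
        have h3 : ∀ s : Finset ℕ, ((s.filter (fun m : ℕ => ∀ p ∈ pz z, ¬ (p : ℤ) ∣ F.eval (m : ℤ))).card : ℝ) =
            ∑ n ∈ s, (if ∀ p ∈ pz z, ¬ (p : ℤ) ∣ F.eval (n : ℤ) then (1 : ℝ) else 0) := by
          intro s
          rw [← sum_filter, sum_const, nsmul_eq_mul, mul_one]
        rw [h3, h3, ← sum_union]
        · congr 1
          ext n
          simp only [mem_Ioc, mem_Icc, mem_union]
          omega
        · rw [disjoint_left]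
          intro n hn hn2
          rw [mem_Ioc] at hn
          rw [mem_Icc] at hn2
          omega
      have h4 : ((t : ℝ) - u) = ∑ n ∈ Ioc u t, (1 : ℝ) := by
        rw [sum_const, Nat.card_Ioc, nsmul_eq_mul, mul_one, Nat.cast_sub hut]
      rw [h1]
      have h5 : v * (((((Icc 1 t).filter (fun m : ℕ => ∀ p ∈ pz z, ¬ (p : ℤ) ∣ F.eval (m : ℤ))).card : ℝ) - t * P) -
          ((((Icc 1 u).filter (fun m : ℕ => ∀ p ∈ pz z, ¬ (p : ℤ) ∣ F.eval (m : ℤ))).card : ℝ) - u * P)) =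
          v * ((((((Icc 1 t).filter (fun m : ℕ => ∀ p ∈ pz z, ¬ (p : ℤ) ∣ F.eval (m : ℤ))).card : ℝ)) -
          ((((Icc 1 u).filter (fun m : ℕ => ∀ p ∈ pz z, ¬ (p : ℤ) ∣ F.eval (m : ℤ))).card : ℝ))) -
            (t - u) * P) := by ring
      rw [h5, h2, h4, mul_sub, sum_mul, mul_sum, mul_sum, ← sum_sub_distrib, ← sum_add_distrib]
      refine sum_congr rfl fun n hn => ?_
      rw [mem_Ioc] at hn
      have h6 := hpos n (by omega) (by omega)
      rw [gI_eq z _ (by omega), hSS]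
      split_ifs <;> ring
    rw [e1]
    have b1 := hS t htx
    have b2 := hS u (hut.trans htx)
    have b3 := hcnt t htx
    have b4 := hcnt u (hut.trans htx)
    have c1 : |v * (((((Icc 1 t).filter (fun m : ℕ => ∀ p ∈ pz z, ¬ (p : ℤ) ∣ F.eval (m : ℤ))).card : ℝ) - t * P) -
          ((((Icc 1 u).filter (fun m : ℕ => ∀ p ∈ pz z, ¬ (p : ℤ) ∣ F.eval (m : ℤ))).card : ℝ) - u * P))| ≤
        L * (x / L ^ (V + 3) + x / L ^ (V + 3)) := by
      rw [abs_mul, abs_of_pos hv0]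
      apply mul_le_mul hVz _ (abs_nonneg _) hL0.le
      exact (abs_sub _ _).trans (add_le_add b3 b4)
    have c2 : |∑ n ∈ Ioc 0 t, gI z (F.eval (n : ℤ)) - ∑ n ∈ Ioc 0 u, gI z (F.eval (n : ℤ))| ≤
        x / L ^ (V + 2) + x / L ^ (V + 2) := (abs_sub _ _).trans (add_le_add b1 b2)
    refine (abs_add_le _ _).trans ((add_le_add c2 c1).trans (le_of_eq ?_))
    rw [show V + 3 = (V + 2) + 1 by ring, pow_succ L (V + 2)]
    field_simp
    ring
  -- Abel summation
  have hlog2 : 1 / 2 ≤ Real.log 2 := by have := Real.log_two_gt_d9; linarith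
  have hw : ∀ n : ℕ, n2 < n → n ≤ n3 → 0 < Real.log ((F.eval (n : ℤ) : ℤ) : ℝ) ∧
      1 / Real.log ((F.eval (n : ℤ) : ℤ) : ℝ) ≤ 2 := by
    intro n hn hn'
    have h1 : (2 : ℝ) ≤ ((F.eval (n : ℤ) : ℤ) : ℝ) := by exact_mod_cast hpos n hn hn'
    have h2 := Real.log_le_log (by norm_num) h1
    have h3 : 0 < Real.log ((F.eval (n : ℤ) : ℤ) : ℝ) := by linarith
    refine ⟨h3, ?_⟩
    rw [div_le_iff₀ h3]
    linarith
  have hw0 : ∀ n : ℕ, n2 < n → n ≤ n3 → 0 ≤ 1 / Real.log ((F.eval (n : ℤ) : ℤ) : ℝ) := by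
    intro n hn hn'
    have := (hw n hn hn').1
    positivity
  have hTpos : 0 ≤ 4 * (x : ℝ) / L ^ (V + 2) := by positivity
  have habel : |∑ n ∈ Ioc n2 n3, (thw (F.eval (n : ℤ)) - SS z F) *
      (1 / Real.log ((F.eval (n : ℤ) : ℤ) : ℝ))| ≤ 4 * (4 * x / L ^ (V + 2)) := by
    rcases hmono with hm | hm
    · refine (abel_anti (fun n => thw (F.eval (n : ℤ)) - SS z F)
        (fun n => 1 / Real.log ((F.eval (n : ℤ) : ℤ) : ℝ)) n2 n3 2 (4 * x / L ^ (V + 2)) hTpos
        (by norm_num) hw0 ?_ (fun n h1 h2 => (hw n h1 h2).2)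
        (fun t ht hty => hT n2 t le_rfl ht hty)).trans (by linarith)
      intro n hn hn'
      apply one_div_le_one_div_of_le (hw n hn (by omega)).1
      apply Real.log_le_log
      · have := hpos n hn (by omega)
        exact_mod_cast (by omega : 0 < F.eval (n : ℤ))
      · exact_mod_cast hm n (n + 1) (by omega) (by omega)
    · refine (abel_mono (fun n => thw (F.eval (n : ℤ)) - SS z F)
        (fun n => 1 / Real.log ((F.eval (n : ℤ) : ℤ) : ℝ)) n2 n3 2 (4 * x / L ^ (V + 2)) hTpos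
        (by norm_num) hn23 hw0 ?_ (fun n h1 h2 => (hw n h1 h2).2)
        (fun t ht hty => hT n2 t le_rfl ht hty)).trans (by linarith)
      intro n hn hn'
      apply one_div_le_one_div_of_le (hw (n + 1) (by omega) hn').1
      apply Real.log_le_log
      · have := hpos (n + 1) (by omega) hn'
        exact_mod_cast (by omega : 0 < F.eval ((n + 1 : ℕ) : ℤ))
      · exact_mod_cast hm n (n + 1) (by omega) (by omega)
  -- splitting
  have hpv : pv F y = ((((Icc 1 y).filter (fun k : ℕ => k ≤ n0)).filter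
      (fun k : ℕ => (F.eval (k : ℤ)).toNat.Prime)).card : ℝ) +
      ∑ n ∈ Ioc n2 n3, thw (F.eval (n : ℤ)) * (1 / Real.log ((F.eval (n : ℤ) : ℤ) : ℝ)) := by
    have e1 : ∑ n ∈ Ioc n2 n3, thw (F.eval (n : ℤ)) * (1 / Real.log ((F.eval (n : ℤ) : ℤ) : ℝ)) =
        (((Ioc n2 n3).filter (fun k : ℕ => (F.eval (k : ℤ)).toNat.Prime)).card : ℝ) := by
      rw [card_filter]
      push_cast
      refine sum_congr rfl fun n hn => ?_
      rw [mem_Ioc] at hn
      have := (hw n hn.1 hn.2).1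
      unfold thw
      split_ifs
      · field_simp
      · simp
    rw [e1]
    unfold pv
    rw [← Nat.cast_add]
    congr 1
    rw [← card_union_of_disjoint]
    · congr 1
      ext n
      simp only [mem_filter, mem_Icc, mem_union, mem_Ioc]
      constructor
      · rintro ⟨⟨h1, h2⟩, h3⟩
        by_cases h4 : n ≤ n0
        · exact Or.inl ⟨⟨⟨h1, h2⟩, h4⟩, h3⟩
        · right
          have h7 := h3.two_le
          exact ⟨(hiff n (by omega) h2).1 (by omega), h3⟩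
      · rintro (⟨⟨⟨h1, h2⟩, h4⟩, h3⟩ | ⟨⟨h1, h2⟩, h3⟩)
        · exact ⟨⟨h1, h2⟩, h3⟩
        · exact ⟨⟨by omega, hin n h1 h2⟩, h3⟩
    · rw [disjoint_left]
      intro n hn hn3
      simp only [mem_filter, mem_Icc, mem_Ioc] at hn hn3
      omega
  have hlF : lF F y = ∑ n ∈ ((Icc 1 y).filter (fun k : ℕ => k ≤ n0)).filter
      (fun k : ℕ => 2 ≤ F.eval (k : ℤ)), 1 / Real.log ((F.eval (n : ℤ) : ℤ) : ℝ) +
      ∑ n ∈ Ioc n2 n3, 1 / Real.log ((F.eval (n : ℤ) : ℤ) : ℝ) := by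
    unfold lF
    rw [← sum_union]
    · apply sum_congr _ fun _ _ => rfl
      ext n
      simp only [mem_filter, mem_Icc, mem_union, mem_Ioc]
      constructor
      · rintro ⟨⟨h1, h2⟩, h3⟩
        by_cases h4 : n ≤ n0
        · exact Or.inl ⟨⟨⟨h1, h2⟩, h4⟩, h3⟩
        · right
          exact (hiff n (by omega) h2).1 h3
      · rintro (⟨⟨⟨h1, h2⟩, h4⟩, h3⟩ | ⟨h1, h2⟩)
        · exact ⟨⟨h1, h2⟩, h3⟩
        · exact ⟨⟨by omega, hin n h1 h2⟩, hpos n h1 h2⟩
    · rw [disjoint_left]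
      intro n hn hn3
      simp only [mem_filter, mem_Icc, mem_Ioc] at hn hn3
      omega
  have hcard0 : (((Icc 1 y).filter (fun k : ℕ => k ≤ n0)).card : ℝ) ≤ n0 := by
    have h1 : (Icc 1 y).filter (fun k : ℕ => k ≤ n0) ⊆ Icc 1 n0 := by
      intro k hk
      rw [mem_filter, mem_Icc] at hk
      rw [mem_Icc]
      exact ⟨hk.1.1, hk.2⟩
    have h2 := card_le_card h1
    rw [Nat.card_Icc, Nat.add_sub_cancel] at h2
    exact_mod_cast h2
  have hA1 : ((((Icc 1 y).filter (fun k : ℕ => k ≤ n0)).filter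
      (fun k : ℕ => (F.eval (k : ℤ)).toNat.Prime)).card : ℝ) ≤ n0 := by
    refine le_trans ?_ hcard0
    exact_mod_cast card_filter_le _ _
  have hA2 : 0 ≤ ∑ n ∈ ((Icc 1 y).filter (fun k : ℕ => k ≤ n0)).filter
      (fun k : ℕ => 2 ≤ F.eval (k : ℤ)), 1 / Real.log ((F.eval (n : ℤ) : ℤ) : ℝ) ∧
      ∑ n ∈ ((Icc 1 y).filter (fun k : ℕ => k ≤ n0)).filter
      (fun k : ℕ => 2 ≤ F.eval (k : ℤ)), 1 / Real.log ((F.eval (n : ℤ) : ℤ) : ℝ) ≤ 2 * n0 := by
    have hterm : ∀ n ∈ ((Icc 1 y).filter (fun k : ℕ => k ≤ n0)).filter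
        (fun k : ℕ => 2 ≤ F.eval (k : ℤ)), 0 ≤ 1 / Real.log ((F.eval (n : ℤ) : ℤ) : ℝ) ∧
        1 / Real.log ((F.eval (n : ℤ) : ℤ) : ℝ) ≤ 2 := by
      intro n hn
      rw [mem_filter] at hn
      have h1 : (2 : ℝ) ≤ ((F.eval (n : ℤ) : ℤ) : ℝ) := by exact_mod_cast hn.2
      have h2 := Real.log_le_log (by norm_num) h1
      have h3 : 0 < Real.log ((F.eval (n : ℤ) : ℤ) : ℝ) := by linarith
      refine ⟨by positivity, ?_⟩
      rw [div_le_iff₀ h3]
      linarith
    refine ⟨sum_nonneg fun n hn => (hterm n hn).1, ?_⟩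
    refine (sum_le_sum fun n hn => (hterm n hn).2).trans ?_
    rw [sum_const, nsmul_eq_mul]
    have h1 : ((((Icc 1 y).filter (fun k : ℕ => k ≤ n0)).filter (fun k : ℕ => 2 ≤ F.eval (k : ℤ))).card : ℝ) ≤ n0 := by
      refine le_trans ?_ hcard0
      exact_mod_cast card_filter_le _ _
    linarith
  set A1 := ((((Icc 1 y).filter (fun k : ℕ => k ≤ n0)).filter
      (fun k : ℕ => (F.eval (k : ℤ)).toNat.Prime)).card : ℝ) with hA1d
  set A2 := ∑ n ∈ ((Icc 1 y).filter (fun k : ℕ => k ≤ n0)).filter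
      (fun k : ℕ => 2 ≤ F.eval (k : ℤ)), 1 / Real.log ((F.eval (n : ℤ) : ℤ) : ℝ) with hA2d
  have hA10 : 0 ≤ A1 := Nat.cast_nonneg _
  rw [hpv, hlF]
  have e1 : A1 + ∑ n ∈ Ioc n2 n3, thw (F.eval (n : ℤ)) * (1 / Real.log ((F.eval (n : ℤ) : ℤ) : ℝ)) -
      SS z F * (A2 + ∑ n ∈ Ioc n2 n3, 1 / Real.log ((F.eval (n : ℤ) : ℤ) : ℝ)) =
      (A1 - SS z F * A2) + ∑ n ∈ Ioc n2 n3, (thw (F.eval (n : ℤ)) - SS z F) *
        (1 / Real.log ((F.eval (n : ℤ) : ℤ) : ℝ)) := by
    have : ∑ n ∈ Ioc n2 n3, (thw (F.eval (n : ℤ)) - SS z F) *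
        (1 / Real.log ((F.eval (n : ℤ) : ℤ) : ℝ)) =
        ∑ n ∈ Ioc n2 n3, thw (F.eval (n : ℤ)) * (1 / Real.log ((F.eval (n : ℤ) : ℤ) : ℝ)) -
        SS z F * ∑ n ∈ Ioc n2 n3, 1 / Real.log ((F.eval (n : ℤ) : ℤ) : ℝ) := by
      rw [mul_sum, ← sum_sub_distrib]
      refine sum_congr rfl fun n _ => ?_
      ring
    rw [this]
    ring
  rw [e1]
  have e2 : |A1 - SS z F * A2| ≤ L * (2 * n0) + n0 := by
    have h1 : SS z F * A2 ≤ L * (2 * n0) := mul_le_mul hSSL hA2.2 hA2.1 hL0.le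
    have h2 : 0 ≤ SS z F * A2 := mul_nonneg hSS0 hA2.1
    have h3 : 0 ≤ L * (2 * (n0 : ℝ)) := by positivity
    have h4 : (0 : ℝ) ≤ n0 := Nat.cast_nonneg _
    rw [abs_le]
    constructor <;> linarith
  have e3 : L * (2 * (n0 : ℝ)) + n0 ≤ 3 * x / L ^ (V + 2) := by
    calc L * (2 * (n0 : ℝ)) + n0 ≤ 3 * L * n0 := by
          have h4 : (0 : ℝ) ≤ n0 := Nat.cast_nonneg _
          nlinarith
      _ ≤ 3 * L * (x / L ^ (V + 3)) := by gcongr
      _ = 3 * x / L ^ (V + 2) := by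
          rw [show V + 3 = (V + 2) + 1 by ring, pow_succ L (V + 2)]
          field_simp
  calc _ ≤ |A1 - SS z F * A2| + |∑ n ∈ Ioc n2 n3, (thw (F.eval (n : ℤ)) - SS z F) *
        (1 / Real.log ((F.eval (n : ℤ) : ℤ) : ℝ))| := abs_add_le _ _
    _ ≤ 3 * x / L ^ (V + 2) + 4 * (4 * x / L ^ (V + 2)) := add_le_add (e2.trans e3) habel
    _ = 19 * x / L ^ (V + 2) := by ring
    _ ≤ x / L ^ V := by
        rw [div_le_div_iff₀ (by positivity) (by positivity), pow_add]
        calc 19 * (x : ℝ) * L ^ V = x * (L ^ V * 19) := by ring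
          _ ≤ x * (L ^ V * L ^ 2) := by
              gcongr
              nlinarith

end Pool.Agent.W81.RD
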