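import Pool.Agent.W81.RD.MeanG
import Pool.Agent.W81.RD.ModelG

/-!
The prime values of polynomials of arbitrary degree for almost all constant terms in short
intervals.
-/

set_option autoImplicit false

namespace Pool.Agent.W81.RD

open Finset Filter Polynomial
open Pool.Agent.H442R2.EHI (evt_log_pow evt_log_ge)
open Pool.Agent.H300R2.BH (rho SS pv lF SS_lower)
open Pool.Agent.W81.R1

lemma evt_loglog (E m : ℕ) (c : ℝ) (hc : 0 < c) :
    ∀ᶠ x : ℕ in atTop, (E * Real.log (Real.log x)) ^ m ≤ c * Real.log x := by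
  have h1 : (fun t : ℝ => Real.log t ^ m) =o[atTop] (fun t : ℝ => t) := Real.isLittleO_pow_log_id_atTop
  have h2 := h1.bound (show (0 : ℝ) < c / ((E : ℝ) ^ m + 1) by positivity)
  have h3 : ∀ᶠ t : ℝ in atTop, (E * Real.log t) ^ m ≤ c * t := by
    filter_upwards [h2, eventually_ge_atTop 1] with t ht ht1
    have hl : 0 ≤ Real.log t := Real.log_nonneg ht1
    rw [Real.norm_of_nonneg (by positivity), Real.norm_of_nonneg (by linarith)] at ht
    rw [mul_pow]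
    have hE : (0 : ℝ) ≤ (E : ℝ) ^ m := by positivity
    calc (E : ℝ) ^ m * Real.log t ^ m ≤ ((E : ℝ) ^ m + 1) * (c / ((E : ℝ) ^ m + 1) * t) := by
          apply mul_le_mul (by linarith) ht (by positivity) (by linarith)
      _ = c * t := by field_simp
  exact (Real.tendsto_log_atTop.comp tendsto_natCast_atTop_atTop).eventually h3

/-- the conclusion for one polynomial -/
def GoodG (F : ℤ[X]) (z x U : ℕ) : Prop :=
  1 / Real.log x ≤ SS z F ∧ ∀ y ≤ x, |pv F y - SS z F * lF F y| ≤ SS z F * (x / Real.log x ^ U)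

/-- the polynomial with sign and constant term -/
lemma eval_F (σ c : ℤ) (f : ℤ[X]) (n : ℤ) : (C σ * f + C c).eval n = σ * f.eval n + c := by
  simp

lemma deg_F (σ c : ℤ) (f : ℤ[X]) (d : ℕ) (hf : f.natDegree ≤ d) : (C σ * f + C c).natDegree ≤ d := by
  refine (natDegree_add_le _ _).trans (max_le ?_ (by simp))
  exact (natDegree_C_mul_le _ _).trans hf

/-- one block -/
theorem blkG (j : ℕ) (hj : 1 ≤ j) (σ : ℤ) (hσ : σ = 1 ∨ σ = -1) (C1 U : ℕ) : ∃ E' : ℕ, ∀ E : ℕ,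
    E' ≤ E → ∃ B : ℕ, ∀ᶠ x : ℕ in atTop, ∀ (f : ℤ[X]) (α : ℕ) (c0 : ℤ) (A z : ℕ),
    Real.log x ^ E' ≤ z → (z : ℝ) ≤ Real.log x ^ E →
    f.natDegree ≤ j + 1 → f.coeff (j + 1) = α → f.coeff 0 = 0 → 1 ≤ α → (α : ℝ) ≤ Real.log x ^ C1 →
    (∀ i, 1 ≤ i → i ≤ j → |((f.coeff i : ℤ) : ℝ)| ≤ (x : ℝ) ^ (j + 1 - i) / Real.log x ^ B) →
    (|c0| : ℝ) ≤ (x : ℝ) ^ (j + 1) * Real.log x ^ (C1 + 1) → (x : ℝ) ^ j * Real.log x ^ B ≤ A →
    (A : ℝ) ≤ (x : ℝ) ^ j * (x : ℝ) ^ (1 / 4 : ℝ) →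
    ∃ Bad : Finset ℤ, (Bad.card : ℝ) ≤ A / Real.log x ^ U ∧ ∀ c ∈ Ioc c0 (c0 + A), c ∉ Bad →
      (∀ p : ℕ, p.Prime → p ≤ z → rho (C σ * f + C c) p ≠ p) →
      GoodG (C σ * f + C c) z x U := by
  obtain ⟨Bz, B1, hall⟩ := all_yG j hj σ hσ C1 (C1 + 3) U (U + 3)
  obtain ⟨κ, hκ, hSSl⟩ := SS_lower (j + 1) (by omega)
  refine ⟨Bz + 1, fun E hE => ?_⟩
  set B := max B1 ((U + 5) * (j + 1) + 1) with hB
  have hBB1 : B1 ≤ B := le_max_left _ _
  have hBU : (U + 5) * (j + 1) + 1 ≤ B := le_max_right _ _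
  clear_value B
  refine ⟨B, ?_⟩
  filter_upwards [hall E, pv_closeG (j + 1) E (U + 1) (by omega), evt_loglog E (2 * (j + 1)) κ hκ,
    evt_log_ge (2 * (j + 2) ^ Bz), evt_log_ge 100, evt_log_ge (4 * (j + 1) ^ 3),
    evt_log_pow (U + 5) 1 (by norm_num), eventually_ge_atTop 4]
    with x hally hpvc hll hLB hL100 hLj hLp hx4 f α c0 A z hzlo0 hzle hfd hfα hf0 hα hαC hco hc0 hA hA54
  rw [Real.rpow_one] at hLp
  set L := Real.log x with hL
  have hL0 : 0 < L := by linarith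
  have hL1 : 1 ≤ L := by linarith
  have hp : ∀ n : ℕ, 0 < L ^ n := fun n => by positivity
  have hp1 : ∀ n : ℕ, 1 ≤ L ^ n := fun n => one_le_pow₀ hL1
  have hxr : (4 : ℝ) ≤ x := by exact_mod_cast hx4
  have hx0 : (0 : ℝ) < x := by linarith
  have hj0 : (0 : ℝ) ≤ j := Nat.cast_nonneg _
  have hjL : (j : ℝ) ≤ L := by
    refine le_trans ?_ hLj
    have h1 : (1 : ℝ) ≤ ((j : ℝ) + 1) ^ 2 := one_le_pow₀ (by linarith)
    have h2 : ((j : ℝ) + 1) ^ 3 = ((j : ℝ) + 1) * ((j : ℝ) + 1) ^ 2 := by ring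
    nlinarith
  -- the values
  have hXX : (0 : ℝ) < (x : ℝ) ^ (j + 1) := by positivity
  have hfv : ∀ n ∈ Ioc 0 x, |((f.eval (n : ℤ) : ℤ) : ℝ)| ≤ (x : ℝ) ^ (j + 1) * (2 * L ^ (C1 + 1)) := by
    intro n hn
    rw [mem_Ioc] at hn
    have hnx : (n : ℝ) ≤ x := by exact_mod_cast hn.2
    have hn0 : (0 : ℝ) ≤ n := Nat.cast_nonneg _
    rw [eval_real f j hfd n, hfα]
    refine (abs_add_le _ _).trans ?_
    have h1 : |∑ i ∈ range (j + 1), ((f.coeff i : ℤ) : ℝ) * (n : ℝ) ^ i| ≤ (j + 1) * (x : ℝ) ^ (j + 1) := by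
      refine (abs_sum_le_sum_abs _ _).trans ?_
      calc ∑ i ∈ range (j + 1), |((f.coeff i : ℤ) : ℝ) * (n : ℝ) ^ i| ≤
            ∑ i ∈ range (j + 1), (x : ℝ) ^ (j + 1) := by
            refine sum_le_sum fun i hi => ?_
            rw [mem_range] at hi
            rcases Nat.eq_zero_or_pos i with h0 | h0
            · rw [h0, hf0]
              simp
            · have h2 := hco i h0 (by omega)
              rw [abs_mul, abs_of_nonneg (by positivity : (0 : ℝ) ≤ (n : ℝ) ^ i)]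
              calc |((f.coeff i : ℤ) : ℝ)| * (n : ℝ) ^ i ≤
                    ((x : ℝ) ^ (j + 1 - i) / L ^ B) * (x : ℝ) ^ i := by gcongr
                _ ≤ ((x : ℝ) ^ (j + 1 - i) / 1) * (x : ℝ) ^ i := by gcongr; exact hp1 B
                _ = (x : ℝ) ^ (j + 1) := by
                    rw [div_one, ← pow_add]
                    congr 1
                    omega
        _ = (j + 1) * (x : ℝ) ^ (j + 1) := by
            rw [sum_const, card_range, nsmul_eq_mul]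
            push_cast
            ring
    have h2 : |((α : ℤ) : ℝ) * (n : ℝ) ^ (j + 1)| ≤ L ^ C1 * (x : ℝ) ^ (j + 1) := by
      rw [Int.cast_natCast, abs_of_nonneg (by positivity)]
      gcongr
    calc _ ≤ (j + 1) * (x : ℝ) ^ (j + 1) + L ^ C1 * (x : ℝ) ^ (j + 1) := add_le_add h1 h2
      _ = (x : ℝ) ^ (j + 1) * ((j + 1) + L ^ C1) := by ring
      _ ≤ (x : ℝ) ^ (j + 1) * (2 * L ^ (C1 + 1)) := by
          apply mul_le_mul_of_nonneg_left _ hXX.le
          have h3 := hp1 C1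
          have h4 : L ^ (C1 + 1) = L ^ C1 * L := pow_succ _ _
          have h5 : (j : ℝ) + 1 ≤ L := by
            refine le_trans ?_ hLj
            have h1 : (1 : ℝ) ≤ ((j : ℝ) + 1) ^ 2 := one_le_pow₀ (by linarith)
            have h2 : ((j : ℝ) + 1) ^ 3 = ((j : ℝ) + 1) * ((j : ℝ) + 1) ^ 2 := by ring
            nlinarith
          rw [h4]
          nlinarith
  have hAx : (A : ℝ) ≤ (x : ℝ) ^ (j + 1) := by
    refine hA54.trans ?_
    rw [pow_succ]
    gcongr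
    calc (x : ℝ) ^ (1 / 4 : ℝ) ≤ (x : ℝ) ^ (1 : ℝ) := Real.rpow_le_rpow_of_exponent_le (by linarith) (by norm_num)
      _ = x := Real.rpow_one _
  set N := ⌊(x : ℝ) ^ (j + 1) * L ^ (C1 + 3)⌋₊ with hN
  have hNle : (N : ℝ) ≤ (x : ℝ) ^ (j + 1) * L ^ (C1 + 3) := Nat.floor_le (by positivity)
  have hXx : (x : ℝ) ≤ (x : ℝ) ^ (j + 1) := le_self_pow₀ (by linarith) (by omega)
  have hNge : (x : ℝ) ^ (j + 1) * (4 * L ^ (C1 + 1)) ≤ N := by
    have h1 : (x : ℝ) ^ (j + 1) * L ^ (C1 + 3) < N + 1 := Nat.lt_floor_add_one _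
    have h2 : (x : ℝ) ^ (j + 1) * L ^ (C1 + 3) = (x : ℝ) ^ (j + 1) * L ^ (C1 + 1) * L ^ 2 := by ring
    have h3 : 5 ≤ L ^ 2 := by nlinarith
    have h4 : 1 ≤ (x : ℝ) ^ (j + 1) * L ^ (C1 + 1) := by
      have h5 := hp1 (C1 + 1)
      nlinarith
    have h5 : (x : ℝ) ^ (j + 1) * L ^ (C1 + 1) * 5 ≤ (x : ℝ) ^ (j + 1) * L ^ (C1 + 1) * L ^ 2 := by gcongr
    linarith
  have hxN : x ≤ N := by
    have : (x : ℝ) ≤ N := by
      refine le_trans ?_ hNge
      have h5 := hp1 (C1 + 1)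
      calc (x : ℝ) ≤ (x : ℝ) ^ (j + 1) * 1 := by rw [mul_one]; exact hXx
        _ ≤ (x : ℝ) ^ (j + 1) * (4 * L ^ (C1 + 1)) := by gcongr; linarith
    exact_mod_cast this
  have hval : ∀ c ∈ Ioc c0 (c0 + A), ∀ n ∈ Ioc 0 x, |σ * f.eval (n : ℤ) + c| ≤ N := by
    intro c hcm n hn
    have h2 := hfv n hn
    have h3 : |((σ * f.eval (n : ℤ) + c : ℤ) : ℝ)| ≤ N := by
      push_cast
      have h4 : |(σ : ℝ) * ((f.eval (n : ℤ) : ℤ) : ℝ)| = |((f.eval (n : ℤ) : ℤ) : ℝ)| := by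
        rw [abs_mul]
        rcases hσ with rfl | rfl <;> simp
      have h5 : |(c : ℝ)| ≤ |(c0 : ℝ)| + A := by
        rw [mem_Ioc] at hcm
        have h6 : |c| ≤ |c0| + A := by
          have := abs_le.1 (le_refl |c0|)
          rw [abs_le]
          constructor <;> linarith
        exact_mod_cast h6
      refine (abs_add_le _ _).trans ?_
      rw [h4]
      have h7 : (x : ℝ) ^ (j + 1) * 1 ≤ (x : ℝ) ^ (j + 1) * L ^ (C1 + 1) := by gcongr; exact hp1 _
      linarith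
    exact_mod_cast h3
  -- z
  have hzlo : ((j + 2) * L) ^ Bz ≤ z := by
    have h3 : 2 * ((j + 2) * L) ^ Bz ≤ L ^ (Bz + 1) := by
      calc 2 * ((j + 2) * L) ^ Bz = (2 * (j + 2) ^ Bz) * L ^ Bz := by rw [mul_pow]; ring
        _ ≤ L * L ^ Bz := by gcongr
        _ = _ := by ring
    have h4 : 1 ≤ ((j + 2) * L) ^ Bz := one_le_pow₀ (by nlinarith)
    linarith
  have hz3 : 3 ≤ z := by
    have h3 : (3 : ℝ) ≤ z := by
      refine le_trans ?_ hzlo0
      calc (3 : ℝ) ≤ L ^ 1 := by rw [pow_one]; linarith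
        _ ≤ L ^ (Bz + 1) := pow_le_pow_right₀ hL1 (by omega)
    exact_mod_cast h3
  have hz1 : 1 ≤ z := by omega
  obtain ⟨Bad1, hBad1, hgood⟩ := hally f α A N z (c0 + 1) hfd hfα hα hαC (by
      intro i hi1 hij
      refine (hco i hi1 hij).trans ?_
      exact div_le_div_of_nonneg_left (by positivity) (hp _) (pow_le_pow_right₀ hL1 hBB1)) (by
      refine le_trans ?_ hA
      exact mul_le_mul_of_nonneg_left (pow_le_pow_right₀ hL1 hBB1) (by positivity)) hA54 hxN hNle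
    (fun n hn k hk => hval _ (by rw [mem_Ioc]; constructor <;> push_cast <;> omega) n hn) hzlo hzle
  refine ⟨Bad1.image (fun k : ℕ => c0 + 1 + (k : ℤ)), ?_, ?_⟩
  · refine le_trans ?_ hBad1
    exact_mod_cast card_image_le
  · intro c hcm hcB hfix
    rw [mem_Ioc] at hcm
    set F := C σ * f + C c with hF
    obtain ⟨k, hk⟩ : ∃ k : ℕ, c = c0 + 1 + (k : ℤ) := ⟨(c - c0 - 1).toNat, by omega⟩
    have hkA : k < A := by omega
    have hkB : k ∉ Bad1 := by
      intro hcon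
      apply hcB
      rw [mem_image]
      exact ⟨k, hcon, hk.symm⟩
    have hsum : ∀ y ≤ x, |∑ n ∈ Ioc 0 y, gI z (F.eval (n : ℤ))| ≤ x / L ^ (U + 1 + 2) := by
      intro y hy
      have h1 := hgood k hkA hkB y hy
      refine le_trans (le_of_eq ?_) h1
      congr 1
      refine sum_congr rfl fun n _ => ?_
      rw [hF, eval_F, hk]
    -- monotonicity
    set n0 := ⌊(x : ℝ) / L ^ (U + 4)⌋₊ with hn0
    have hfl : (x : ℝ) / L ^ (U + 4) < n0 + 1 := Nat.lt_floor_add_one _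
    have h100 : 100 ≤ (x : ℝ) / L ^ (U + 4) := by
      rw [le_div_iff₀ (hp _)]
      calc 100 * L ^ (U + 4) ≤ L * L ^ (U + 4) := by gcongr
        _ = L ^ (U + 5) := by ring
        _ ≤ x := hLp
    have hn0lo : (x : ℝ) ≤ L ^ (U + 5) * n0 := by
      have h1 : (x : ℝ) / L ^ (U + 4) ≤ 2 * n0 := by linarith
      rw [div_le_iff₀ (hp _)] at h1
      calc (x : ℝ) ≤ 2 * n0 * L ^ (U + 4) := h1
        _ ≤ L * n0 * L ^ (U + 4) := by gcongr; linarith
        _ = _ := by ring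
    have hn0hi : (n0 : ℝ) ≤ x / L ^ (U + 1 + 3) := by
      rw [show U + 1 + 3 = U + 4 by ring]
      exact Nat.floor_le (by positivity)
    have hn01 : 1 ≤ n0 := by
      have : (1 : ℝ) ≤ n0 := by linarith
      exact_mod_cast this
    have hn0x : n0 ≤ x := by
      have : (n0 : ℝ) ≤ x := by
        refine hn0hi.trans ?_
        rw [div_le_iff₀ (hp _)]
        nlinarith [hp1 (U + 1 + 3)]
      exact_mod_cast this
    have hslo := slo_poly j hj f α n0 x hfd hfα hα hn01 hn0x (by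
      intro i hi1 hij
      have h1 := hco i hi1 hij
      have h2 : (x : ℝ) ^ (j + 1 - i) ≤ L ^ ((U + 5) * (j + 1)) * (n0 : ℝ) ^ (j + 1 - i) := by
        calc (x : ℝ) ^ (j + 1 - i) ≤ (L ^ (U + 5) * n0) ^ (j + 1 - i) :=
              pow_le_pow_left₀ hx0.le hn0lo _
          _ = L ^ ((U + 5) * (j + 1 - i)) * (n0 : ℝ) ^ (j + 1 - i) := by rw [mul_pow, ← pow_mul]
          _ ≤ L ^ ((U + 5) * (j + 1)) * (n0 : ℝ) ^ (j + 1 - i) := by
              apply mul_le_mul_of_nonneg_right _ (by positivity)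
              apply pow_le_pow_right₀ hL1
              exact Nat.mul_le_mul_left _ (by omega)
      calc |((f.coeff i : ℤ) : ℝ)| * (4 * ((j : ℝ) + 1) ^ 3)
          ≤ ((x : ℝ) ^ (j + 1 - i) / L ^ B) * L := by gcongr
        _ ≤ ((x : ℝ) ^ (j + 1 - i) / L ^ ((U + 5) * (j + 1) + 1)) * L := by
            gcongr
        _ = (x : ℝ) ^ (j + 1 - i) / L ^ ((U + 5) * (j + 1)) := by
            rw [pow_succ L ((U + 5) * (j + 1))]
            field_simp
        _ ≤ (n0 : ℝ) ^ (j + 1 - i) := by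
            rw [div_le_iff₀ (hp _)]
            linarith)
    have hfm : ∀ n m : ℕ, n0 < n → n ≤ m → f.eval (n : ℤ) ≤ f.eval (m : ℤ) := by
      intro n m hn hnm
      obtain ⟨l, rfl⟩ := Nat.exists_eq_add_of_le hnm
      have h1 := hslo.low n l hn
      have h2 : (0 : ℤ) ≤ (l : ℤ) * ((n0 ^ j / 2 : ℕ) : ℤ) :=
        mul_nonneg (Int.natCast_nonneg _) (Int.natCast_nonneg _)
      linarith
    have hmono : (∀ n m : ℕ, n0 < n → n ≤ m → F.eval (n : ℤ) ≤ F.eval (m : ℤ)) ∨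
        (∀ n m : ℕ, n0 < n → n ≤ m → F.eval (m : ℤ) ≤ F.eval (n : ℤ)) := by
      rcases hσ with h | h
      · left
        intro n m hn hnm
        rw [hF, eval_F, eval_F, h]
        have := hfm n m hn hnm
        linarith
      · right
        intro n m hn hnm
        rw [hF, eval_F, eval_F, h]
        have := hfm n m hn hnm
        linarith
    have hFd : F.natDegree ≤ j + 1 := deg_F σ c f _ hfd
    -- lower bound of the singular series
    have h1 := hSSl z hz3 F hFd hfix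
    have hz0 : (3 : ℝ) ≤ z := by exact_mod_cast hz3
    have hlz0 : 0 < Real.log z := Real.log_pos (by linarith)
    have hlz : Real.log z ≤ E * Real.log L := by
      have := Real.log_le_log (by linarith) hzle
      rwa [Real.log_pow] at this
    have h2 : Real.log z ^ (2 * (j + 1)) ≤ κ * L :=
      (pow_le_pow_left₀ hlz0.le hlz _).trans hll
    have h3 : 1 / L ≤ SS z F := by
      refine le_trans ?_ h1
      rw [div_le_div_iff₀ hL0 (by positivity), one_mul]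
      exact h2
    refine ⟨h3, fun y hy => ?_⟩
    have key := hpvc F z n0 hFd hz1 hzle hfix hn0hi hmono hsum y hy
    refine key.trans ?_
    calc (x : ℝ) / L ^ (U + 1) = 1 / L * (x / L ^ U) := by
          rw [pow_succ L U]
          field_simp
      _ ≤ SS z F * (x / L ^ U) := by gcongr

/-- **almost all constant terms in a short interval** -/
theorem finG (j : ℕ) (hj : 1 ≤ j) (σ : ℤ) (hσ : σ = 1 ∨ σ = -1) (C1 U : ℕ) : ∃ E' : ℕ, ∀ E : ℕ,
    E' ≤ E → ∃ B : ℕ, ∀ᶠ x : ℕ in atTop, ∀ (f : ℤ[X]) (α : ℕ) (c0 : ℤ) (A z : ℕ),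
    Real.log x ^ E' ≤ z → (z : ℝ) ≤ Real.log x ^ E →
    f.natDegree ≤ j + 1 → f.coeff (j + 1) = α → f.coeff 0 = 0 → 1 ≤ α → (α : ℝ) ≤ Real.log x ^ C1 →
    (∀ i, 1 ≤ i → i ≤ j → |((f.coeff i : ℤ) : ℝ)| ≤ (x : ℝ) ^ (j + 1 - i) / Real.log x ^ B) →
    (|c0| : ℝ) ≤ (x : ℝ) ^ (j + 1) * Real.log x ^ C1 → (x : ℝ) ^ j * Real.log x ^ B ≤ A →
    (A : ℝ) ≤ (x : ℝ) ^ (j + 1) * Real.log x ^ C1 →
    ∃ Bad : Finset ℤ, (Bad.card : ℝ) ≤ A / Real.log x ^ U ∧ ∀ c ∈ Ioc c0 (c0 + A), c ∉ Bad →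
      (∀ p : ℕ, p.Prime → p ≤ z → rho (C σ * f + C c) p ≠ p) →
      GoodG (C σ * f + C c) z x (U + 1) := by
  obtain ⟨E', hE'⟩ := blkG j hj σ hσ C1 (U + 1)
  refine ⟨E', fun E hE => ?_⟩
  obtain ⟨B, hB⟩ := hE' E hE
  refine ⟨B, ?_⟩
  filter_upwards [hB, evt_log_ge 4, evt_log_pow (B + 1) (1 / 4) (by norm_num), eventually_ge_atTop 4]
    with x hblk hL4 hLp hx4 f α c0 A z hzlo hzle hfd hfα hf0 hα hαC hco hc0 hA hA2
  set L := Real.log x with hL
  have hL0 : 0 < L := by linarith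
  have hL1 : 1 ≤ L := by linarith
  have hp : ∀ n : ℕ, 0 < L ^ n := fun n => by positivity
  have hp1 : ∀ n : ℕ, 1 ≤ L ^ n := fun n => one_le_pow₀ hL1
  have hxr : (4 : ℝ) ≤ x := by exact_mod_cast hx4
  have hx0 : (0 : ℝ) < x := by linarith
  have hxj : (1 : ℝ) ≤ (x : ℝ) ^ j := one_le_pow₀ (by linarith)
  set A1 := ⌈(x : ℝ) ^ j * L ^ B⌉₊ with hA1
  have hA1ge : (x : ℝ) ^ j * L ^ B ≤ A1 := Nat.le_ceil _
  have hA1A : A1 ≤ A := Nat.ceil_le.2 hA
  have hA1pos : 0 < A1 := Nat.ceil_pos.2 (by positivity)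
  have hA1r : (0 : ℝ) < A1 := by exact_mod_cast hA1pos
  have hA154 : (A1 : ℝ) ≤ (x : ℝ) ^ j * (x : ℝ) ^ (1 / 4 : ℝ) := by
    have h1 : (A1 : ℝ) < (x : ℝ) ^ j * L ^ B + 1 := Nat.ceil_lt_add_one (by positivity)
    have h2 : 1 ≤ (x : ℝ) ^ j * L ^ B := by nlinarith [hp1 B]
    calc (A1 : ℝ) ≤ 2 * ((x : ℝ) ^ j * L ^ B) := by linarith
      _ ≤ L * ((x : ℝ) ^ j * L ^ B) := by gcongr; linarith
      _ = (x : ℝ) ^ j * L ^ (B + 1) := by ring
      _ ≤ (x : ℝ) ^ j * (x : ℝ) ^ (1 / 4 : ℝ) := by gcongr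
  set J := A / A1 + 1 with hJ
  have hJA : A < A1 * J := Nat.lt_mul_div_succ A hA1pos
  have hJA2 : A1 * (A / A1) ≤ A := Nat.mul_div_le A A1
  have hblock : ∀ i : ℕ, ∃ Bad : Finset ℤ, (Bad.card : ℝ) ≤ A1 / L ^ (U + 1) ∧ (i < J →
      ∀ c ∈ Ioc (c0 + (A1 * i : ℕ)) (c0 + (A1 * i : ℕ) + A1), c ∉ Bad →
      (∀ p : ℕ, p.Prime → p ≤ z → rho (C σ * f + C c) p ≠ p) →
      GoodG (C σ * f + C c) z x (U + 1)) := by
    intro i
    by_cases hi : i < J
    · have hj1 : A1 * i ≤ A := le_trans (Nat.mul_le_mul_left _ (by omega)) hJA2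
      have hj2 : ((A1 * i : ℕ) : ℝ) ≤ A := by exact_mod_cast hj1
      obtain ⟨Bad, h1, h2⟩ := hblk f α (c0 + (A1 * i : ℕ)) A1 z hzlo hzle hfd hfα hf0 hα hαC hco (by
        push_cast at hj2 ⊢
        have h3 : |(c0 : ℝ) + A1 * i| ≤ |(c0 : ℝ)| + A := by
          refine (abs_add_le _ _).trans ?_
          rw [abs_of_nonneg (by positivity : (0 : ℝ) ≤ A1 * i)]
          linarith
        calc |(c0 : ℝ) + A1 * i| ≤ |(c0 : ℝ)| + A := h3
          _ ≤ 2 * ((x : ℝ) ^ (j + 1) * L ^ C1) := by linarith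
          _ ≤ L * ((x : ℝ) ^ (j + 1) * L ^ C1) := by gcongr; linarith
          _ = (x : ℝ) ^ (j + 1) * L ^ (C1 + 1) := by ring) hA1ge hA154
      exact ⟨Bad, h1, fun _ => h2⟩
    · exact ⟨∅, by rw [card_empty]; push_cast; positivity, fun h => absurd h hi⟩
  choose Bad hBad hgood using hblock
  refine ⟨(range J).biUnion Bad, ?_, ?_⟩
  · calc (((range J).biUnion Bad).card : ℝ) ≤ ∑ i ∈ range J, ((Bad i).card : ℝ) := by
          exact_mod_cast card_biUnion_le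
      _ ≤ ∑ i ∈ range J, (A1 : ℝ) / L ^ (U + 1) := sum_le_sum fun i _ => hBad i
      _ = (J * A1 : ℝ) / L ^ (U + 1) := by rw [sum_const, card_range, nsmul_eq_mul, mul_div_assoc]
      _ ≤ (2 * A) / L ^ (U + 1) := by
          have h1 : (J : ℝ) * A1 ≤ 2 * A := by
            have h2 : J * A1 ≤ 2 * A := by
              rw [hJ, add_mul, one_mul, mul_comm (A / A1) A1]
              omega
            exact_mod_cast h2
          gcongr
      _ ≤ A / L ^ U := by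
          rw [div_le_div_iff₀ (by positivity) (by positivity), pow_succ]
          have : 0 ≤ (A : ℝ) * L ^ U := by positivity
          nlinarith
  · intro c hc hcB hfix
    rw [mem_Ioc] at hc
    set k := (c - c0 - 1).toNat with hk
    have hkc : c0 + 1 + (k : ℤ) = c := by omega
    have hkA : k < A := by omega
    set i := k / A1 with hi
    have h1 : A1 * i ≤ k := Nat.mul_div_le k A1
    have h2 : k < A1 * (i + 1) := Nat.lt_mul_div_succ k hA1pos
    have hiJ : i < J := by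
      have h3 : A1 * i < A1 * J := by omega
      exact Nat.lt_of_mul_lt_mul_left h3
    apply hgood i hiJ c _ _ hfix
    · rw [mem_Ioc]
      rw [Nat.mul_succ] at h2
      constructor <;> omega
    · intro hcon
      apply hcB
      rw [mem_biUnion]
      exact ⟨i, mem_range.2 hiJ, hcon⟩

end Pool.Agent.W81.RD
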