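import Pool.Agent.W81.RD.CoreG

/-!
Polynomials with small lower coefficients satisfy the slope and convexity hypotheses.
-/

set_option autoImplicit false

namespace Pool.Agent.W81.RD

open Finset Polynomial

lemma pow_sub_le (n l i : ℕ) : (((n + l) ^ i : ℕ) : ℝ) - ((n ^ i : ℕ) : ℝ) ≤ l * (i * ((n : ℝ) + l) ^ (i - 1)) := by
  induction i with
  | zero => simp
  | succ i ih =>
    push_cast at ih ⊢
    have hn : (0 : ℝ) ≤ n := Nat.cast_nonneg _
    have hl : (0 : ℝ) ≤ l := Nat.cast_nonneg _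
    have h1 : ((n : ℝ) + l) ^ (i + 1) - (n : ℝ) ^ (i + 1) =
        ((n : ℝ) + l) * (((n : ℝ) + l) ^ i - (n : ℝ) ^ i) + l * (n : ℝ) ^ i := by ring
    rw [h1]
    have h2 : (n : ℝ) ^ i ≤ ((n : ℝ) + l) ^ i := pow_le_pow_left₀ hn (by linarith) i
    have h3 : ((n : ℝ) + l) * (((n : ℝ) + l) ^ i - (n : ℝ) ^ i) ≤ ((n : ℝ) + l) * (l * (i * ((n : ℝ) + l) ^ (i - 1))) :=
      mul_le_mul_of_nonneg_left ih (by linarith)
    have h4 : ((n : ℝ) + l) * (l * (i * ((n : ℝ) + l) ^ (i - 1))) ≤ l * (i * ((n : ℝ) + l) ^ i) := by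
      rcases Nat.eq_zero_or_pos i with h0 | h0
      · subst h0; simp
      · have : ((n : ℝ) + l) ^ i = ((n : ℝ) + l) * ((n : ℝ) + l) ^ (i - 1) := by
          rw [← pow_succ', Nat.sub_add_cancel h0]
        rw [this]
        apply le_of_eq; ring
    calc _ ≤ l * (i * ((n : ℝ) + l) ^ i) + l * ((n : ℝ) + l) ^ i := by
          have : (l : ℝ) * (n : ℝ) ^ i ≤ l * ((n : ℝ) + l) ^ i := by gcongr
          linarith
      _ = _ := by ring

lemma pow_sub_ge (n l i : ℕ) : (l : ℝ) * ((n : ℝ) + l) ^ i ≤ (((n + l) ^ (i + 1) : ℕ) : ℝ) - ((n ^ (i + 1) : ℕ) : ℝ) := by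
  push_cast
  have hn : (0 : ℝ) ≤ n := Nat.cast_nonneg _
  have hl : (0 : ℝ) ≤ l := Nat.cast_nonneg _
  have h2 : (n : ℝ) ^ i ≤ ((n : ℝ) + l) ^ i := pow_le_pow_left₀ hn (by linarith) i
  have h1 : ((n : ℝ) + l) ^ (i + 1) - (n : ℝ) ^ (i + 1) =
        l * ((n : ℝ) + l) ^ i + n * (((n : ℝ) + l) ^ i - (n : ℝ) ^ i) := by ring
  rw [h1]
  have : 0 ≤ (n : ℝ) * (((n : ℝ) + l) ^ i - (n : ℝ) ^ i) := mul_nonneg hn (by linarith)
  linarith

/-- the second difference of a power -/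
noncomputable def D2 (n l i : ℕ) : ℝ :=
  ((((n : ℝ) + l) + 1) ^ i - ((n : ℝ) + l) ^ i) - (((n : ℝ) + 1) ^ i - (n : ℝ) ^ i)

lemma D2_succ (n l i : ℕ) : D2 n l (i + 1) = ((n : ℝ) + l) * D2 n l i + l * (((n : ℝ) + 1) ^ i - (n : ℝ) ^ i) +
    ((((n : ℝ) + l) + 1) ^ i - ((n : ℝ) + 1) ^ i) := by
  unfold D2; ring

lemma D2_le (n l i : ℕ) : D2 n l i ≤ l * ((i : ℝ) ^ 2 * ((n : ℝ) + l + 1) ^ (i - 2)) := by
  have hn : (0 : ℝ) ≤ n := Nat.cast_nonneg _
  have hl : (0 : ℝ) ≤ l := Nat.cast_nonneg _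
  induction i with
  | zero => unfold D2; simp
  | succ i ih =>
    rcases Nat.eq_zero_or_pos i with h0 | h0
    · subst h0
      unfold D2
      simp
    · rw [D2_succ]
      set t : ℝ := (n : ℝ) + l + 1 with ht
      have ht1 : 1 ≤ t := by rw [ht]; linarith
      have e1 : ((n : ℝ) + 1) ^ i - (n : ℝ) ^ i ≤ i * t ^ (i - 1) := by
        have h1 := pow_sub_le n 1 i
        push_cast at h1
        rw [one_mul] at h1
        refine h1.trans ?_
        gcongr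
        rw [ht]; linarith
      have e2 : t ^ i - ((n : ℝ) + 1) ^ i ≤ l * (i * t ^ (i - 1)) := by
        have h1 := pow_sub_le (n + 1) l i
        push_cast at h1
        have h2 : (n : ℝ) + 1 + l = t := by rw [ht]; ring
        rw [h2] at h1
        exact h1
      have e3 : ((n : ℝ) + l) * D2 n l i ≤ l * ((i : ℝ) ^ 2 * t ^ (i - 1)) := by
        rcases Nat.lt_or_ge i 2 with h2 | h2
        · have : i = 1 := by omega
          subst this
          have h3 : D2 n l 1 = 0 := by unfold D2; ring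
          rw [h3, mul_zero]
          positivity
        · have h1 : ((n : ℝ) + l) * D2 n l i ≤ ((n : ℝ) + l) * (l * ((i : ℝ) ^ 2 * t ^ (i - 2))) :=
            mul_le_mul_of_nonneg_left ih (by linarith)
          refine h1.trans ?_
          have h3 : t ^ (i - 1) = t * t ^ (i - 2) := by
            rw [← pow_succ']; congr 1; omega
          rw [h3]
          have h4 : (n : ℝ) + l ≤ t := by rw [ht]; linarith
          calc ((n : ℝ) + l) * (l * ((i : ℝ) ^ 2 * t ^ (i - 2))) ≤ t * (l * ((i : ℝ) ^ 2 * t ^ (i - 2))) := by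
                gcongr
            _ = _ := by ring
      have h5 : i + 1 - 2 = i - 1 := by omega
      rw [h5]
      have h6 : (l : ℝ) * (((n : ℝ) + 1) ^ i - (n : ℝ) ^ i) ≤ l * (i * t ^ (i - 1)) :=
        mul_le_mul_of_nonneg_left e1 hl
      have h7 : (0 : ℝ) ≤ l * t ^ (i - 1) := by positivity
      push_cast
      calc _ ≤ l * ((i : ℝ) ^ 2 * t ^ (i - 1)) + l * (i * t ^ (i - 1)) + l * (i * t ^ (i - 1)) := by linarith
        _ ≤ _ := by nlinarith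

lemma D2_nonneg (n l i : ℕ) : 0 ≤ D2 n l i := by
  have hn : (0 : ℝ) ≤ n := Nat.cast_nonneg _
  have hl : (0 : ℝ) ≤ l := Nat.cast_nonneg _
  induction i with
  | zero => unfold D2; simp
  | succ i ih =>
    rw [D2_succ]
    have h1 : (n : ℝ) ^ i ≤ ((n : ℝ) + 1) ^ i := pow_le_pow_left₀ hn (by linarith) i
    have h2 : ((n : ℝ) + 1) ^ i ≤ (((n : ℝ) + l) + 1) ^ i := pow_le_pow_left₀ (by linarith) (by linarith) i
    have h3 : 0 ≤ ((n : ℝ) + l) * D2 n l i := mul_nonneg (by linarith) ih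
    have h4 : 0 ≤ (l : ℝ) * (((n : ℝ) + 1) ^ i - (n : ℝ) ^ i) := mul_nonneg hl (by linarith)
    linarith

lemma D2_ge (n l i : ℕ) (hi : 1 ≤ i) : (l : ℝ) * ((n : ℝ) + l + 1) ^ (i - 1) ≤ D2 n l (i + 1) := by
  have hn : (0 : ℝ) ≤ n := Nat.cast_nonneg _
  have hl : (0 : ℝ) ≤ l := Nat.cast_nonneg _
  rw [D2_succ]
  have h1 : (n : ℝ) ^ i ≤ ((n : ℝ) + 1) ^ i := pow_le_pow_left₀ hn (by linarith) i
  have h3 : 0 ≤ ((n : ℝ) + l) * D2 n l i := mul_nonneg (by linarith) (D2_nonneg n l i)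
  have h4 : 0 ≤ (l : ℝ) * (((n : ℝ) + 1) ^ i - (n : ℝ) ^ i) := mul_nonneg hl (by linarith)
  have h5 := pow_sub_ge (n + 1) l (i - 1)
  rw [Nat.sub_add_cancel hi] at h5
  push_cast at h5
  have h6 : (n : ℝ) + 1 + l = (n : ℝ) + l + 1 := by ring
  rw [h6] at h5
  linarith

lemma lower_terms (j : ℕ) (a φ' : ℕ → ℝ) (W : ℝ) (hW : 0 ≤ W) (h0 : φ' 0 = 0)
    (h : ∀ i, 1 ≤ i → i ≤ j → |a i * φ' i| ≤ W / (4 * (j + 1))) :
    |∑ i ∈ range (j + 1), a i * φ' i| ≤ W / 4 := by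
  refine (abs_sum_le_sum_abs _ _).trans ?_
  calc ∑ i ∈ range (j + 1), |a i * φ' i| ≤ ∑ i ∈ range (j + 1), W / (4 * (j + 1)) := by
        refine sum_le_sum fun i hi => ?_
        rw [mem_range] at hi
        rcases Nat.eq_zero_or_pos i with h1 | h1
        · subst h1
          rw [h0, mul_zero, abs_zero]
          positivity
        · exact h i h1 (by omega)
    _ = W / 4 := by
        rw [sum_const, card_range, nsmul_eq_mul]
        push_cast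
        field_simp

lemma eval_real (f : ℤ[X]) (j : ℕ) (hf : f.natDegree ≤ j + 1) (n : ℕ) :
    ((f.eval (n : ℤ) : ℤ) : ℝ) = ∑ i ∈ range (j + 1), ((f.coeff i : ℤ) : ℝ) * (n : ℝ) ^ i +
      ((f.coeff (j + 1) : ℤ) : ℝ) * (n : ℝ) ^ (j + 1) := by
  rw [eval_eq_sum_range' (show f.natDegree < j + 2 by omega), sum_range_succ]
  push_cast
  rfl

theorem slo_poly (j : ℕ) (hj : 1 ≤ j) (f : ℤ[X]) (α x1 x : ℕ) (hf : f.natDegree ≤ j + 1)
    (hfα : f.coeff (j + 1) = α) (hα : 1 ≤ α) (hx1 : 1 ≤ x1) (hx1x : x1 ≤ x)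
    (hco : ∀ i, 1 ≤ i → i ≤ j → |((f.coeff i : ℤ) : ℝ)| * (4 * ((j : ℝ) + 1) ^ 3) ≤ (x1 : ℝ) ^ (j + 1 - i)) :
    Slo (fun n : ℕ => f.eval (n : ℤ)) x1 x (x1 ^ j / 2) (α * (j + 2) * 2 ^ j * x ^ j) := by
  have hα1 : (1 : ℝ) ≤ α := by exact_mod_cast hα
  have hx10 : (1 : ℝ) ≤ x1 := by exact_mod_cast hx1
  have hj0 : (0 : ℝ) ≤ j := Nat.cast_nonneg _
  have hfα' : ((f.coeff (j + 1) : ℤ) : ℝ) = α := by rw [hfα]; push_cast; rfl
  -- first differences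
  have hd1 : ∀ n l : ℕ, ((f.eval ((n + l : ℕ) : ℤ) - f.eval (n : ℤ) : ℤ) : ℝ) =
      ∑ i ∈ range (j + 1), ((f.coeff i : ℤ) : ℝ) * ((((n + l) ^ i : ℕ) : ℝ) - ((n ^ i : ℕ) : ℝ)) +
      α * ((((n + l) ^ (j + 1) : ℕ) : ℝ) - ((n ^ (j + 1) : ℕ) : ℝ)) := by
    intro n l
    rw [Int.cast_sub, eval_real f j hf, eval_real f j hf, hfα']
    push_cast
    rw [← sub_eq_zero]
    have e1 : ∑ i ∈ range (j + 1), ((f.coeff i : ℤ) : ℝ) * (((n : ℝ) + l) ^ i - (n : ℝ) ^ i) =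
        ∑ i ∈ range (j + 1), ((f.coeff i : ℤ) : ℝ) * ((n : ℝ) + l) ^ i -
        ∑ i ∈ range (j + 1), ((f.coeff i : ℤ) : ℝ) * (n : ℝ) ^ i := by
      rw [← sum_sub_distrib]
      refine sum_congr rfl fun i _ => ?_
      ring
    rw [e1]
    ring
  have hlow1 : ∀ n l : ℕ, x1 < n → |∑ i ∈ range (j + 1), ((f.coeff i : ℤ) : ℝ) *
      ((((n + l) ^ i : ℕ) : ℝ) - ((n ^ i : ℕ) : ℝ))| ≤ (l * ((n : ℝ) + l) ^ j) / 4 := by
    intro n l hn
    have hn' : (x1 : ℝ) ≤ n := by exact_mod_cast hn.le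
    have hl : (0 : ℝ) ≤ l := Nat.cast_nonneg _
    apply lower_terms j (fun i => ((f.coeff i : ℤ) : ℝ))
      (fun i => (((n + l) ^ i : ℕ) : ℝ) - ((n ^ i : ℕ) : ℝ)) _ (by positivity) (by simp)
    intro i hi1 hij
    have h1 := pow_sub_le n l i
    have h2 : (0 : ℝ) ≤ (((n + l) ^ i : ℕ) : ℝ) - ((n ^ i : ℕ) : ℝ) := by
      have : ((n ^ i : ℕ) : ℝ) ≤ (((n + l) ^ i : ℕ) : ℝ) := by
        exact_mod_cast Nat.pow_le_pow_left (by omega) i
      linarith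
    rw [abs_mul, abs_of_nonneg h2, le_div_iff₀ (by positivity)]
    have h3 := hco i hi1 hij
    set t : ℝ := (n : ℝ) + l with ht
    have ht1 : (x1 : ℝ) ≤ t := by rw [ht]; linarith
    have h4 : (x1 : ℝ) ^ (j + 1 - i) ≤ t ^ (j + 1 - i) := pow_le_pow_left₀ (by linarith) ht1 _
    have h5 : (i : ℝ) ≤ (j : ℝ) + 1 := by
      have : (i : ℝ) ≤ j := by exact_mod_cast hij
      linarith
    have h6 : t ^ (j + 1 - i) * t ^ (i - 1) = t ^ j := by rw [← pow_add]; congr 1; omega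
    have ht0 : 0 ≤ t := by linarith
    calc |((f.coeff i : ℤ) : ℝ)| * ((((n + l) ^ i : ℕ) : ℝ) - ((n ^ i : ℕ) : ℝ)) * (4 * ((j : ℝ) + 1))
        ≤ |((f.coeff i : ℤ) : ℝ)| * (l * (i * t ^ (i - 1))) * (4 * ((j : ℝ) + 1)) := by gcongr
      _ ≤ |((f.coeff i : ℤ) : ℝ)| * (l * (((j : ℝ) + 1) ^ 2 * t ^ (i - 1))) * (4 * ((j : ℝ) + 1)) := by
          gcongr
          nlinarith
      _ = (|((f.coeff i : ℤ) : ℝ)| * (4 * ((j : ℝ) + 1) ^ 3)) * (l * t ^ (i - 1)) := by ring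
      _ ≤ (t ^ (j + 1 - i)) * (l * t ^ (i - 1)) := by
          gcongr
          exact h3.trans h4
      _ = l * (t ^ (j + 1 - i) * t ^ (i - 1)) := by ring
      _ = l * t ^ j := by rw [h6]
  refine ⟨?_, ?_, ?_, ?_⟩
  · intro n q k
    have h1 : (((n + q * k : ℕ) : ℤ) - (n : ℤ)) ∣ f.eval ((n + q * k : ℕ) : ℤ) - f.eval (n : ℤ) :=
      sub_dvd_eval_sub _ _ _
    obtain ⟨c, hc⟩ := h1
    refine ⟨k * c, ?_⟩
    have h2 : ((n + q * k : ℕ) : ℤ) - (n : ℤ) = q * k := by push_cast; ring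
    rw [h2] at hc
    linarith
  · intro n l hn
    have h1 := abs_le.1 (hlow1 n l hn)
    have h2 := hd1 n l
    have h3 := pow_sub_ge n l j
    have hn' : (x1 : ℝ) ≤ n := by exact_mod_cast hn.le
    have hl : (0 : ℝ) ≤ l := Nat.cast_nonneg _
    set t : ℝ := (n : ℝ) + l with ht
    have ht1 : (x1 : ℝ) ≤ t := by rw [ht]; linarith
    have h4 : (x1 : ℝ) ^ j ≤ t ^ j := pow_le_pow_left₀ (by linarith) ht1 _
    have h5 : (((x1 ^ j / 2 : ℕ)) : ℝ) ≤ (x1 : ℝ) ^ j / 2 := by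
      have := @Nat.cast_div_le ℝ _ _ _ (x1 ^ j) 2
      push_cast at this ⊢
      exact this
    have h6 : (l : ℝ) * ((x1 ^ j / 2 : ℕ) : ℝ) ≤ ((f.eval ((n + l : ℕ) : ℤ) - f.eval (n : ℤ) : ℤ) : ℝ) := by
      rw [h2]
      have h7 : (l : ℝ) * t ^ j ≤ α * ((((n + l) ^ (j + 1) : ℕ) : ℝ) - ((n ^ (j + 1) : ℕ) : ℝ)) := by
        have h8 : 0 ≤ (l : ℝ) * t ^ j := by positivity
        nlinarith
      have h9 : (l : ℝ) * ((x1 ^ j / 2 : ℕ) : ℝ) ≤ l * (t ^ j / 2) := by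
        gcongr
        linarith
      have h10 : 0 ≤ (l : ℝ) * t ^ j := by positivity
      linarith
    have h8 : (((l : ℤ) * ((x1 ^ j / 2 : ℕ) : ℤ) : ℤ) : ℝ) ≤
        ((f.eval ((n + l : ℕ) : ℤ) - f.eval (n : ℤ) : ℤ) : ℝ) := by
      rw [Int.cast_mul, Int.cast_natCast, Int.cast_natCast]
      exact h6
    exact (Int.cast_le (R := ℝ)).1 h8
  · intro n l hn hnx hlx
    have h1 := abs_le.1 (hlow1 n l hn)
    have h2 := hd1 n l
    have h3 := pow_sub_le n l (j + 1)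
    rw [Nat.add_sub_cancel] at h3
    have hl : (0 : ℝ) ≤ l := Nat.cast_nonneg _
    set t : ℝ := (n : ℝ) + l with ht
    have ht0 : 0 ≤ t := by rw [ht]; positivity
    have htx : t ≤ 2 * x := by
      have h4 : (n : ℝ) ≤ x := by exact_mod_cast hnx
      have h5 : (l : ℝ) ≤ x := by exact_mod_cast hlx
      rw [ht]; linarith
    have h6 : ((f.eval ((n + l : ℕ) : ℤ) - f.eval (n : ℤ) : ℤ) : ℝ) ≤
        (l : ℝ) * ((α * (j + 2) * 2 ^ j * x ^ j : ℕ) : ℝ) := by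
      rw [h2]
      have h7 : α * ((((n + l) ^ (j + 1) : ℕ) : ℝ) - ((n ^ (j + 1) : ℕ) : ℝ)) ≤
          α * (l * (((j : ℝ) + 1) * t ^ j)) := by
        apply mul_le_mul_of_nonneg_left _ (by linarith)
        push_cast at h3 ⊢
        exact h3
      have h8 : t ^ j ≤ (2 * x) ^ j := pow_le_pow_left₀ ht0 htx _
      have hrhs : (l : ℝ) * ((α * (j + 2) * 2 ^ j * x ^ j : ℕ) : ℝ) =
          (α * l * ((j : ℝ) + 2)) * (2 * x) ^ j := by
        rw [mul_pow]; push_cast; ring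
      rw [hrhs]
      calc _ ≤ (l * t ^ j) / 4 + α * (l * (((j : ℝ) + 1) * t ^ j)) := by linarith
        _ ≤ α * (l * t ^ j) + α * (l * (((j : ℝ) + 1) * t ^ j)) := by
            have h10 : 0 ≤ (l : ℝ) * t ^ j := by positivity
            nlinarith
        _ = (α * l * ((j : ℝ) + 2)) * t ^ j := by ring
        _ ≤ (α * l * ((j : ℝ) + 2)) * (2 * x) ^ j := by gcongr
    have h8 : ((f.eval ((n + l : ℕ) : ℤ) - f.eval (n : ℤ) : ℤ) : ℝ) ≤
        (((l : ℤ) * ((α * (j + 2) * 2 ^ j * x ^ j : ℕ) : ℤ) : ℤ) : ℝ) := by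
      rw [Int.cast_mul, Int.cast_natCast, Int.cast_natCast]
      exact h6
    exact (Int.cast_le (R := ℝ)).1 h8
  · -- convexity
    intro l n hn
    have hn' : (x1 : ℝ) ≤ n := by exact_mod_cast hn.le
    have hl : (0 : ℝ) ≤ l := Nat.cast_nonneg _
    have h2 := hd1 n l
    have h3 := hd1 (n + 1) l
    set t : ℝ := (n : ℝ) + l + 1 with ht
    have ht1 : (x1 : ℝ) ≤ t := by rw [ht]; linarith
    have ht11 : 1 ≤ t := by linarith
    have hsec : |∑ i ∈ range (j + 1), ((f.coeff i : ℤ) : ℝ) * D2 n l i| ≤ (l * t ^ (j - 1)) / 4 := by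
      apply lower_terms j (fun i => ((f.coeff i : ℤ) : ℝ)) (fun i => D2 n l i) _ (by positivity)
        (by unfold D2; simp)
      intro i hi1 hij
      rw [abs_mul, abs_of_nonneg (D2_nonneg n l i), le_div_iff₀ (by positivity)]
      rcases Nat.lt_or_ge i 2 with hi2 | hi2
      · have : i = 1 := by omega
        subst this
        have h4 : D2 n l 1 = 0 := by unfold D2; ring
        rw [h4, mul_zero, zero_mul]
        positivity
      · have h4 := D2_le n l i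
        have h5 := hco i hi1 hij
        have h6 : (x1 : ℝ) ^ (j + 1 - i) ≤ t ^ (j + 1 - i) := pow_le_pow_left₀ (by linarith) ht1 _
        have h7 : (i : ℝ) ≤ (j : ℝ) + 1 := by
          have : (i : ℝ) ≤ j := by exact_mod_cast hij
          linarith
        have h8 : t ^ (j + 1 - i) * t ^ (i - 2) = t ^ (j - 1) := by rw [← pow_add]; congr 1; omega
        calc |((f.coeff i : ℤ) : ℝ)| * D2 n l i * (4 * ((j : ℝ) + 1))
            ≤ |((f.coeff i : ℤ) : ℝ)| * (l * ((i : ℝ) ^ 2 * t ^ (i - 2))) * (4 * ((j : ℝ) + 1)) := by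
              gcongr
          _ ≤ |((f.coeff i : ℤ) : ℝ)| * (l * (((j : ℝ) + 1) ^ 2 * t ^ (i - 2))) * (4 * ((j : ℝ) + 1)) := by
              gcongr
          _ = (|((f.coeff i : ℤ) : ℝ)| * (4 * ((j : ℝ) + 1) ^ 3)) * (l * t ^ (i - 2)) := by ring
          _ ≤ (t ^ (j + 1 - i)) * (l * t ^ (i - 2)) := by
              gcongr
              exact h5.trans h6
          _ = l * (t ^ (j + 1 - i) * t ^ (i - 2)) := by ring
          _ = l * t ^ (j - 1) := by rw [h8]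
    have hlead := D2_ge n l j hj
    rw [← ht] at hlead
    have hdiff : ((f.eval ((n + 1 + l : ℕ) : ℤ) - f.eval ((n + 1 : ℕ) : ℤ) : ℤ) : ℝ) -
        ((f.eval ((n + l : ℕ) : ℤ) - f.eval (n : ℤ) : ℤ) : ℝ) =
        ∑ i ∈ range (j + 1), ((f.coeff i : ℤ) : ℝ) * D2 n l i + α * D2 n l (j + 1) := by
      rw [h2, h3]
      have e1 : ∑ i ∈ range (j + 1), ((f.coeff i : ℤ) : ℝ) * D2 n l i =
          ∑ i ∈ range (j + 1), ((f.coeff i : ℤ) : ℝ) * ((((n + 1 + l) ^ i : ℕ) : ℝ) - (((n + 1) ^ i : ℕ) : ℝ)) -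
          ∑ i ∈ range (j + 1), ((f.coeff i : ℤ) : ℝ) * ((((n + l) ^ i : ℕ) : ℝ) - ((n ^ i : ℕ) : ℝ)) := by
        rw [← sum_sub_distrib]
        refine sum_congr rfl fun i _ => ?_
        unfold D2
        push_cast
        ring
      rw [e1]
      unfold D2
      push_cast
      ring
    have h10 : 0 ≤ (l : ℝ) * t ^ (j - 1) := by positivity
    have h11 : (l : ℝ) * t ^ (j - 1) ≤ α * D2 n l (j + 1) := by
      have := D2_nonneg n l (j + 1)
      nlinarith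
    have h12 := abs_le.1 hsec
    have h13 : ((f.eval ((n + l : ℕ) : ℤ) - f.eval (n : ℤ) : ℤ) : ℝ) ≤
        ((f.eval ((n + 1 + l : ℕ) : ℤ) - f.eval ((n + 1 : ℕ) : ℤ) : ℤ) : ℝ) := by linarith
    exact (Int.cast_le (R := ℝ)).1 h13

end Pool.Agent.W81.RD
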