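import Pool.Agent.W81.RD.WeylG
import Pool.Agent.W81.RD.SloP
import Pool.Agent.H442R2.EHI.Core2

/-!
The second moment in short intervals of shifts, polynomials of arbitrary degree: savings of powers
of the logarithm.
-/

set_option autoImplicit false

namespace Pool.Agent.W81.RD

open Finset Filter Polynomial
open Pool.Agent.H469R2.NK (e)
open Pool.Agent.H442R2.EHI (evt_log_pow evt_log_ge)
open Pool.Agent.H300R2.BH (chf fz)
open Pool.Agent.W81.R1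

/-- arithmetic of the final estimate; `X = x ^ j`, `k = 2 ^ j` -/
lemma final_arithG (L x X k A N G2 Y P1 Q D δ1 S0 : ℝ) (C4 U2 G J EQ E1 C2 E3 : ℕ)
    (hk : 1 ≤ k) (hL : 6144 * k ≤ L) (hx : 0 < x) (hX : 0 < X) (hA0 : 0 < A)
    (hN0 : 0 < N) (hN : N ≤ X * x * L ^ C4) (hG2 : G2 = N * L ^ G)
    (hE1 : E1 = C4 + G + J + U2 + 1) (hC2 : C2 = C4 + J + 2 * EQ + U2 + 4)
    (hE3 : E3 = G + 2 * C2 + 2 * EQ + U2 + 4)
    (hD : D = L ^ E1) (hδ1 : δ1 = L ^ (G + 2 * C2) / N) (hS0 : S0 = N / L ^ E3)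
    (hAB : X * L ^ (C4 + G + U2 + 1) ≤ A) (hP1 : X / (4 * k * L ^ J) ≤ P1) (hY0 : 0 ≤ Y)
    (hY : Y ≤ A / P1) (hQ0 : 0 ≤ Q) (hQ : Q ≤ L ^ EQ) :
    128 * G2 * (x + 2 * (3 / 2 * (x * Y) / D)) +
      64 * A * (Q * (Q + 1) * (3 * δ1 * S0 * x + 4 * Real.sqrt (G2 / δ1) / P1)) ^ 2 ≤
      A * x ^ 2 / L ^ U2 := by
  have hk0 : 0 < k := by linarith
  have hL6 : 6144 ≤ L := by linarith
  have hL0 : 0 < L := by linarith
  have hL1 : 1 ≤ L := by linarith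
  have hp : ∀ n : ℕ, 0 < L ^ n := fun n => by positivity
  have hp1 : ∀ n : ℕ, 1 ≤ L ^ n := fun n => one_le_pow₀ hL1
  have hP10 : 0 < P1 := lt_of_lt_of_le (by positivity) hP1
  have hXP : X ≤ 4 * k * L ^ J * P1 := by
    rw [div_le_iff₀ (by positivity)] at hP1
    linarith
  -- first term
  have hG2le : G2 ≤ X * x * L ^ (C4 + G) := by
    rw [hG2, pow_add, ← mul_assoc]
    gcongr
  have hG20 : 0 < G2 := by rw [hG2]; positivity
  have hXY : X * Y ≤ 4 * k * L ^ J * A := by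
    calc X * Y ≤ (4 * k * L ^ J * P1) * (A / P1) := by gcongr
      _ = 4 * k * L ^ J * A := by field_simp
  have t1 : 128 * G2 * x ≤ A * x ^ 2 / L ^ U2 / 4 := by
    rw [div_div, le_div_iff₀ (by positivity)]
    calc 128 * G2 * x * (L ^ U2 * 4) ≤ 128 * (X * x * L ^ (C4 + G)) * x * (L ^ U2 * 4) := by gcongr
      _ = 512 * (X * L ^ (C4 + G + U2)) * x ^ 2 := by ring
      _ ≤ L * (X * L ^ (C4 + G + U2)) * x ^ 2 := by gcongr; linarith
      _ = (X * L ^ (C4 + G + U2 + 1)) * x ^ 2 := by ring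
      _ ≤ A * x ^ 2 := by gcongr
  have t2 : 128 * G2 * (2 * (3 / 2 * (x * Y) / D)) ≤ A * x ^ 2 / L ^ U2 / 4 := by
    rw [hD]
    have e1 : 128 * G2 * (2 * (3 / 2 * (x * Y) / L ^ E1)) = 384 * G2 * (x * Y) / L ^ E1 := by ring
    rw [e1, div_div, div_le_div_iff₀ (hp _) (by positivity)]
    calc 384 * G2 * (x * Y) * (L ^ U2 * 4)
        ≤ 384 * (X * x * L ^ (C4 + G)) * (x * Y) * (L ^ U2 * 4) := by gcongr
      _ = 384 * x ^ 2 * L ^ (C4 + G) * (X * Y) * (L ^ U2 * 4) := by ring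
      _ ≤ 384 * x ^ 2 * L ^ (C4 + G) * (4 * k * L ^ J * A) * (L ^ U2 * 4) := by gcongr
      _ = (6144 * k) * (A * x ^ 2) * L ^ (C4 + G + J + U2) := by ring
      _ ≤ L * (A * x ^ 2) * L ^ (C4 + G + J + U2) := by gcongr
      _ = A * x ^ 2 * L ^ E1 := by rw [hE1]; ring
  -- second term
  have hδ10 : 0 < δ1 := by rw [hδ1]; positivity
  have s1 : Real.sqrt (G2 / δ1) = N / L ^ C2 := by
    have h1 : G2 / δ1 = (N / L ^ C2) ^ 2 := by
      rw [hG2, hδ1, div_pow, ← pow_mul, pow_add, mul_comm C2 2]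
      field_simp
    rw [h1, Real.sqrt_sq (by positivity)]
  have s2 : 4 * Real.sqrt (G2 / δ1) / P1 ≤ 16 * k * x / L ^ (2 * EQ + U2 + 4) := by
    rw [s1, div_le_div_iff₀ hP10 (hp _)]
    calc 4 * (N / L ^ C2) * L ^ (2 * EQ + U2 + 4)
        ≤ 4 * (X * x * L ^ C4 / L ^ C2) * L ^ (2 * EQ + U2 + 4) := by gcongr
      _ = 4 * x * X / L ^ J := by
          rw [hC2, show C4 + J + 2 * EQ + U2 + 4 = C4 + (J + (2 * EQ + U2 + 4)) by ring,
            pow_add L C4, pow_add L J]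
          field_simp
      _ ≤ 4 * x * (4 * k * L ^ J * P1) / L ^ J := by gcongr
      _ = 16 * k * x * P1 := by field_simp; ring
  have s3 : 3 * δ1 * S0 * x = 3 * x / L ^ (2 * EQ + U2 + 4) := by
    rw [hδ1, hS0, hE3, show G + 2 * C2 + 2 * EQ + U2 + 4 = (G + 2 * C2) + (2 * EQ + U2 + 4) by ring,
      pow_add L (G + 2 * C2)]
    field_simp
  have s4 : 3 * δ1 * S0 * x + 4 * Real.sqrt (G2 / δ1) / P1 ≤
      19 * k * x / L ^ (2 * EQ + U2 + 4) := by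
    rw [s3]
    calc 3 * x / L ^ (2 * EQ + U2 + 4) + 4 * Real.sqrt (G2 / δ1) / P1
        ≤ 3 * k * x / L ^ (2 * EQ + U2 + 4) + 16 * k * x / L ^ (2 * EQ + U2 + 4) := by
          gcongr
          linarith
      _ = _ := by ring
  have s0 : 0 ≤ 3 * δ1 * S0 * x + 4 * Real.sqrt (G2 / δ1) / P1 := by
    have : 0 ≤ 4 * Real.sqrt (G2 / δ1) / P1 := by positivity
    rw [s3]
    positivity
  have s5 : Q * (Q + 1) ≤ 2 * L ^ (2 * EQ) := by
    calc Q * (Q + 1) ≤ (L ^ EQ) * (L ^ EQ + 1 * L ^ EQ) := by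
          gcongr
          rw [one_mul]
          exact hp1 _
      _ = 2 * L ^ (2 * EQ) := by ring
  have s6 : Q * (Q + 1) * (3 * δ1 * S0 * x + 4 * Real.sqrt (G2 / δ1) / P1) ≤
      38 * k * x / L ^ (U2 + 4) := by
    calc Q * (Q + 1) * (3 * δ1 * S0 * x + 4 * Real.sqrt (G2 / δ1) / P1)
        ≤ (2 * L ^ (2 * EQ)) * (19 * k * x / L ^ (2 * EQ + U2 + 4)) :=
          mul_le_mul s5 s4 s0 (by positivity)
      _ = 38 * k * x / L ^ (U2 + 4) := by
          rw [show 2 * EQ + U2 + 4 = 2 * EQ + (U2 + 4) by ring, pow_add L (2 * EQ)]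
          field_simp
          ring
  have t3 : 64 * A * (Q * (Q + 1) * (3 * δ1 * S0 * x + 4 * Real.sqrt (G2 / δ1) / P1)) ^ 2 ≤
      A * x ^ 2 / L ^ U2 / 2 := by
    have h1 : (Q * (Q + 1) * (3 * δ1 * S0 * x + 4 * Real.sqrt (G2 / δ1) / P1)) ^ 2 ≤
        (38 * k * x / L ^ (U2 + 4)) ^ 2 := by
      apply pow_le_pow_left₀ _ s6
      positivity
    calc 64 * A * (Q * (Q + 1) * (3 * δ1 * S0 * x + 4 * Real.sqrt (G2 / δ1) / P1)) ^ 2
        ≤ 64 * A * (38 * k * x / L ^ (U2 + 4)) ^ 2 := by gcongr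
      _ = 64 * 38 ^ 2 * k ^ 2 * (A * x ^ 2) / (L ^ (U2 + 4)) ^ 2 := by
          rw [div_pow, mul_pow, mul_pow]; ring
      _ ≤ A * x ^ 2 / L ^ U2 / 2 := by
          rw [div_div, div_le_div_iff₀ (by positivity) (by positivity)]
          have h2 : (64 * 38 ^ 2 : ℝ) * k ^ 2 * 2 ≤ L ^ 8 := by
            have h3 : (6144 * k) ^ 2 ≤ L ^ 2 := pow_le_pow_left₀ (by positivity) hL 2
            have h4 : L ^ 2 ≤ L ^ 8 := pow_le_pow_right₀ hL1 (by norm_num)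
            have h5 : 0 < k ^ 2 := by positivity
            have h6 : (6144 * k) ^ 2 = 6144 ^ 2 * k ^ 2 := by ring
            rw [h6] at h3
            linarith
          calc 64 * 38 ^ 2 * k ^ 2 * (A * x ^ 2) * (L ^ U2 * 2) =
              (64 * 38 ^ 2 * k ^ 2 * 2) * ((A * x ^ 2) * L ^ U2) := by ring
            _ ≤ L ^ 8 * ((A * x ^ 2) * L ^ U2) := by gcongr
            _ = A * x ^ 2 * (L ^ (U2 + 8) * 1) := by ring
            _ ≤ A * x ^ 2 * (L ^ (U2 + 8) * L ^ U2) := by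
                gcongr
                exact hp1 _
            _ = A * x ^ 2 * (L ^ (U2 + 4)) ^ 2 := by ring
  calc _ = 128 * G2 * x + 128 * G2 * (2 * (3 / 2 * (x * Y) / D)) +
      64 * A * (Q * (Q + 1) * (3 * δ1 * S0 * x + 4 * Real.sqrt (G2 / δ1) / P1)) ^ 2 := by ring
    _ ≤ A * x ^ 2 / L ^ U2 / 4 + A * x ^ 2 / L ^ U2 / 4 + A * x ^ 2 / L ^ U2 / 2 := by
        gcongr
    _ = _ := by ring

/-- the second moment in short intervals of shifts -/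
theorem short_logG (j : ℕ) (hj : 1 ≤ j) (C0 C4 U1 U2 G : ℕ) : ∃ E3 B : ℕ, ∀ᶠ x : ℕ in atTop,
    ∀ (f : ℤ[X]) (α A N : ℕ) (a0 : ℤ) (g : ℕ → ℂ), f.natDegree ≤ j + 1 → f.coeff (j + 1) = α →
      1 ≤ α → (α : ℝ) ≤ Real.log x ^ C0 →
      (∀ i, 1 ≤ i → i ≤ j → |((f.coeff i : ℤ) : ℝ)| ≤
        (x : ℝ) ^ (j + 1 - i) / Real.log x ^ ((j + 1) * (U1 + 1) + 1)) →
      (x : ℝ) ^ j * Real.log x ^ B ≤ A → (A : ℝ) ≤ (x : ℝ) ^ j * (x : ℝ) ^ (1 / 2 : ℝ) →
      1 ≤ N → (N : ℝ) ≤ (x : ℝ) ^ (j + 1) * Real.log x ^ C4 → (∀ n, N < n → g n = 0) →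
      (∀ n ∈ Ioc 0 x, ∀ k < A, |f.eval (n : ℤ) + (a0 + k)| ≤ N) →
      ∑ n ∈ Icc 1 N, ‖g n‖ ^ 2 ≤ N * Real.log x ^ G →
      (∀ t : ℝ, ‖∑ n ∈ Icc 1 N, g n * e (n * t)‖ ≤ N / Real.log x ^ E3) →
      ∑ k ∈ range A, ‖∑ n ∈ Ioc ⌊(x : ℝ) / Real.log x ^ U1⌋₊ x, fz g (f.eval (n : ℤ) + (a0 + k))‖ ^ 2 ≤
        A * (x : ℝ) ^ 2 / Real.log x ^ U2 := by
  obtain ⟨c, m, hc, hmp⟩ := minor_poly j hj
  set E1 := C4 + G + j * U1 + U2 + 1 with hE1
  set EQ := (2 * m + j) * E1 + C0 + 1 with hEQ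
  set C2 := C4 + j * U1 + 2 * EQ + U2 + 4 with hC2
  set E3 := G + 2 * C2 + 2 * EQ + U2 + 4 with hE3
  set B := 2 * (m + j) * E1 + EQ + C0 + 3 with hB
  refine ⟨E3, B, ?_⟩
  have hc1 : (1 : ℝ) ≤ c := by exact_mod_cast hc
  have hfac : (1 : ℝ) ≤ ((j + 1).factorial : ℝ) := by exact_mod_cast Nat.factorial_pos (j + 1)
  have hj0 : (0 : ℝ) ≤ j := Nat.cast_nonneg _
  filter_upwards [evt_log_ge (6144 * 2 ^ j), evt_log_ge (4 * c ^ 2 * (j + 1).factorial),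
    evt_log_ge (8 * c * 2 ^ j * (j + 2)), evt_log_ge (8 * c ^ 2), evt_log_ge (4 * (j + 1) ^ 3),
    evt_log_pow (2 * (m + j) * E1 + j * U1 + 6) (1 / 4) (by norm_num),
    evt_log_pow (EQ + U1 + 4) 1 (by norm_num), eventually_ge_atTop 16]
    with x hL hLc hLk hLc2 hLj hx1 hx2 hx16 f α A N a0 g hfd hfα hα hαL hco hA hA32 hN1 hN hg hval hG hsup
  rw [Real.rpow_one] at hx2
  set L := Real.log x with hLd
  have h2j : (1 : ℝ) ≤ 2 ^ j := one_le_pow₀ (by norm_num)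
  have hL6144 : 6144 ≤ L := by linarith
  have hL0 : 0 < L := by linarith
  have hL1 : 1 ≤ L := by linarith
  have hp : ∀ n : ℕ, 0 < L ^ n := fun n => by positivity
  have hp1 : ∀ n : ℕ, 1 ≤ L ^ n := fun n => one_le_pow₀ hL1
  have hxr : (16 : ℝ) ≤ x := by exact_mod_cast hx16
  have hx0 : (0 : ℝ) < x := by linarith
  have hX0 : (0 : ℝ) < (x : ℝ) ^ j := by positivity
  have hNr : (1 : ℝ) ≤ N := by exact_mod_cast hN1
  have hα1 : (1 : ℝ) ≤ α := by exact_mod_cast hα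
  have hxU1 : 8 * L ^ U1 ≤ x := by
    calc 8 * L ^ U1 ≤ L * L ^ U1 := by gcongr; linarith
      _ = L ^ (U1 + 1) := by ring
      _ ≤ L ^ (EQ + U1 + 4) := pow_le_pow_right₀ hL1 (by omega)
      _ ≤ x := hx2
  set x1 := ⌊(x : ℝ) / L ^ U1⌋₊ with hx1d
  have hfl : (x : ℝ) / L ^ U1 < x1 + 1 := Nat.lt_floor_add_one _
  have h8le : 8 ≤ (x : ℝ) / L ^ U1 := by rw [le_div_iff₀ (hp _)]; exact hxU1
  have hx1lo : (x : ℝ) / (2 * L ^ U1) ≤ x1 := by
    have h1 : (x : ℝ) / (2 * L ^ U1) = (x : ℝ) / L ^ U1 / 2 := by rw [div_div]; ring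
    rw [h1]
    linarith
  have hx1hi : (x1 : ℝ) ≤ x / L ^ U1 := Nat.floor_le (by positivity)
  have hx1x : x1 ≤ x := by
    have : (x1 : ℝ) ≤ x := by
      refine hx1hi.trans ?_
      rw [div_le_iff₀ (hp _)]
      exact le_mul_of_one_le_right hx0.le (hp1 U1)
    exact_mod_cast this
  have hx14 : (4 : ℝ) ≤ x1 := by linarith
  have hx1one : 1 ≤ x1 := by
    have : (1 : ℝ) ≤ x1 := by linarith
    exact_mod_cast this
  have hx10 : (0 : ℝ) < x1 := by linarith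
  have hxx1 : (x : ℝ) ≤ 2 * L ^ U1 * x1 := by
    rw [div_le_iff₀ (by positivity)] at hx1lo
    linarith
  -- P1
  set P1 := x1 ^ j / 2 with hP1d
  have hx1j : (4 : ℝ) ≤ (x1 : ℝ) ^ j := by
    calc (4 : ℝ) ≤ x1 := hx14
      _ ≤ (x1 : ℝ) ^ j := le_self_pow₀ (by linarith) (by omega)
  have hP1hi : (P1 : ℝ) ≤ (x1 : ℝ) ^ j / 2 := by
    have := @Nat.cast_div_le ℝ _ _ _ (x1 ^ j) 2
    push_cast at this
    exact this
  have hP1lo : (x1 : ℝ) ^ j / 4 ≤ P1 := by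
    have h1 : x1 ^ j < 2 * (P1 + 1) := by rw [hP1d]; exact Nat.lt_mul_div_succ _ (by norm_num)
    have h2 : (x1 : ℝ) ^ j < 2 * (P1 + 1) := by exact_mod_cast h1
    linarith
  have hP11 : (1 : ℝ) ≤ P1 := by linarith
  have hP1one : 1 ≤ P1 := by exact_mod_cast hP11
  have hP10 : (0 : ℝ) < P1 := by linarith
  have hP1X : (x : ℝ) ^ j / (4 * 2 ^ j * L ^ (j * U1)) ≤ P1 := by
    refine le_trans ?_ hP1lo
    rw [div_le_div_iff₀ (by positivity) (by norm_num)]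
    calc (x : ℝ) ^ j * 4 ≤ (2 * L ^ U1 * x1) ^ j * 4 := by gcongr
      _ = (x1 : ℝ) ^ j * (4 * 2 ^ j * L ^ (j * U1)) := by rw [mul_pow, mul_pow, ← pow_mul, mul_comm U1 j]; ring
  have hP1x : (P1 : ℝ) ≤ (x : ℝ) ^ j / 2 := by
    refine hP1hi.trans ?_
    have : (x1 : ℝ) ≤ x := by exact_mod_cast hx1x
    gcongr
  -- A
  have hAX : (x : ℝ) ^ j ≤ A := by
    refine le_trans ?_ hA
    exact le_mul_of_one_le_right hX0.le (hp1 B)
  have hA0 : (0 : ℝ) < A := by linarith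
  have hA1 : 1 ≤ A := by
    have : (0 : ℝ) < A := hA0
    exact_mod_cast this
  set K := N / A + 1 with hK
  have hAK : N + 1 ≤ A * K := by
    rw [hK]
    exact Nat.lt_mul_div_succ N (show 0 < A by omega)
  have hK1 : 1 ≤ K := by rw [hK]; exact Nat.le_add_left 1 _
  set Y := A / P1 with hY
  have hYle : (Y : ℝ) ≤ A / P1 := Nat.cast_div_le
  have hYge : L ^ B ≤ Y := by
    have h1 : (A : ℝ) < P1 * (Y + 1) := by
      have h2 := Nat.lt_mul_div_succ A (show 0 < P1 by omega)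
      rw [← hY] at h2
      exact_mod_cast h2
    have h3 : (P1 : ℝ) * (2 * L ^ B) ≤ A := by
      refine le_trans ?_ hA
      calc (P1 : ℝ) * (2 * L ^ B) ≤ ((x : ℝ) ^ j / 2) * (2 * L ^ B) := by gcongr
        _ = (x : ℝ) ^ j * L ^ B := by ring
    have h4 : (P1 : ℝ) * (2 * L ^ B) < P1 * (Y + 1) := lt_of_le_of_lt h3 h1
    have h5 : 2 * L ^ B < Y + 1 := lt_of_mul_lt_mul_left h4 hP10.le
    have h6 := hp1 B
    linarith
  have hY0 : (0 : ℝ) < Y := lt_of_lt_of_le (hp _) hYge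
  have hY1 : 1 ≤ Y := by exact_mod_cast hY0
  set D : ℝ := L ^ E1 with hD
  have hD1 : 1 ≤ D := hp1 _
  set D1 : ℝ := c * D ^ (m + j) with hD1d
  have hD10 : 0 < D1 := by positivity
  have hD1eq : D1 = c * L ^ ((m + j) * E1) := by rw [hD1d, hD, ← pow_mul, mul_comm E1]
  set Qr : ℝ := 2 * (c * D ^ m) * D1 * (((j + 1).factorial : ℝ) * α) with hQr
  set Q := ⌈Qr⌉₊ with hQ
  have hQr0 : 0 < Qr := by positivity
  have hQlt : (Q : ℝ) < Qr + 1 := Nat.ceil_lt_add_one hQr0.le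
  have hQge : Qr ≤ Q := Nat.le_ceil _
  have hQle : (Q : ℝ) ≤ L ^ EQ := by
    have h1 : Qr ≤ (2 * c ^ 2 * ((j + 1).factorial : ℝ)) * L ^ ((2 * m + j) * E1 + C0) := by
      have e1 : Qr = (2 * c ^ 2 * ((j + 1).factorial : ℝ)) * (L ^ ((2 * m + j) * E1) * α) := by
        rw [hQr, hD1eq, hD, ← pow_mul, show (2 * m + j) * E1 = E1 * m + (m + j) * E1 by ring, pow_add L (E1 * m)]
        ring
      rw [e1, pow_add]
      gcongr
    have h2 : (1 : ℝ) ≤ (2 * c ^ 2 * ((j + 1).factorial : ℝ)) * L ^ ((2 * m + j) * E1 + C0) := by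
      have h3 : (1 : ℝ) ≤ c ^ 2 := one_le_pow₀ hc1
      have h4 : (1 : ℝ) ≤ 2 * c ^ 2 := by linarith
      exact one_le_mul_of_one_le_of_one_le (one_le_mul_of_one_le_of_one_le h4 hfac) (hp1 _)
    calc (Q : ℝ) ≤ 2 * ((2 * c ^ 2 * ((j + 1).factorial : ℝ)) * L ^ ((2 * m + j) * E1 + C0)) := by linarith
      _ = (4 * c ^ 2 * (j + 1).factorial) * L ^ ((2 * m + j) * E1 + C0) := by ring
      _ ≤ L * L ^ ((2 * m + j) * E1 + C0) := by gcongr
      _ = L ^ EQ := by rw [hEQ]; ring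
  have hQx : (Q : ℝ) ≤ x := by
    refine hQle.trans (le_trans ?_ hx2)
    exact pow_le_pow_right₀ hL1 (by omega)
  have hvals : ∀ n ∈ Ioc x1 x, ∀ k < A, |f.eval (n : ℤ) + (a0 + k)| ≤ N := by
    intro n hn k hk
    rw [mem_Ioc] at hn
    exact hval n (by rw [mem_Ioc]; omega) k hk
  have h16 : 16 * A * K = 16 * (A * K) := by ring
  have hM : N + 1 ≤ 16 * A * K := by omega
  have hM2 : 2 * N + 2 ≤ 2 * (A * K) := by omega
  have hAAK : A ≤ A * K := Nat.le_mul_of_pos_right _ hK1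
  have hMN : N + N + A ≤ 16 * A * K := by omega
  have hslo := slo_poly j hj f α x1 x hfd hfα hα hx1one hx1x (by
    intro i hi1 hij
    have h1 := hco i hi1 hij
    have h2 : (x : ℝ) ^ (j + 1 - i) ≤ L ^ ((j + 1) * (U1 + 1)) * (x1 : ℝ) ^ (j + 1 - i) := by
      calc (x : ℝ) ^ (j + 1 - i) ≤ (L ^ (U1 + 1) * x1) ^ (j + 1 - i) := by
            apply pow_le_pow_left₀ hx0.le
            refine hxx1.trans ?_
            rw [pow_succ' L U1]
            gcongr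
            linarith
        _ = L ^ ((U1 + 1) * (j + 1 - i)) * (x1 : ℝ) ^ (j + 1 - i) := by rw [mul_pow, ← pow_mul]
        _ ≤ L ^ ((j + 1) * (U1 + 1)) * (x1 : ℝ) ^ (j + 1 - i) := by
            apply mul_le_mul_of_nonneg_right _ (by positivity)
            apply pow_le_pow_right₀ hL1
            rw [mul_comm]
            exact Nat.mul_le_mul_right _ (by omega)
    calc |((f.coeff i : ℤ) : ℝ)| * (4 * ((j : ℝ) + 1) ^ 3)
        ≤ ((x : ℝ) ^ (j + 1 - i) / L ^ ((j + 1) * (U1 + 1) + 1)) * L := by gcongr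
      _ = (x : ℝ) ^ (j + 1 - i) / L ^ ((j + 1) * (U1 + 1)) := by
          rw [pow_succ L ((j + 1) * (U1 + 1))]
          field_simp
      _ ≤ (x1 : ℝ) ^ (j + 1 - i) := by
          rw [div_le_iff₀ (hp _)]
          linarith)
  set P2 := α * (j + 2) * 2 ^ j * x ^ j with hP2
  have hP2r : (P2 : ℝ) ≤ L ^ (C0 + 1) * (x : ℝ) ^ j := by
    rw [hP2]
    push_cast
    calc (α : ℝ) * ((j : ℝ) + 2) * 2 ^ j * (x : ℝ) ^ j = α * (1 * (((j : ℝ) + 2) * 2 ^ j)) * (x : ℝ) ^ j := by ring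
      _ ≤ L ^ C0 * L * (x : ℝ) ^ j := by
          gcongr
          refine le_trans ?_ hLk
          have h3 : (0 : ℝ) < ((j : ℝ) + 2) * 2 ^ j := by positivity
          calc 1 * (((j : ℝ) + 2) * 2 ^ j) ≤ (8 * c) * (((j : ℝ) + 2) * 2 ^ j) := by
                apply mul_le_mul_of_nonneg_right _ h3.le
                linarith
            _ = _ := by ring
      _ = _ := by ring
  have hP12 : P1 ≤ P2 := by
    have h1 : (P1 : ℝ) ≤ P2 := by
      refine hP1x.trans ?_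
      rw [hP2]
      push_cast
      have h3 : (1 : ℝ) ≤ (α : ℝ) * ((j : ℝ) + 2) * 2 ^ j :=
        one_le_mul_of_one_le_of_one_le (one_le_mul_of_one_le_of_one_le hα1 (by linarith)) h2j
      exact le_trans (by linarith) (mul_le_mul_of_nonneg_right h3 hX0.le)
    exact_mod_cast h1
  have hYx : (Y : ℝ) ≤ 4 * 2 ^ j * L ^ (j * U1) * (x : ℝ) ^ (1 / 2 : ℝ) := by
    refine hYle.trans ?_
    rw [div_le_iff₀ hP10]
    have h1 : (x : ℝ) ^ j ≤ 4 * 2 ^ j * L ^ (j * U1) * P1 := by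
      rw [div_le_iff₀ (by positivity)] at hP1X
      linarith
    calc (A : ℝ) ≤ (x : ℝ) ^ j * (x : ℝ) ^ (1 / 2 : ℝ) := hA32
      _ ≤ (4 * 2 ^ j * L ^ (j * U1) * P1) * (x : ℝ) ^ (1 / 2 : ℝ) := by gcongr
      _ = _ := by ring
  have hδpos : 0 < 2 * D1 ^ 2 / ((x : ℝ) ^ j * Y) + 1 / (16 * (A : ℝ)) := by positivity
  have key := short_coreG (fun n : ℕ => f.eval (n : ℤ)) x1 x P1 P2 A K N Q a0 g (N * L ^ G) (N / L ^ E3)
    (3 / 2 * (x * (Y : ℝ)) / D) (2 * D1 ^ 2 / ((x : ℝ) ^ j * Y) + 1 / (16 * (A : ℝ))) (L ^ (G + 2 * C2) / N)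
    hslo hP1one hP12 (by omega) hA1 hK1 hg hM ?_ ?_ (by positivity) (by exact_mod_cast hQx) hδpos ?_ ?_
    (by positivity) ?_ hG (by positivity) hsup
  · refine key.trans ?_
    exact final_arithG L x ((x : ℝ) ^ j) (2 ^ j) A N (N * L ^ G) Y P1 Q D (L ^ (G + 2 * C2) / N) (N / L ^ E3)
      C4 U2 G (j * U1) EQ E1 C2 E3 h2j hL hx0 hX0 hA0 (by linarith)
      (by rw [pow_succ] at hN; exact hN) rfl hE1 hC2 hE3 hD rfl rfl
      (le_trans (mul_le_mul_of_nonneg_left (pow_le_pow_right₀ hL1 (by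
        rw [hB, hEQ]
        have h1 : E1 ≤ (m + j) * E1 := Nat.le_mul_of_pos_left _ (by omega)
        have h2 : 2 * (m + j) * E1 = 2 * ((m + j) * E1) := by ring
        omega)) hX0.le) hA) hP1X hY0.le hYle (Nat.cast_nonneg _) hQle
  · intro n hn k hk
    have h1 := abs_le.1 (hvals n hn k hk)
    have h2 : (N : ℤ) + N + A ≤ ((16 * A * K : ℕ) : ℤ) := by exact_mod_cast hMN
    have h3 : (1 : ℤ) ≤ A := by exact_mod_cast hA1
    constructor <;> linarith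
  · intro n hn n' hn'
    have h1 := abs_le.1 (hvals n hn 0 hA1)
    have h2 := abs_le.1 (hvals n' hn' 0 hA1)
    have h3 : |f.eval (n : ℤ) - f.eval (n' : ℤ)| ≤ N + N := by
      rw [abs_le]
      constructor <;> linarith
    have h4 : (f.eval (n : ℤ) - f.eval (n' : ℤ)).natAbs ≤ N + N := by
      have : (((f.eval (n : ℤ) - f.eval (n' : ℤ)).natAbs : ℕ) : ℤ) ≤ N + N := by rw [Int.natCast_natAbs]; exact h3
      exact_mod_cast this
    omega
  · -- small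
    have h1 : 2 * D1 ^ 2 / ((x : ℝ) ^ j * Y) * (Q * P2) ≤ 1 / 4 := by
      have h2 : 2 * D1 ^ 2 / ((x : ℝ) ^ j * Y) * (Q * P2) ≤
          2 * D1 ^ 2 / ((x : ℝ) ^ j * Y) * (L ^ EQ * (L ^ (C0 + 1) * (x : ℝ) ^ j)) := by gcongr
      refine h2.trans ?_
      have h3 : 2 * D1 ^ 2 / ((x : ℝ) ^ j * Y) * (L ^ EQ * (L ^ (C0 + 1) * (x : ℝ) ^ j)) =
          (2 * D1 ^ 2 * L ^ EQ * L ^ (C0 + 1)) / Y := by
        field_simp
      rw [h3, div_le_div_iff₀ hY0 (by norm_num), hD1eq]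
      calc 2 * (c * L ^ ((m + j) * E1)) ^ 2 * L ^ EQ * L ^ (C0 + 1) * 4 =
          (8 * c ^ 2) * L ^ (2 * (m + j) * E1 + EQ + C0 + 1) := by ring
        _ ≤ L * L ^ (2 * (m + j) * E1 + EQ + C0 + 1) := by gcongr
        _ = L ^ (2 * (m + j) * E1 + EQ + C0 + 2) := by ring
        _ ≤ L ^ B := pow_le_pow_right₀ hL1 (by omega)
        _ ≤ 1 * Y := by linarith
    have h3 : 1 / (16 * (A : ℝ)) * (Q * P2) ≤ 1 / 4 := by
      rw [one_div_mul_eq_div, div_le_div_iff₀ (by positivity) (by norm_num)]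
      calc (Q : ℝ) * P2 * 4 ≤ L ^ EQ * (L ^ (C0 + 1) * (x : ℝ) ^ j) * 4 := by gcongr
        _ = 4 * ((x : ℝ) ^ j * L ^ (EQ + C0 + 1)) := by ring
        _ ≤ 4 * ((x : ℝ) ^ j * L ^ B) := by
            apply mul_le_mul_of_nonneg_left _ (by norm_num)
            exact mul_le_mul_of_nonneg_left (pow_le_pow_right₀ hL1 (by omega)) hX0.le
        _ ≤ 4 * A := by linarith
        _ ≤ 1 * (16 * A) := by linarith
    rw [add_mul]
    linarith
  · -- minor arcs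
    intro h hmaj
    have h1 := hmp f α hfd hfα hα x1 x A K Y Q D hD1 (by omega) hA1 hK1 hY1 ?_ hQge h hmaj
    · exact h1
    · have h2 : D1 * (Y : ℝ) ≤ L ^ ((m + j) * E1 + j * U1 + 1) * (x : ℝ) ^ (1 / 2 : ℝ) := by
        calc D1 * (Y : ℝ) ≤ (c * L ^ ((m + j) * E1)) * (4 * 2 ^ j * L ^ (j * U1) * (x : ℝ) ^ (1 / 2 : ℝ)) := by
              rw [hD1eq]
              gcongr
          _ = (4 * c * 2 ^ j) * (L ^ ((m + j) * E1 + j * U1) * (x : ℝ) ^ (1 / 2 : ℝ)) := by ring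
          _ ≤ L * (L ^ ((m + j) * E1 + j * U1) * (x : ℝ) ^ (1 / 2 : ℝ)) := by
              gcongr
              refine le_trans ?_ hLk
              have h3 : (0 : ℝ) < c * 2 ^ j := by positivity
              calc 4 * (c : ℝ) * 2 ^ j = (c * 2 ^ j) * 4 := by ring
                _ ≤ (c * 2 ^ j) * (8 * (j + 2)) := mul_le_mul_of_nonneg_left (by linarith) h3.le
                _ = _ := by ring
          _ = _ := by ring
      have h3 : D1 * D1 ≤ L ^ (2 * (m + j) * E1 + 1) * (x : ℝ) ^ (1 / 2 : ℝ) := by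
        have h4 : (1 : ℝ) ≤ (x : ℝ) ^ (1 / 2 : ℝ) := Real.one_le_rpow (by linarith) (by norm_num)
        rw [hD1eq]
        calc (c : ℝ) * L ^ ((m + j) * E1) * (c * L ^ ((m + j) * E1)) = c ^ 2 * L ^ (2 * (m + j) * E1) * 1 := by ring
          _ ≤ L * L ^ (2 * (m + j) * E1) * (x : ℝ) ^ (1 / 2 : ℝ) := by
              gcongr
              refine le_trans ?_ hLc2
              linarith [sq_nonneg (c : ℝ)]
          _ = _ := by ring
      have h4 : L ^ ((m + j) * E1 + j * U1 + 1) ≤ L ^ (2 * (m + j) * E1 + j * U1 + 1) := by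
        apply pow_le_pow_right₀ hL1
        have : 2 * (m + j) * E1 = (m + j) * E1 + (m + j) * E1 := by ring
        omega
      have h5 : L ^ (2 * (m + j) * E1 + 1) ≤ L ^ (2 * (m + j) * E1 + j * U1 + 1) :=
        pow_le_pow_right₀ hL1 (by omega)
      have hxh0 : (0 : ℝ) < (x : ℝ) ^ (1 / 2 : ℝ) := by positivity
      calc 2 * D1 * (Y : ℝ) + 2 * D1 * D1 = 2 * (D1 * Y) + 2 * (D1 * D1) := by ring
        _ ≤ 2 * (L ^ (2 * (m + j) * E1 + j * U1 + 1) * (x : ℝ) ^ (1 / 2 : ℝ)) +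
            2 * (L ^ (2 * (m + j) * E1 + j * U1 + 1) * (x : ℝ) ^ (1 / 2 : ℝ)) := by
            exact add_le_add (mul_le_mul_of_nonneg_left (h2.trans (mul_le_mul_of_nonneg_right h4 hxh0.le)) (by norm_num))
              (mul_le_mul_of_nonneg_left (h3.trans (mul_le_mul_of_nonneg_right h5 hxh0.le)) (by norm_num))
        _ = (4 * L ^ (2 * (m + j) * E1 + j * U1 + 1)) * (x : ℝ) ^ (1 / 2 : ℝ) := by ring
        _ ≤ (x : ℝ) ^ (1 / 4 : ℝ) * (x : ℝ) ^ (1 / 2 : ℝ) := by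
            gcongr
            refine le_trans ?_ hx1
            calc 4 * L ^ (2 * (m + j) * E1 + j * U1 + 1) ≤ L * L ^ (2 * (m + j) * E1 + j * U1 + 1) := by
                  gcongr; linarith
              _ = L ^ (2 * (m + j) * E1 + j * U1 + 2) := by ring
              _ ≤ _ := pow_le_pow_right₀ hL1 (by omega)
        _ < x := by
            rw [← Real.rpow_add hx0]
            calc (x : ℝ) ^ ((1 / 4 : ℝ) + 1 / 2) < (x : ℝ) ^ (1 : ℝ) :=
                  Real.rpow_lt_rpow_of_exponent_lt (by linarith) (by norm_num)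
              _ = x := Real.rpow_one _
        _ ≤ (x : ℝ) ^ j := le_self_pow₀ (by linarith) (by omega)
  · -- delta M
    rw [div_mul_eq_mul_div, le_div_iff₀ (by linarith), one_mul]
    have h1 : (N : ℝ) ≤ ((16 * A * K : ℕ) : ℝ) := by exact_mod_cast (by omega : N ≤ 16 * A * K)
    have h2 := hp1 (G + 2 * C2)
    have h3 : (0 : ℝ) ≤ ((16 * A * K : ℕ) : ℝ) := Nat.cast_nonneg _
    exact le_trans (by linarith) (mul_le_mul_of_nonneg_right h2 h3)

end Pool.Agent.W81.RD
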