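import Pool.Agent.W81.RD.ReflG
import Pool.Agent.W81.R1.GFun

/-!
Almost all shifts in a short interval, for all lengths, polynomials of arbitrary degree.
-/

set_option autoImplicit false

namespace Pool.Agent.W81.RD

open Finset Filter Polynomial
open Pool.Agent.H469R2.NK (e norm_e)
open Pool.Agent.W81.R1
open Pool.Agent.H442R2.EHI (evt_log_pow evt_log_ge)
open Pool.Agent.H300R2.BH (chf fz)

lemma gI_abs (z N : ℕ) (b : ℝ) (hb : 0 ≤ b) (h : ∀ n : ℕ, 1 ≤ n → n ≤ N → |gt z n| ≤ b) (v : ℤ)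
    (hv : v ≤ N) : |gI z v| ≤ b := by
  unfold gI
  split_ifs with h1
  · exact h v.toNat (by omega) (by omega)
  · simpa using hb

/-- the second moment -/
theorem mean2G (j : ℕ) (hj : 1 ≤ j) (σ : ℤ) (hσ : σ = 1 ∨ σ = -1) (C0 C4 U : ℕ) : ∃ Bz B : ℕ, ∀ E : ℕ, ∀ᶠ y : ℕ in atTop,
    ∀ (f : ℤ[X]) (α A N z : ℕ) (a0 : ℤ), f.natDegree ≤ j + 1 → f.coeff (j + 1) = α → 1 ≤ α →
      (α : ℝ) ≤ Real.log y ^ C0 →
      (∀ i, 1 ≤ i → i ≤ j → |((f.coeff i : ℤ) : ℝ)| ≤
        (y : ℝ) ^ (j + 1 - i) / Real.log y ^ ((j + 1) * (U + 5) + 1)) →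
      (y : ℝ) ^ j * Real.log y ^ B ≤ A → (A : ℝ) ≤ (y : ℝ) ^ j * (y : ℝ) ^ (1 / 2 : ℝ) →
      y ≤ N → (N : ℝ) ≤ (y : ℝ) ^ (j + 1) * Real.log y ^ C4 →
      (∀ n ∈ Ioc 0 y, ∀ k < A, |σ * f.eval (n : ℤ) + (a0 + k)| ≤ N) →
      ((j + 2) * Real.log y) ^ Bz ≤ z → (z : ℝ) ≤ Real.log y ^ E →
      ∑ k ∈ range A, (∑ n ∈ Ioc 0 y, gI z (σ * f.eval (n : ℤ) + (a0 + k))) ^ 2 ≤
        A * (y : ℝ) ^ 2 / Real.log y ^ U := by
  obtain ⟨E3, B, hlog⟩ := short_logS j hj σ hσ C0 C4 (U + 4) (U + 1) 4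
  obtain ⟨Bz, hBz⟩ := sup_gt E3
  refine ⟨Bz, B, fun E => ?_⟩
  obtain ⟨N1, hN1⟩ := hBz E
  obtain ⟨N2, hN2⟩ := gt_abs E
  filter_upwards [hlog, evt_log_ge 20, evt_log_ge (j + 2), evt_log_pow C4 1 (by norm_num),
    eventually_ge_atTop N1, eventually_ge_atTop N2, eventually_ge_atTop 16]
    with y hmain hL hLj hC4 hyN1 hyN2 hy16 f α A N z a0 hfd hfα hα hαL hco hA hA32 hyN hN hval hz hzE
  rw [Real.rpow_one] at hC4
  set L := Real.log y with hLd
  have hL0 : 0 < L := by linarith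
  have hL1 : 1 ≤ L := by linarith
  have hp1 : ∀ n : ℕ, 1 ≤ L ^ n := fun n => one_le_pow₀ hL1
  have hyr : (16 : ℝ) ≤ y := by exact_mod_cast hy16
  have hy0 : (0 : ℝ) < y := by linarith
  have hN1' : 1 ≤ N := by omega
  have hNr : (1 : ℝ) ≤ N := by exact_mod_cast hN1'
  set ℓ := Real.log N with hℓ
  have hLℓ : L ≤ ℓ := Real.log_le_log hy0 (by exact_mod_cast hyN)
  have hj0 : (0 : ℝ) ≤ j := Nat.cast_nonneg _
  have hℓ3 : ℓ ≤ (j + 2) * L := by
    have h1 : (N : ℝ) ≤ (y : ℝ) ^ (j + 2) := by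
      calc (N : ℝ) ≤ (y : ℝ) ^ (j + 1) * L ^ C4 := hN
        _ ≤ (y : ℝ) ^ (j + 1) * y := by gcongr
        _ = _ := by ring
    have h2 := Real.log_le_log (by linarith) h1
    rw [Real.log_pow] at h2
    push_cast at h2
    exact h2
  have hℓLL : ℓ ≤ L * L := hℓ3.trans (by gcongr)
  have hj2L : 1 ≤ ((j : ℝ) + 2) * L := by nlinarith
  have hz1 : 1 ≤ z := by
    have h1 : (1 : ℝ) ≤ ((j + 2) * L) ^ Bz := one_le_pow₀ hj2L
    exact_mod_cast h1.trans hz
  have habs : ∀ n : ℕ, 1 ≤ n → n ≤ N → |gt z n| ≤ ℓ := hN2 N (by omega) z hz1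
    (hzE.trans (pow_le_pow_left₀ hL0.le hLℓ _))
  have hsup := hN1 N (by omega) z (le_trans (pow_le_pow_left₀ (by linarith) hℓ3 _) hz)
    (hzE.trans (pow_le_pow_left₀ hL0.le hLℓ _))
  set g : ℕ → ℂ := fun n => if n ≤ N then ((gt z n : ℝ) : ℂ) else 0 with hg
  have h1 := hmain f α A N a0 g hfd hfα hα hαL hco hA hA32 hN1' hN
    (fun n hn => by simp only [hg]; rw [if_neg (by omega)]) hval ?_ ?_
  · set x1 := ⌊(y : ℝ) / L ^ (U + 4)⌋₊ with hx1
    have hx1y : x1 ≤ y := by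
      have : (x1 : ℝ) ≤ y := by
        refine (Nat.floor_le (by positivity)).trans ?_
        rw [div_le_iff₀ (by positivity)]
        nlinarith [hp1 (U + 4)]
      exact_mod_cast this
    have hsplit : ∀ k ∈ range A, (∑ n ∈ Ioc 0 y, gI z (σ * f.eval (n : ℤ) + (a0 + k))) ^ 2 ≤
        2 * (y / L ^ (U + 2)) ^ 2 +
        2 * ‖∑ n ∈ Ioc x1 y, fz g (σ * f.eval (n : ℤ) + (a0 + k))‖ ^ 2 := by
      intro k hk
      rw [mem_range] at hk
      have e1 : ∑ n ∈ Ioc 0 y, gI z (σ * f.eval (n : ℤ) + (a0 + k)) =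
          ∑ n ∈ Ioc 0 x1, gI z (σ * f.eval (n : ℤ) + (a0 + k)) + ∑ n ∈ Ioc x1 y, gI z (σ * f.eval (n : ℤ) + (a0 + k)) := by
        rw [← sum_union]
        · congr 1
          ext n
          simp only [mem_Ioc, mem_union]
          omega
        · rw [disjoint_left]
          intro n hn hn2
          rw [mem_Ioc] at hn hn2
          omega
      have e2 : |∑ n ∈ Ioc 0 x1, gI z (σ * f.eval (n : ℤ) + (a0 + k))| ≤ y / L ^ (U + 2) := by
        refine (abs_sum_le_sum_abs _ _).trans ?_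
        calc ∑ n ∈ Ioc 0 x1, |gI z (σ * f.eval (n : ℤ) + (a0 + k))| ≤ ∑ n ∈ Ioc 0 x1, ℓ := by
              refine sum_le_sum fun n hn => ?_
              rw [mem_Ioc] at hn
              apply gI_abs z N ℓ (by linarith) habs
              exact (abs_le.1 (hval n (by rw [mem_Ioc]; omega) k hk)).2
          _ = x1 * ℓ := by rw [sum_const, Nat.card_Ioc, nsmul_eq_mul, Nat.sub_zero]
          _ ≤ (y / L ^ (U + 4)) * (L * L) := by
              gcongr
              exact Nat.floor_le (by positivity)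
          _ = y / L ^ (U + 2) := by
              rw [show U + 4 = (U + 2) + 2 by ring, pow_add L (U + 2)]
              field_simp
      have e3 : |∑ n ∈ Ioc x1 y, gI z (σ * f.eval (n : ℤ) + (a0 + k))| =
          ‖∑ n ∈ Ioc x1 y, fz g (σ * f.eval (n : ℤ) + (a0 + k))‖ := by
        have h2 : ∑ n ∈ Ioc x1 y, fz g (σ * f.eval (n : ℤ) + (a0 + k)) =
            ((∑ n ∈ Ioc x1 y, gI z (σ * f.eval (n : ℤ) + (a0 + k)) : ℝ) : ℂ) := by
          rw [Complex.ofReal_sum]
          refine sum_congr rfl fun n hn => ?_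
          rw [mem_Ioc] at hn
          have h3 := (abs_le.1 (hval n (by rw [mem_Ioc]; omega) k hk)).2
          unfold fz gI
          simp only [hg]
          split_ifs with h4 h5
          · rfl
          · omega
          · simp
        rw [h2, Complex.norm_real, Real.norm_eq_abs]
      rw [e1, ← e3]
      set a := ∑ n ∈ Ioc 0 x1, gI z (σ * f.eval (n : ℤ) + (a0 + k))
      set b := ∑ n ∈ Ioc x1 y, gI z (σ * f.eval (n : ℤ) + (a0 + k))
      have h5 : a ^ 2 ≤ (y / L ^ (U + 2)) ^ 2 := by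
        rw [← sq_abs a]
        exact pow_le_pow_left₀ (abs_nonneg _) e2 2
      rw [sq_abs]
      nlinarith [sq_nonneg (a - b)]
    refine (sum_le_sum hsplit).trans ?_
    rw [sum_add_distrib, sum_const, card_range, nsmul_eq_mul, ← mul_sum]
    have hA0 : (0 : ℝ) ≤ A := Nat.cast_nonneg _
    have t1 : (A : ℝ) * (2 * ((y : ℝ) / L ^ (U + 2)) ^ 2) ≤ A * (y : ℝ) ^ 2 / L ^ U / 2 := by
      rw [div_pow, div_div, le_div_iff₀ (by positivity)]
      have e1 : (A : ℝ) * (2 * ((y : ℝ) ^ 2 / (L ^ (U + 2)) ^ 2)) * (L ^ U * 2) =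
          (A * (y : ℝ) ^ 2) * (4 / (L ^ 4 * L ^ U)) := by
        rw [show (L ^ (U + 2)) ^ 2 = L ^ 4 * L ^ U * L ^ U by ring]
        field_simp
        ring
      rw [e1]
      have e2 : 4 / (L ^ 4 * L ^ U) ≤ 1 := by
        rw [div_le_one (by positivity)]
        have e3 : (4 : ℝ) ≤ L ^ 4 := by
          calc (4 : ℝ) ≤ 20 ^ 4 := by norm_num
            _ ≤ L ^ 4 := pow_le_pow_left₀ (by norm_num) hL 4
        have e4 := hp1 U
        nlinarith
      nlinarith [mul_nonneg hA0 (sq_nonneg (y : ℝ))]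
    have t2 : 2 * ∑ k ∈ range A, ‖∑ n ∈ Ioc x1 y, fz g (σ * f.eval (n : ℤ) + (a0 + k))‖ ^ 2 ≤
        A * (y : ℝ) ^ 2 / L ^ U / 2 := by
      refine (mul_le_mul_of_nonneg_left h1 (by norm_num)).trans ?_
      rw [pow_succ L U, div_div, mul_div_assoc', div_le_div_iff₀ (by positivity) (by positivity)]
      have e1 : 0 ≤ (A : ℝ) * (y : ℝ) ^ 2 * L ^ U := by positivity
      nlinarith
    linarith
  · -- second moment of g
    calc ∑ n ∈ Icc 1 N, ‖g n‖ ^ 2 ≤ ∑ n ∈ Icc 1 N, (L * L) ^ 2 := by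
          refine sum_le_sum fun n hn => ?_
          rw [mem_Icc] at hn
          simp only [hg]
          rw [if_pos hn.2, Complex.norm_real, Real.norm_eq_abs]
          exact pow_le_pow_left₀ (abs_nonneg _) ((habs n hn.1 hn.2).trans hℓLL) 2
      _ = N * L ^ 4 := by
          rw [sum_const, Nat.card_Icc, nsmul_eq_mul, Nat.add_sub_cancel]
          ring
  · intro t
    have h2 : ∑ n ∈ Icc 1 N, g n * e (n * t) = ∑ n ∈ Icc 1 N, ((gt z n : ℝ) : ℂ) * e (n * t) := by
      refine sum_congr rfl fun n hn => ?_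
      rw [mem_Icc] at hn
      simp only [hg]
      rw [if_pos hn.2]
    rw [h2]
    refine (hsup t).trans ?_
    gcongr

/-- almost all shifts in a short interval, for all lengths -/
theorem all_yG (j : ℕ) (hj : 1 ≤ j) (σ : ℤ) (hσ : σ = 1 ∨ σ = -1) (C0 C4 U V : ℕ) : ∃ Bz B : ℕ, ∀ E : ℕ, ∀ᶠ x : ℕ in atTop,
    ∀ (f : ℤ[X]) (α A N z : ℕ) (a0 : ℤ), f.natDegree ≤ j + 1 → f.coeff (j + 1) = α → 1 ≤ α →
      (α : ℝ) ≤ Real.log x ^ C0 →
      (∀ i, 1 ≤ i → i ≤ j → |((f.coeff i : ℤ) : ℝ)| ≤ (x : ℝ) ^ (j + 1 - i) / Real.log x ^ B) →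
      (x : ℝ) ^ j * Real.log x ^ B ≤ A → (A : ℝ) ≤ (x : ℝ) ^ j * (x : ℝ) ^ (1 / 4 : ℝ) →
      x ≤ N → (N : ℝ) ≤ (x : ℝ) ^ (j + 1) * Real.log x ^ C4 →
      (∀ n ∈ Ioc 0 x, ∀ k < A, |σ * f.eval (n : ℤ) + (a0 + k)| ≤ N) →
      ((j + 2) * Real.log x) ^ Bz ≤ z → (z : ℝ) ≤ Real.log x ^ E →
      ∃ Bad : Finset ℕ, (Bad.card : ℝ) ≤ A / Real.log x ^ U ∧ ∀ k < A, k ∉ Bad → ∀ y ≤ x,
        |∑ n ∈ Ioc 0 y, gI z (σ * f.eval (n : ℤ) + (a0 + k))| ≤ x / Real.log x ^ V := by
  set U' := U + 3 * V + 6 with hU'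
  obtain ⟨Bz, B1, hm⟩ := mean2G j hj σ hσ (C0 + 1) (C4 + (V + 4) * (j + 1) + 1) U'
  set B := max B1 ((V + 4) * (j + 1) + ((j + 1) * (U' + 5) + 1)) with hB
  refine ⟨Bz, B, fun E => ?_⟩
  obtain ⟨y0, hy0⟩ := eventually_atTop.mp (hm (E + 1))
  obtain ⟨N2, hN2⟩ := gt_abs E
  filter_upwards [evt_log_ge (2 ^ (U' + 10)), evt_log_ge (2 ^ (C0 + E + C4 + (V + 4) * (j + 1) + 20)),
    evt_log_ge (j + 2),
    evt_log_pow ((V + 4) * (j + 1)) (1 / 6) (by norm_num), evt_log_pow C4 1 (by norm_num),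
    (tendsto_rpow_atTop (show (0 : ℝ) < 5 / 6 by norm_num)).comp
      (tendsto_natCast_atTop_atTop (R := ℝ)) |>.eventually_ge_atTop (y0 : ℝ),
    eventually_ge_atTop N2, eventually_ge_atTop 16]
    with x hLU hLC hLj hVj hC4 hxy0 hxN2 hx16 f α A N z a0 hfd hfα hα hαL hco hA hA54 hxN hN hval hz hzE
  rw [Real.rpow_one] at hC4
  simp only [Function.comp] at hxy0
  set L := Real.log x with hLd
  have hL1024 : 1024 ≤ L := by
    refine le_trans ?_ hLU
    calc (1024 : ℝ) = 2 ^ 10 := by norm_num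
      _ ≤ 2 ^ (U' + 10) := pow_le_pow_right₀ (by norm_num) (by omega)
  have hL0 : 0 < L := by linarith
  have hL1 : 1 ≤ L := by linarith
  have hp : ∀ n : ℕ, 0 < L ^ n := fun n => by positivity
  have hp1 : ∀ n : ℕ, 1 ≤ L ^ n := fun n => one_le_pow₀ hL1
  have hxr : (16 : ℝ) ≤ x := by exact_mod_cast hx16
  have hx0 : (0 : ℝ) < x := by linarith
  have hN1' : 1 ≤ N := by omega
  have hNr : (1 : ℝ) ≤ N := by exact_mod_cast hN1'
  have hA0 : (0 : ℝ) ≤ A := Nat.cast_nonneg _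
  set ℓ := Real.log N with hℓ
  have hLℓ : L ≤ ℓ := Real.log_le_log hx0 (by exact_mod_cast hxN)
  have hj0 : (0 : ℝ) ≤ j := Nat.cast_nonneg _
  have hV4 : L ^ (V + 4) ≤ (x : ℝ) ^ (1 / 6 : ℝ) := by
    refine le_trans (pow_le_pow_right₀ hL1 ?_) hVj
    nlinarith
  have hℓ3 : ℓ ≤ (j + 2) * L := by
    have h1 : (N : ℝ) ≤ (x : ℝ) ^ (j + 2) := by
      calc (N : ℝ) ≤ (x : ℝ) ^ (j + 1) * L ^ C4 := hN
        _ ≤ (x : ℝ) ^ (j + 1) * x := by gcongr
        _ = _ := by ring
    have h2 := Real.log_le_log (by linarith) h1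
    rw [Real.log_pow] at h2
    push_cast at h2
    exact h2
  have hℓLL : ℓ ≤ L * L := hℓ3.trans (by gcongr)
  have hj2L : 1 ≤ ((j : ℝ) + 2) * L := by nlinarith
  have hz1 : 1 ≤ z := by
    have h1 : (1 : ℝ) ≤ ((j + 2) * L) ^ Bz := one_le_pow₀ hj2L
    exact_mod_cast h1.trans hz
  have habs : ∀ n : ℕ, 1 ≤ n → n ≤ N → |gt z n| ≤ ℓ := hN2 N (by omega) z hz1
    (hzE.trans (pow_le_pow_left₀ hL0.le hLℓ _))
  set S : ℕ → ℕ → ℝ := fun k y => ∑ n ∈ Ioc 0 y, gI z (σ * f.eval (n : ℤ) + (a0 + k)) with hS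
  set R := ⌈L ^ (V + 3)⌉₊ with hR
  have hRge : L ^ (V + 3) ≤ R := Nat.le_ceil _
  have hRlt : (R : ℝ) ≤ 2 * L ^ (V + 3) := by
    have h1 : (R : ℝ) < L ^ (V + 3) + 1 := Nat.ceil_lt_add_one (by positivity)
    have := hp1 (V + 3)
    linarith
  have hR1 : 1 ≤ R := by
    have : (1 : ℝ) ≤ R := (hp1 _).trans hRge
    exact_mod_cast this
  have hR0 : (0 : ℝ) < R := by exact_mod_cast hR1
  -- every grid point
  have hgrid : ∀ y : ℕ, y ≤ x → (x : ℝ) / L ^ (V + 4) ≤ y →
      ((((range A).filter (fun k => (x : ℝ) / (2 * L ^ V) < |S k y|)).card : ℕ) : ℝ) ≤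
        A / L ^ (U + V + 4) := by
    intro y hyx hylo
    have hyxr : (y : ℝ) ≤ x := by exact_mod_cast hyx
    have h56 : (x : ℝ) ^ (5 / 6 : ℝ) ≤ y := by
      refine le_trans ?_ hylo
      rw [le_div_iff₀ (hp _)]
      calc (x : ℝ) ^ (5 / 6 : ℝ) * L ^ (V + 4) ≤ (x : ℝ) ^ (5 / 6 : ℝ) * (x : ℝ) ^ (1 / 6 : ℝ) := by gcongr
        _ = x := by rw [← Real.rpow_add hx0]; norm_num
    have hypos : (0 : ℝ) < y := lt_of_lt_of_le (by positivity) hylo
    have hyy0 : y0 ≤ y := by exact_mod_cast hxy0.trans h56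
    set M := Real.log y with hM
    have hML : M ≤ L := Real.log_le_log hypos hyxr
    have hLM : L ≤ 2 * M := by
      have h1 := Real.log_le_log (by positivity) h56
      rw [Real.log_rpow hx0] at h1
      linarith
    have hM0 : 0 < M := by linarith
    have hM1 : 1 ≤ M := by linarith
    have h2M : ∀ n : ℕ, n ≤ C0 + E + C4 + (V + 4) * (j + 1) + 19 → L ^ n ≤ M ^ (n + 1) := by
      intro n hn
      calc L ^ n ≤ (2 * M) ^ n := pow_le_pow_left₀ hL0.le hLM n
        _ = 2 ^ n * M ^ n := by rw [mul_pow]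
        _ ≤ M * M ^ n := by
            gcongr
            have h3 : (2 : ℝ) ^ (n + 1) ≤ 2 ^ (C0 + E + C4 + (V + 4) * (j + 1) + 20) :=
              pow_le_pow_right₀ (by norm_num) (by omega)
            have h4 : (2 : ℝ) ^ (n + 1) = 2 * 2 ^ n := by ring
            linarith
        _ = M ^ (n + 1) := by ring
    have hmy := hy0 y hyy0 f α A N z a0 hfd hfα hα (hαL.trans (h2M C0 (by omega))) ?_ ?_ ?_ (hyx.trans hxN) ?_
      (fun n hn k hk => hval n (by rw [mem_Ioc] at hn ⊢; omega) k hk)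
      (le_trans (pow_le_pow_left₀ (by positivity) (mul_le_mul_of_nonneg_left hML (by linarith)) _) hz) (hzE.trans (h2M E (by omega)))
    · -- conclusion
      set Bd := (range A).filter (fun k => (x : ℝ) / (2 * L ^ V) < |S k y|) with hBd
      have h1 : (Bd.card : ℝ) * ((x : ℝ) / (2 * L ^ V)) ^ 2 ≤ A * (y : ℝ) ^ 2 / M ^ U' := by
        refine le_trans ?_ hmy
        calc (Bd.card : ℝ) * ((x : ℝ) / (2 * L ^ V)) ^ 2 = ∑ k ∈ Bd, ((x : ℝ) / (2 * L ^ V)) ^ 2 := by
              rw [sum_const, nsmul_eq_mul]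
          _ ≤ ∑ k ∈ Bd, (S k y) ^ 2 := by
              refine sum_le_sum fun k hk => ?_
              rw [hBd, mem_filter] at hk
              rw [← sq_abs (S k y)]
              exact pow_le_pow_left₀ (by positivity) hk.2.le 2
          _ ≤ ∑ k ∈ range A, (S k y) ^ 2 :=
              sum_le_sum_of_subset_of_nonneg (filter_subset _ _) fun _ _ _ => sq_nonneg _
      have h2 : A * (y : ℝ) ^ 2 / M ^ U' ≤ A * (x : ℝ) ^ 2 * 2 ^ U' / L ^ U' := by
        rw [div_le_div_iff₀ (by positivity) (hp _)]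
        calc A * (y : ℝ) ^ 2 * L ^ U' ≤ A * (x : ℝ) ^ 2 * (2 * M) ^ U' := by gcongr
          _ = _ := by rw [mul_pow]; ring
      have h3 : (Bd.card : ℝ) * (x : ℝ) ^ 2 ≤ (A / L ^ (U + V + 4)) * (x : ℝ) ^ 2 := by
        have h4 : (Bd.card : ℝ) * (x : ℝ) ^ 2 = ((Bd.card : ℝ) * ((x : ℝ) / (2 * L ^ V)) ^ 2) * (4 * L ^ (2 * V)) := by
          rw [div_pow, mul_pow, ← pow_mul, mul_comm V 2]
          field_simp
          ring
        rw [h4]
        calc ((Bd.card : ℝ) * ((x : ℝ) / (2 * L ^ V)) ^ 2) * (4 * L ^ (2 * V))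
            ≤ (A * (x : ℝ) ^ 2 * 2 ^ U' / L ^ U') * (4 * L ^ (2 * V)) := by
              gcongr
              exact h1.trans h2
          _ = (4 * 2 ^ U') * (A * (x : ℝ) ^ 2) / L ^ (U + V + 6) := by
              rw [hU', show U + 3 * V + 6 = (U + V + 6) + 2 * V by ring, pow_add L (U + V + 6)]
              field_simp
          _ ≤ L * (A * (x : ℝ) ^ 2) / L ^ (U + V + 6) := by
              gcongr
              refine le_trans ?_ hLU
              rw [pow_add 2 U' 10]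
              have : (0 : ℝ) < 2 ^ U' := by positivity
              norm_num
              linarith
          _ ≤ (A / L ^ (U + V + 4)) * (x : ℝ) ^ 2 := by
              rw [show U + V + 6 = (U + V + 4) + 2 by ring, pow_add L (U + V + 4), div_mul_eq_mul_div,
                div_le_div_iff₀ (by positivity) (by positivity)]
              calc L * (A * (x : ℝ) ^ 2) * L ^ (U + V + 4) = (A * (x : ℝ) ^ 2) * (L ^ (U + V + 4) * L) := by ring
                _ ≤ (A * (x : ℝ) ^ 2) * (L ^ (U + V + 4) * L ^ 2) := by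
                    gcongr
                    nlinarith
      exact le_of_mul_le_mul_right h3 (by positivity)
    · -- coefficients
      intro i hi1 hij
      refine (hco i hi1 hij).trans ?_
      rw [div_le_div_iff₀ (hp _) (by positivity)]
      rw [div_le_iff₀ (hp _)] at hylo
      calc (x : ℝ) ^ (j + 1 - i) * M ^ ((j + 1) * (U' + 5) + 1)
          ≤ (y * L ^ (V + 4)) ^ (j + 1 - i) * L ^ ((j + 1) * (U' + 5) + 1) := by gcongr
        _ = (y : ℝ) ^ (j + 1 - i) * L ^ ((V + 4) * (j + 1 - i) + ((j + 1) * (U' + 5) + 1)) := by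
            rw [mul_pow, ← pow_mul, pow_add]
            ring
        _ ≤ (y : ℝ) ^ (j + 1 - i) * L ^ B := by
            apply mul_le_mul_of_nonneg_left _ (by positivity)
            apply pow_le_pow_right₀ hL1
            refine le_trans ?_ (le_max_right _ _)
            exact Nat.add_le_add_right (Nat.mul_le_mul_left _ (by omega)) _
    · -- A lower
      refine le_trans ?_ hA
      calc (y : ℝ) ^ j * M ^ B1 ≤ (x : ℝ) ^ j * L ^ B1 := by gcongr
        _ ≤ (x : ℝ) ^ j * L ^ B := by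
            apply mul_le_mul_of_nonneg_left _ (by positivity)
            exact pow_le_pow_right₀ hL1 (le_max_left _ _)
    · -- A upper
      refine hA54.trans ?_
      rw [div_le_iff₀ (hp _)] at hylo
      have h512 : (x : ℝ) ^ (5 / 12 : ℝ) ≤ (y : ℝ) ^ (1 / 2 : ℝ) := by
        calc (x : ℝ) ^ (5 / 12 : ℝ) = ((x : ℝ) ^ (5 / 6 : ℝ)) ^ (1 / 2 : ℝ) := by
              rw [← Real.rpow_mul hx0.le]; norm_num
          _ ≤ (y : ℝ) ^ (1 / 2 : ℝ) := Real.rpow_le_rpow (by positivity) h56 (by norm_num)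
      have hVj2 : L ^ ((V + 4) * j) ≤ (x : ℝ) ^ (1 / 6 : ℝ) := by
        refine le_trans (pow_le_pow_right₀ hL1 ?_) hVj
        exact Nat.mul_le_mul_left _ (by omega)
      calc (x : ℝ) ^ j * (x : ℝ) ^ (1 / 4 : ℝ) ≤ (y * L ^ (V + 4)) ^ j * (x : ℝ) ^ (1 / 4 : ℝ) := by gcongr
        _ = (y : ℝ) ^ j * (L ^ ((V + 4) * j) * (x : ℝ) ^ (1 / 4 : ℝ)) := by
            rw [mul_pow, ← pow_mul]; ring
        _ ≤ (y : ℝ) ^ j * ((x : ℝ) ^ (1 / 6 : ℝ) * (x : ℝ) ^ (1 / 4 : ℝ)) := by gcongr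
        _ = (y : ℝ) ^ j * (x : ℝ) ^ (5 / 12 : ℝ) := by
            rw [← Real.rpow_add hx0]; norm_num
        _ ≤ _ := by gcongr
    · -- N upper
      refine hN.trans ?_
      rw [div_le_iff₀ (hp _)] at hylo
      calc (x : ℝ) ^ (j + 1) * L ^ C4 ≤ (y * L ^ (V + 4)) ^ (j + 1) * L ^ C4 := by gcongr
        _ = (y : ℝ) ^ (j + 1) * L ^ (C4 + (V + 4) * (j + 1)) := by
            rw [mul_pow, ← pow_mul, pow_add L C4]; ring
        _ ≤ (y : ℝ) ^ (j + 1) * M ^ (C4 + (V + 4) * (j + 1) + 1) := by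
            gcongr
            exact h2M _ (by omega)
  -- the bad set
  set G := (range (R + 1)).filter (fun i => (x : ℝ) / L ^ (V + 4) ≤ ((x * i / R : ℕ) : ℝ)) with hG
  refine ⟨G.biUnion (fun i => (range A).filter (fun k => (x : ℝ) / (2 * L ^ V) < |S k (x * i / R)|)), ?_, ?_⟩
  · have hGc : (G.card : ℝ) ≤ 3 * L ^ (V + 3) := by
      have h1 : (G.card : ℝ) ≤ R + 1 := by
        have := card_filter_le (range (R + 1)) (fun i => (x : ℝ) / L ^ (V + 4) ≤ ((x * i / R : ℕ) : ℝ))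
        rw [card_range] at this
        exact_mod_cast this
      have := hp1 (V + 3)
      linarith
    calc ((G.biUnion (fun i => (range A).filter (fun k => (x : ℝ) / (2 * L ^ V) < |S k (x * i / R)|))).card : ℝ)
        ≤ ∑ i ∈ G, ((((range A).filter (fun k => (x : ℝ) / (2 * L ^ V) < |S k (x * i / R)|)).card : ℕ) : ℝ) := by
          exact_mod_cast card_biUnion_le
      _ ≤ ∑ i ∈ G, (A : ℝ) / L ^ (U + V + 4) := by
          refine sum_le_sum fun i hi => ?_
          rw [hG, mem_filter, mem_range] at hi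
          apply hgrid _ _ hi.2
          apply Nat.div_le_of_le_mul
          rw [mul_comm R x]
          exact Nat.mul_le_mul_left _ (by omega)
      _ = (G.card : ℝ) * (A / L ^ (U + V + 4)) := by rw [sum_const, nsmul_eq_mul]
      _ ≤ (3 * L ^ (V + 3)) * (A / L ^ (U + V + 4)) := by gcongr
      _ = 3 * A / (L ^ U * L) := by
          rw [show U + V + 4 = (V + 3) + (U + 1) by ring, pow_add L (V + 3), pow_succ L U]
          field_simp
      _ ≤ A / L ^ U := by
          rw [div_le_div_iff₀ (by positivity) (hp _)]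
          have : 0 ≤ (A : ℝ) * L ^ U := by positivity
          nlinarith
  · intro k hk hkB y hyx
    set i := y * R / x with hi
    have hxpos : 0 < x := by omega
    have h1 : x * i ≤ y * R := by rw [hi]; exact Nat.mul_div_le _ _
    have h2 : y * R < x * (i + 1) := by rw [hi]; exact Nat.lt_mul_div_succ _ hxpos
    have hiR : i ≤ R := by
      rw [hi]
      apply Nat.div_le_of_le_mul
      exact Nat.mul_le_mul_right _ hyx
    set yj := x * i / R with hyj
    have h3 : yj ≤ y := by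
      rw [hyj]
      apply Nat.div_le_of_le_mul
      rw [mul_comm R y]; exact h1
    have h4 : x * i < R * (yj + 1) := by
      rw [hyj]
      exact Nat.lt_mul_div_succ _ (by omega)
    have h4r : (x : ℝ) * i < R * (yj + 1) := by exact_mod_cast h4
    have h2r : (y : ℝ) * R < x * (i + 1) := by exact_mod_cast h2
    have hdiff : (y : ℝ) - yj ≤ x / R + 1 := by
      rw [← sub_le_iff_le_add, le_div_iff₀ hR0]
      nlinarith
    -- values at the grid
    have hSj : |S k yj| ≤ x / (2 * L ^ V) := by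
      rcases Nat.eq_zero_or_pos i with h0 | h0
      · have : yj = 0 := by rw [hyj, h0]; simp
        rw [this]
        simp only [hS, Ioc_self, sum_empty, abs_zero]
        positivity
      · have h5 : (x : ℝ) / L ^ (V + 4) ≤ yj := by
          have h6 : (x : ℝ) / R ≤ yj + 1 := by
            rw [div_le_iff₀ hR0]
            have h7 : (1 : ℝ) ≤ i := by exact_mod_cast h0
            nlinarith
          have h8 : (x : ℝ) / (2 * L ^ (V + 3)) ≤ x / R := by gcongr
          have h9 : 1 + (x : ℝ) / L ^ (V + 4) ≤ x / (2 * L ^ (V + 3)) := by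
            have h10 : L ^ (V + 4) ≤ x := by
              refine hV4.trans ?_
              calc (x : ℝ) ^ (1 / 6 : ℝ) ≤ (x : ℝ) ^ (1 : ℝ) :=
                    Real.rpow_le_rpow_of_exponent_le (by linarith) (by norm_num)
                _ = x := Real.rpow_one _
            have h11 : 1 ≤ (x : ℝ) / L ^ (V + 4) := by rw [one_le_div (hp _)]; exact h10
            have h12 : (x : ℝ) / (2 * L ^ (V + 3)) = (L / 2) * (x / L ^ (V + 4)) := by
              rw [show V + 4 = (V + 3) + 1 by ring, pow_succ L (V + 3)]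
              field_simp
            rw [h12]
            nlinarith
          linarith
        by_contra hcon
        apply hkB
        rw [mem_biUnion]
        refine ⟨i, ?_, ?_⟩
        · rw [hG, mem_filter, mem_range]
          exact ⟨by omega, h5⟩
        · rw [mem_filter, mem_range]
          exact ⟨hk, not_le.1 hcon⟩
    clear_value yj
    have hrest : |S k y - S k yj| ≤ (x / R + 1) * (L * L) := by
      have e1 : S k y - S k yj = ∑ n ∈ Ioc yj y, gI z (σ * f.eval (n : ℤ) + (a0 + k)) := by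
        simp only [hS]
        rw [sub_eq_iff_eq_add, ← sum_union]
        · congr 1
          ext n
          simp only [mem_Ioc, mem_union]
          omega
        · rw [disjoint_left]
          intro n hn hn2
          rw [mem_Ioc] at hn hn2
          omega
      rw [e1]
      refine (abs_sum_le_sum_abs _ _).trans ?_
      calc ∑ n ∈ Ioc yj y, |gI z (σ * f.eval (n : ℤ) + (a0 + k))| ≤ ∑ n ∈ Ioc yj y, L * L := by
            refine sum_le_sum fun n hn => ?_
            rw [mem_Ioc] at hn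
            refine (gI_abs z N ℓ (by linarith) habs _ ?_).trans hℓLL
            exact (abs_le.1 (hval n (by rw [mem_Ioc]; omega) k hk)).2
        _ = ((y - yj : ℕ) : ℝ) * (L * L) := by rw [sum_const, Nat.card_Ioc, nsmul_eq_mul]
        _ ≤ (x / R + 1) * (L * L) := by
            rw [Nat.cast_sub h3]
            gcongr
    have hfin : (x / (R : ℝ) + 1) * (L * L) ≤ x / (2 * L ^ V) := by
      have e1 : (x : ℝ) / R ≤ x / L ^ (V + 3) := by gcongr
      have e2 : (1 : ℝ) ≤ x / L ^ (V + 3) := by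
        rw [one_le_div (hp _)]
        calc L ^ (V + 3) ≤ L ^ (V + 4) := pow_le_pow_right₀ hL1 (by omega)
          _ ≤ (x : ℝ) ^ (1 / 6 : ℝ) := hV4
          _ ≤ (x : ℝ) ^ (1 : ℝ) := Real.rpow_le_rpow_of_exponent_le (by linarith) (by norm_num)
          _ = x := Real.rpow_one _
      calc (x / (R : ℝ) + 1) * (L * L) ≤ (x / L ^ (V + 3) + x / L ^ (V + 3)) * (L * L) := by gcongr
        _ = 4 / L * (x / (2 * L ^ V)) := by
            rw [pow_add L V 3]
            field_simp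
            ring
        _ ≤ 1 * (x / (2 * L ^ V)) := by
            gcongr
            rw [div_le_one (by positivity)]
            linarith
        _ = _ := one_mul _
    calc |S k y| = |(S k y - S k yj) + S k yj| := by congr 1; ring
      _ ≤ |S k y - S k yj| + |S k yj| := abs_add_le _ _
      _ ≤ x / (2 * L ^ V) + x / (2 * L ^ V) := add_le_add (hrest.trans hfin) hSj
      _ = x / L ^ V := by field_simp; ring

end Pool.Agent.W81.RD
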