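import Pool.Agent.W81.RD.FinG
import Mathlib.Algebra.Ring.GeomSum

/-!
The polynomials `± X^d + k`.
-/

set_option autoImplicit false

namespace Pool.Agent.W81.RD

open Finset Filter Polynomial
open Pool.Agent.H442R2.EHI (evt_log_pow evt_log_ge)
open Pool.Agent.H300R2.BH (rho SS pv lF)
open Pool.Agent.W81.R1

lemma eval_P (σ k : ℤ) (d : ℕ) (n : ℤ) : (C σ * X ^ d + C k : ℤ[X]).eval n = σ * n ^ d + k := by
  simp

/-- no fixed prime divisor -/
lemma rho_P (σ k : ℤ) (hσ : σ = 1 ∨ σ = -1) (d : ℕ) (hd : 1 ≤ d) (p : ℕ) (hp : p.Prime) :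
    rho (C σ * X ^ d + C k : ℤ[X]) p ≠ p := by
  intro h
  unfold rho at h
  have h1 : (range p).filter (fun n : ℕ => (p : ℤ) ∣ (C σ * X ^ d + C k : ℤ[X]).eval (n : ℤ)) = range p := by
    apply eq_of_subset_of_card_le (filter_subset _ _)
    rw [h, card_range]
  have h0 : 0 ∈ (range p).filter (fun n : ℕ => (p : ℤ) ∣ (C σ * X ^ d + C k : ℤ[X]).eval (n : ℤ)) := by
    rw [h1, mem_range]; exact hp.pos
  have h2 : 1 ∈ (range p).filter (fun n : ℕ => (p : ℤ) ∣ (C σ * X ^ d + C k : ℤ[X]).eval (n : ℤ)) := by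
    rw [h1, mem_range]; exact hp.one_lt
  rw [mem_filter, eval_P] at h0 h2
  have h3 := h0.2
  have h4 := h2.2
  push_cast at h3 h4
  rw [zero_pow (by omega), mul_zero, zero_add] at h3
  rw [one_pow, mul_one] at h4
  have h5 : (p : ℤ) ∣ σ := (dvd_add_left h3).1 h4
  have h6 : (p : ℤ) ∣ 1 := by
    rcases hσ with rfl | rfl
    · exact h5
    · rwa [dvd_neg] at h5
  have h7 : p ∣ 1 := by exact_mod_cast h6
  rw [Nat.dvd_one] at h7
  exact hp.one_lt.ne' h7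

/-- for odd exponents both signs have the same number of roots -/
lemma rho_odd (k : ℤ) (d : ℕ) (hd : Odd d) (p : ℕ) (hp : p.Prime) :
    rho (C (-1) * X ^ d + C k : ℤ[X]) p = rho (C 1 * X ^ d + C k : ℤ[X]) p := by
  have hp0 : 0 < p := hp.pos
  have key : ∀ n n' : ℕ, (p : ℤ) ∣ (n : ℤ) + n' → ∀ σ : ℤ,
      (p : ℤ) ∣ σ * (n : ℤ) ^ d + k → (p : ℤ) ∣ (-σ) * (n' : ℤ) ^ d + k := by
    intro n n' h σ h1
    have h2 : (p : ℤ) ∣ (n : ℤ) ^ d + (n' : ℤ) ^ d := h.trans (Odd.add_dvd_pow_add_pow _ _ hd)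
    have h3 := dvd_sub h1 (h2.mul_left σ)
    have e : σ * (n : ℤ) ^ d + k - σ * ((n : ℤ) ^ d + (n' : ℤ) ^ d) = (-σ) * (n' : ℤ) ^ d + k := by ring
    rwa [e] at h3
  have hneg : ∀ n : ℕ, (p : ℤ) ∣ (n : ℤ) + (((p - n % p) % p : ℕ) : ℤ) := by
    intro n
    have h1 : n % p < p := Nat.mod_lt _ hp0
    have h2 : p ∣ n + (p - n % p) % p := by
      have h3 := Nat.div_add_mod n p
      rw [Nat.dvd_iff_mod_eq_zero, Nat.add_mod, Nat.mod_mod, ← Nat.add_mod]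
      have h4 : (n + (p - n % p)) % p = (p * (n / p + 1)) % p := by
        congr 1
        rw [Nat.mul_succ]
        omega
      rw [h4, Nat.mul_mod_right]
    exact_mod_cast h2
  unfold rho
  apply card_nbij' (fun n => (p - n % p) % p) (fun n => (p - n % p) % p)
  · intro n hn
    simp only [coe_filter, Set.mem_setOf_eq, mem_range, eval_P] at hn ⊢
    refine ⟨Nat.mod_lt _ hp0, ?_⟩
    have := key n _ (hneg n) (-1) hn.2
    simpa using this
  · intro n hn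
    simp only [coe_filter, Set.mem_setOf_eq, mem_range, eval_P] at hn ⊢
    refine ⟨Nat.mod_lt _ hp0, ?_⟩
    exact key n _ (hneg n) 1 hn.2
  · intro n hn
    simp only [coe_filter, Set.mem_setOf_eq, mem_range] at hn
    have h1 : n % p = n := Nat.mod_eq_of_lt hn.1
    rcases Nat.eq_zero_or_pos n with h0 | h0
    · subst h0; simp
    · simp only [h1]
      rw [Nat.mod_eq_of_lt (show p - n < p by omega), Nat.mod_eq_of_lt (show p - n < p by omega),
        Nat.mod_eq_of_lt (show p - (p - n) < p by omega)]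
      omega
  · intro n hn
    simp only [coe_filter, Set.mem_setOf_eq, mem_range] at hn
    have h1 : n % p = n := Nat.mod_eq_of_lt hn.1
    rcases Nat.eq_zero_or_pos n with h0 | h0
    · subst h0; simp
    · simp only [h1]
      rw [Nat.mod_eq_of_lt (show p - n < p by omega), Nat.mod_eq_of_lt (show p - n < p by omega),
        Nat.mod_eq_of_lt (show p - (p - n) < p by omega)]
      omega

lemma SS_odd (z : ℕ) (k : ℤ) (d : ℕ) (hd : Odd d) :
    SS z (C (-1) * X ^ d + C k : ℤ[X]) = SS z (C 1 * X ^ d + C k : ℤ[X]) := by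
  unfold SS
  refine prod_congr rfl fun p hp => ?_
  rw [rho_odd k d hd p (mem_filter.1 hp).2]

/-- almost all `k` -/
theorem powG (d : ℕ) (hd : 2 ≤ d) (σ : ℤ) (hσ : σ = 1 ∨ σ = -1) (C1 U : ℕ) : ∃ E' : ℕ, ∀ E : ℕ,
    E' ≤ E → ∃ B : ℕ, ∀ᶠ x : ℕ in atTop, ∀ (k0 : ℤ) (A z : ℕ),
    Real.log x ^ E' ≤ z → (z : ℝ) ≤ Real.log x ^ E →
    |(k0 : ℝ)| ≤ (x : ℝ) ^ d * Real.log x ^ C1 → (x : ℝ) ^ (d - 1) * Real.log x ^ B ≤ A →
    (A : ℝ) ≤ (x : ℝ) ^ d * Real.log x ^ C1 →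
    ∃ Bad : Finset ℤ, (Bad.card : ℝ) ≤ A / Real.log x ^ U ∧ ∀ k ∈ Ioc k0 (k0 + A), k ∉ Bad →
      GoodG (C σ * X ^ d + C k) z x (U + 1) := by
  obtain ⟨j, rfl⟩ : ∃ j, d = j + 1 := ⟨d - 1, by omega⟩
  obtain ⟨E', h⟩ := finG j (by omega) σ hσ C1 U
  refine ⟨E', fun E hE => ?_⟩
  obtain ⟨B, hB⟩ := h E hE
  refine ⟨B, ?_⟩
  filter_upwards [hB, evt_log_ge 1] with x hx hL1 k0 A z hz1 hz2 hk0 hA1 hA2
  have hL0 : 0 < Real.log x := by linarith
  obtain ⟨Bad, hBad, hgood⟩ := hx (X ^ (j + 1)) 1 k0 A z hz1 hz2 (natDegree_X_pow_le _)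
    (by simp) (by simp) le_rfl (by rw [Nat.cast_one]; exact one_le_pow₀ hL1) (by
      intro i hi1 hij
      rw [coeff_X_pow, if_neg (by omega), Int.cast_zero, abs_zero]
      positivity) hk0 (by simpa using hA1) hA2
  exact ⟨Bad, hBad, fun k hk hkB => hgood k hk hkB fun p hp _ => rho_P σ k hσ _ (by omega) p hp⟩

end Pool.Agent.W81.RD
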