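import Pool.Agent.W81.RD.LogG
import Pool.Agent.W81.R1N.Refl

/-!
The second moment in short intervals of shifts for both signs of the leading coefficient.
-/

set_option autoImplicit false

namespace Pool.Agent.W81.RD

open Finset Filter Polynomial
open Pool.Agent.H469R2.NK (e norm_e e_add conj_e)
open Pool.Agent.H442R2.EHI (evt_log_pow evt_log_ge)
open Pool.Agent.H300R2.BH (chf fz)
open Pool.Agent.W81.R1
open Pool.Agent.W81.R1N (rf fz_rf sum_rf)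

/-- the second moment in short intervals of shifts -/
theorem short_logS (j : ℕ) (hj : 1 ≤ j) (σ : ℤ) (hσ : σ = 1 ∨ σ = -1) (C0 C4 U1 U2 G : ℕ) :
    ∃ E3 B : ℕ, ∀ᶠ x : ℕ in atTop,
    ∀ (f : ℤ[X]) (α A N : ℕ) (a0 : ℤ) (g : ℕ → ℂ), f.natDegree ≤ j + 1 → f.coeff (j + 1) = α →
      1 ≤ α → (α : ℝ) ≤ Real.log x ^ C0 →
      (∀ i, 1 ≤ i → i ≤ j → |((f.coeff i : ℤ) : ℝ)| ≤
        (x : ℝ) ^ (j + 1 - i) / Real.log x ^ ((j + 1) * (U1 + 1) + 1)) →
      (x : ℝ) ^ j * Real.log x ^ B ≤ A → (A : ℝ) ≤ (x : ℝ) ^ j * (x : ℝ) ^ (1 / 2 : ℝ) →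
      1 ≤ N → (N : ℝ) ≤ (x : ℝ) ^ (j + 1) * Real.log x ^ C4 → (∀ n, N < n → g n = 0) →
      (∀ n ∈ Ioc 0 x, ∀ k < A, |σ * f.eval (n : ℤ) + (a0 + k)| ≤ N) →
      ∑ n ∈ Icc 1 N, ‖g n‖ ^ 2 ≤ N * Real.log x ^ G →
      (∀ t : ℝ, ‖∑ n ∈ Icc 1 N, g n * e (n * t)‖ ≤ N / Real.log x ^ E3) →
      ∑ k ∈ range A, ‖∑ n ∈ Ioc ⌊(x : ℝ) / Real.log x ^ U1⌋₊ x, fz g (σ * f.eval (n : ℤ) + (a0 + k))‖ ^ 2 ≤
        A * (x : ℝ) ^ 2 / Real.log x ^ U2 := by
  rcases hσ with rfl | rfl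
  · obtain ⟨E3, B, h⟩ := short_logG j hj C0 C4 U1 U2 G
    refine ⟨E3, B, ?_⟩
    filter_upwards [h] with x hx f α A N a0 g hfd hfα hα hαL hco hA hA32 hN1 hN hg hval hG hsup
    simp only [one_mul] at hval ⊢
    exact hx f α A N a0 g hfd hfα hα hαL hco hA hA32 hN1 hN hg hval hG hsup
  obtain ⟨E3, B, h⟩ := short_logG j hj C0 (C4 + 1) U1 U2 G
  refine ⟨E3, B, ?_⟩
  filter_upwards [h, evt_log_ge 4, eventually_ge_atTop 1] with x hx hL hx1 f α A N a0 g hfd hfα hα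
    hαL hco hA hA32 hN1 hN hg hval hG hsup
  set L := Real.log x with hLd
  have hL0 : 0 < L := by linarith
  have hxr : (1 : ℝ) ≤ x := by exact_mod_cast hx1
  have hNr : (1 : ℝ) ≤ N := by exact_mod_cast hN1
  have hsub : Icc 1 N ⊆ Icc 1 (2 * N + 1) := Icc_subset_Icc le_rfl (by omega)
  have key := hx f α A (2 * N + 1) (N + 2 - a0 - A) (rf g N) hfd hfα hα hαL hco hA hA32 (by omega) (by
    push_cast
    calc 2 * (N : ℝ) + 1 ≤ 3 * N := by linarith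
      _ ≤ 3 * ((x : ℝ) ^ (j + 1) * L ^ C4) := by gcongr
      _ ≤ L * ((x : ℝ) ^ (j + 1) * L ^ C4) := by gcongr; linarith
      _ = (x : ℝ) ^ (j + 1) * L ^ (C4 + 1) := by ring) (by
    intro n hn
    unfold rf
    rw [if_neg (by omega)]) (by
    intro n hn k hk
    have h1 := abs_le.1 (hval n hn (A - 1 - k) (by omega))
    have h2 : (((A - 1 - k : ℕ)) : ℤ) = A - 1 - k := by omega
    rw [h2] at h1
    push_cast
    rw [abs_le]
    constructor <;> linarith) (by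
    have h1 : ∑ n ∈ Icc 1 (2 * N + 1), ‖rf g N n‖ ^ 2 = ∑ n ∈ Icc 1 N, ‖rf g N n‖ ^ 2 := by
      symm
      apply sum_subset hsub
      intro n hn hn2
      unfold rf
      rw [if_neg (by rw [mem_Icc] at hn2; exact hn2)]
      simp
    have h2 : ∑ n ∈ Icc 1 N, ‖rf g N n‖ ^ 2 = ∑ n ∈ Icc 1 N, ‖g n‖ ^ 2 := by
      rw [← sum_rf (fun n => ‖g n‖ ^ 2) N]
      refine sum_congr rfl fun n hn => ?_
      unfold rf
      rw [mem_Icc] at hn
      rw [if_pos hn]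
    rw [h1, h2]
    refine hG.trans ?_
    push_cast
    gcongr
    linarith) (by
    intro t
    have h1 : ∑ n ∈ Icc 1 (2 * N + 1), rf g N n * e (n * t) = ∑ n ∈ Icc 1 N, rf g N n * e (n * t) := by
      symm
      apply sum_subset hsub
      intro n hn hn2
      unfold rf
      rw [if_neg (by rw [mem_Icc] at hn2; exact hn2), zero_mul]
    have h2 : ∑ n ∈ Icc 1 N, rf g N n * e (n * t) =
        e (((N : ℝ) + 1) * t) * ∑ n ∈ Icc 1 N, g n * e (n * (-t)) := by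
      rw [← sum_rf (fun n : ℕ => g n * e (n * (-t))) N, mul_sum]
      refine sum_congr rfl fun n hn => ?_
      rw [mem_Icc] at hn
      unfold rf
      rw [if_pos hn]
      have h3 : e ((n : ℝ) * t) = e (((N : ℝ) + 1) * t) * e (((N + 1 - n : ℕ) : ℝ) * (-t)) := by
        rw [← e_add]
        congr 1
        rw [Nat.cast_sub (by omega)]
        push_cast
        ring
      rw [h3]
      ring
    rw [h1, h2, norm_mul, norm_e, one_mul]
    refine (hsup (-t)).trans ?_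
    push_cast
    gcongr
    linarith)
  refine le_trans (le_of_eq ?_) key
  rw [← sum_range_reflect (fun k : ℕ => ‖∑ n ∈ Ioc ⌊(x : ℝ) / L ^ U1⌋₊ x, fz g (-1 * f.eval (n : ℤ) + (a0 + k))‖ ^ 2) A]
  refine sum_congr rfl fun k hk => ?_
  rw [mem_range] at hk
  congr 2
  refine sum_congr rfl fun n hn => ?_
  rw [fz_rf g N hg]
  congr 1
  have h2 : (((A - 1 - k : ℕ)) : ℤ) = A - 1 - k := by omega
  rw [h2]
  ring

end Pool.Agent.W81.RD
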