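import Pool.Agent.W81.RD.PowG

/-!
The number of integers `m` with `|m| ≤ y` and `m^d + k` prime, for odd `d`.
-/

set_option autoImplicit false

namespace Pool.Agent.W81.RD

open Finset Filter Polynomial
open Pool.Agent.H442R2.EHI (evt_log_pow evt_log_ge)
open Pool.Agent.H300R2.BH (rho SS pv lF)
open Pool.Agent.W81.R1

lemma sum_two_sided (y : ℕ) (g : ℤ → ℝ) : ∑ m ∈ Icc (-(y : ℤ)) y, g m =
    ∑ n ∈ Icc 1 y, g (n : ℤ) + ∑ n ∈ Icc 1 y, g (-(n : ℤ)) + g 0 := by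
  induction y with
  | zero => simp
  | succ y ih =>
    have h1 : Icc (-((y + 1 : ℕ) : ℤ)) ((y + 1 : ℕ) : ℤ) =
        insert ((y + 1 : ℕ) : ℤ) (insert (-((y + 1 : ℕ) : ℤ)) (Icc (-(y : ℤ)) y)) := by
      ext m
      simp only [mem_Icc, mem_insert]
      push_cast
      omega
    have h2 : Icc 1 (y + 1) = insert (y + 1) (Icc 1 y) := by
      ext m
      simp only [mem_Icc, mem_insert]
      omega
    rw [h1, sum_insert, sum_insert, h2, sum_insert, sum_insert, ih]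
    · ring
    · simp
    · simp
    · rw [mem_Icc]; push_cast; omega
    · rw [mem_insert, mem_Icc]; push_cast; omega

/-- the number of `|m| ≤ y` with `m^d + k` prime -/
noncomputable def cnt (d : ℕ) (k : ℤ) (y : ℕ) : ℝ :=
  (((Icc (-(y : ℤ)) y).filter (fun m : ℤ => Nat.Prime (Int.toNat (m ^ d + k)))).card : ℝ)

/-- the sum of `1 / log (m^d + k)` over the `|m| ≤ y` with `m^d + k ≥ 2` -/
noncomputable def lsum (d : ℕ) (k : ℤ) (y : ℕ) : ℝ :=
  ∑ m ∈ (Icc (-(y : ℤ)) y).filter (fun m : ℤ => 2 ≤ m ^ d + k), 1 / Real.log ((m ^ d + k : ℤ) : ℝ)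

lemma cnt_eq (d : ℕ) (hd : 1 ≤ d) (hodd : Odd d) (k : ℤ) (y : ℕ) : cnt d k y =
    pv (C 1 * X ^ d + C k) y + pv (C (-1) * X ^ d + C k) y + (if Nat.Prime k.toNat then 1 else 0) := by
  unfold cnt pv
  have h1 : ∀ (s : Finset ℤ) (P : ℤ → Prop) [DecidablePred P],
      ((s.filter P).card : ℝ) = ∑ m ∈ s, (if P m then (1 : ℝ) else 0) := by
    intro s P _
    rw [← sum_filter, sum_const, nsmul_eq_mul, mul_one]
  have h2 : ∀ (s : Finset ℕ) (P : ℕ → Prop) [DecidablePred P],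
      ((s.filter P).card : ℝ) = ∑ m ∈ s, (if P m then (1 : ℝ) else 0) := by
    intro s P _
    rw [← sum_filter, sum_const, nsmul_eq_mul, mul_one]
  rw [h1, h2, h2, sum_two_sided]
  congr 1
  · congr 1
    · refine sum_congr rfl fun n _ => ?_
      rw [eval_P, one_mul]
    · refine sum_congr rfl fun n _ => ?_
      rw [eval_P, hodd.neg_pow, neg_one_mul]
  · rw [zero_pow (by omega), zero_add]

lemma lsum_eq (d : ℕ) (hd : 1 ≤ d) (hodd : Odd d) (k : ℤ) (y : ℕ) : lsum d k y =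
    lF (C 1 * X ^ d + C k) y + lF (C (-1) * X ^ d + C k) y +
      (if 2 ≤ k then 1 / Real.log (k : ℝ) else 0) := by
  unfold lsum lF
  rw [sum_filter, sum_filter, sum_filter, sum_two_sided]
  congr 1
  · congr 1
    · refine sum_congr rfl fun n _ => ?_
      rw [eval_P, one_mul]
    · refine sum_congr rfl fun n _ => ?_
      rw [eval_P, hodd.neg_pow, neg_one_mul]
  · rw [zero_pow (by omega), zero_add]

/-- both signs of `m` -/
theorem two_sided (d : ℕ) (hd : 2 ≤ d) (hodd : Odd d) (C1 U : ℕ) : ∃ E' : ℕ, ∀ E : ℕ,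
    E' ≤ E → ∃ B : ℕ, ∀ᶠ x : ℕ in atTop, ∀ (k0 : ℤ) (A z : ℕ),
    Real.log x ^ E' ≤ z → (z : ℝ) ≤ Real.log x ^ E →
    |(k0 : ℝ)| ≤ (x : ℝ) ^ d * Real.log x ^ C1 → (x : ℝ) ^ (d - 1) * Real.log x ^ B ≤ A →
    (A : ℝ) ≤ (x : ℝ) ^ d * Real.log x ^ C1 →
    ∃ Bad : Finset ℤ, (Bad.card : ℝ) ≤ A / Real.log x ^ U ∧ ∀ k : ℤ, k0 < k → k ≤ k0 + A → k ∉ Bad →
      1 / Real.log x ≤ SS z (C 1 * X ^ d + C k) ∧ ∀ y ≤ x,
        |cnt d k y - SS z (C 1 * X ^ d + C k) * lsum d k y| ≤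
          SS z (C 1 * X ^ d + C k) * (x / Real.log x ^ U) := by
  obtain ⟨E1, h1⟩ := powG d hd 1 (Or.inl rfl) C1 (U + 1)
  obtain ⟨E2, h2⟩ := powG d hd (-1) (Or.inr rfl) C1 (U + 1)
  refine ⟨max E1 E2, fun E hE => ?_⟩
  obtain ⟨B1, hB1⟩ := h1 E (le_trans (le_max_left _ _) hE)
  obtain ⟨B2, hB2⟩ := h2 E (le_trans (le_max_right _ _) hE)
  refine ⟨max B1 B2, ?_⟩
  filter_upwards [hB1, hB2, evt_log_ge 4, evt_log_pow (U + 2) 1 (by norm_num), eventually_ge_atTop 1]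
    with x hx1 hx2 hL4 hLp hx0 k0 A z hz1 hz2 hk0 hA1 hA2
  rw [Real.rpow_one] at hLp
  set L := Real.log x with hL
  have hL0 : 0 < L := by linarith
  have hL1 : 1 ≤ L := by linarith
  have hp : ∀ n : ℕ, 0 < L ^ n := fun n => by positivity
  obtain ⟨Bad1, hb1, hg1⟩ := hx1 k0 A z
    ((pow_le_pow_right₀ hL1 (le_max_left _ _)).trans hz1) hz2 hk0
    (le_trans (by gcongr; exact le_max_left _ _) hA1) hA2
  obtain ⟨Bad2, hb2, hg2⟩ := hx2 k0 A z
    ((pow_le_pow_right₀ hL1 (le_max_right _ _)).trans hz1) hz2 hk0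
    (le_trans (by gcongr; exact le_max_right _ _) hA1) hA2
  refine ⟨Bad1 ∪ Bad2, ?_, ?_⟩
  · have h3 : ((Bad1 ∪ Bad2).card : ℝ) ≤ Bad1.card + Bad2.card := by
      exact_mod_cast card_union_le Bad1 Bad2
    refine h3.trans ((add_le_add hb1 hb2).trans ?_)
    rw [← add_div, div_le_div_iff₀ (hp _) (hp _), pow_succ]
    have h7 : (0 : ℝ) ≤ A := Nat.cast_nonneg _
    have h8 : 0 ≤ (A : ℝ) * L ^ U := by positivity
    nlinarith
  · intro k hk1 hk2 hkB
    rw [mem_union, not_or] at hkB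
    obtain ⟨hS, ha⟩ := hg1 k (mem_Ioc.2 ⟨hk1, hk2⟩) hkB.1
    obtain ⟨_, hb⟩ := hg2 k (mem_Ioc.2 ⟨hk1, hk2⟩) hkB.2
    rw [SS_odd z k d hodd] at hb
    set S := SS z (C 1 * X ^ d + C k : ℤ[X]) with hSd
    have hS0 : 0 < S := lt_of_lt_of_le (by positivity) hS
    refine ⟨hS, fun y hy => ?_⟩
    have h3 := ha y hy
    have h4 := hb y hy
    rw [cnt_eq d (by omega) hodd, lsum_eq d (by omega) hodd]
    have h5 : |(if Nat.Prime k.toNat then (1 : ℝ) else 0) - S * (if 2 ≤ k then 1 / Real.log (k : ℝ) else 0)| ≤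
        S * (L + 2) := by
      have h6 : 0 ≤ (if Nat.Prime k.toNat then (1 : ℝ) else 0) ∧
          (if Nat.Prime k.toNat then (1 : ℝ) else 0) ≤ 1 := by
        split_ifs <;> constructor <;> norm_num
      have h7 : 0 ≤ (if 2 ≤ k then 1 / Real.log (k : ℝ) else 0) ∧
          (if 2 ≤ k then 1 / Real.log (k : ℝ) else 0) ≤ 2 := by
        split_ifs with h
        · have h8 : (2 : ℝ) ≤ (k : ℝ) := by exact_mod_cast h
          have h9 := Real.log_le_log (by norm_num) h8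
          have h10 := Real.log_two_gt_d9
          have h11 : 0 < Real.log (k : ℝ) := by linarith
          refine ⟨by positivity, ?_⟩
          rw [div_le_iff₀ h11]
          linarith
        · constructor <;> norm_num
      have h8 : 1 ≤ S * L := by rwa [div_le_iff₀ hL0] at hS
      have h9 : 0 ≤ S * (if 2 ≤ k then 1 / Real.log (k : ℝ) else 0) := mul_nonneg hS0.le h7.1
      have h10 : S * (if 2 ≤ k then 1 / Real.log (k : ℝ) else 0) ≤ S * 2 :=
        mul_le_mul_of_nonneg_left h7.2 hS0.le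
      rw [abs_le]
      constructor <;> nlinarith
    have e1 : pv (C 1 * X ^ d + C k) y + pv (C (-1) * X ^ d + C k) y + (if Nat.Prime k.toNat then (1 : ℝ) else 0) -
        S * (lF (C 1 * X ^ d + C k) y + lF (C (-1) * X ^ d + C k) y +
          (if 2 ≤ k then 1 / Real.log (k : ℝ) else 0)) =
        (pv (C 1 * X ^ d + C k) y - S * lF (C 1 * X ^ d + C k) y) +
        (pv (C (-1) * X ^ d + C k) y - S * lF (C (-1) * X ^ d + C k) y) +
        ((if Nat.Prime k.toNat then (1 : ℝ) else 0) - S * (if 2 ≤ k then 1 / Real.log (k : ℝ) else 0)) := by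
      ring
    rw [e1]
    refine (abs_add_three _ _ _).trans ((add_le_add (add_le_add h3 h4) h5).trans ?_)
    have e2 : S * (x / L ^ (U + 1 + 1)) + S * (x / L ^ (U + 1 + 1)) + S * (L + 2) =
        S * (2 * (x / L ^ (U + 2)) + (L + 2)) := by ring
    rw [e2]
    apply mul_le_mul_of_nonneg_left _ hS0.le
    have h6 : 1 ≤ (x : ℝ) / L ^ (U + 2) := by rwa [one_le_div (hp _)]
    calc 2 * ((x : ℝ) / L ^ (U + 2)) + (L + 2) ≤ 2 * ((x : ℝ) / L ^ (U + 2)) + (L + 2) * (x / L ^ (U + 2)) := by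
          have : 0 ≤ L + 2 := by linarith
          nlinarith
      _ = (L + 4) * (x / L ^ (U + 2)) := by ring
      _ ≤ (L ^ 2) * (x / L ^ (U + 2)) := by
          apply mul_le_mul_of_nonneg_right _ (by linarith)
          nlinarith
      _ = x / L ^ U := by
          rw [pow_add L U 2]
          field_simp

end Pool.Agent.W81.RD
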