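import Pool.Agent.W81.RD.CoreG
import Pool.Agent.H373R2.NB.WeylSum

/-!
Minor arcs for polynomials of arbitrary degree.
-/

set_option autoImplicit false

namespace Pool.Agent.W81.RD

open Finset Polynomial
open Pool.Agent.H469R2.NK (e norm_e e_add)
open Pool.Agent.H373R2.NB (Ph IW IW_all Ph_poly Ph_succ)
open Pool.Agent.W81.R1

lemma eeN_eq (x : ℝ) : Pool.Agent.Helper602.MK.ee x = e x := by
  unfold Pool.Agent.Helper602.MK.ee e
  congr 1
  push_cast
  ring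

lemma Ph_add (d : ℕ) (α : ℝ) (φ : ℕ → ℝ) (h : Ph d α φ) (k : ℕ) : Ph d α (fun n => φ (n + k)) := by
  induction k with
  | zero => exact h
  | succ k ih =>
    have h1 := Ph_succ d α _ ih
    have e1 : (fun n => φ (n + 1 + k)) = fun n => φ (n + (k + 1)) := by
      funext n; congr 1; ring
    rw [e1] at h1
    exact h1

lemma sum_Ioc_range (G : ℕ → ℂ) (x1 m : ℕ) : ∑ n ∈ Ioc x1 m, G n =
    ∑ i ∈ range (m - x1), G (i + (x1 + 1)) := by
  have h4 : Ioc x1 m = (range (m - x1)).image (fun i => i + (x1 + 1)) := by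
    ext n
    rw [mem_Ioc, mem_image]
    constructor
    · rintro ⟨h1, h2⟩
      exact ⟨n - x1 - 1, by rw [mem_range]; omega, by omega⟩
    · rintro ⟨i, hi, rfl⟩
      rw [mem_range] at hi
      omega
  rw [h4, sum_image]
  intro i _ k _ hik
  simp only at hik
  omega

/-- a large Weyl sum of a difference gives a rational approximation -/
lemma weyl_l (j : ℕ) (hj : 1 ≤ j) : ∃ c m : ℕ, 1 ≤ c ∧ ∀ (f : ℤ[X]), f.natDegree ≤ j + 1 →
    ∀ (D : ℝ), 1 ≤ D → ∀ (γ : ℝ) (x1 x l mm : ℕ), 1 ≤ x → mm ≤ x →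
      (x : ℝ) / D < ‖∑ n ∈ Ioc x1 mm, e (γ * ((f.eval ((n + l : ℕ) : ℤ) - f.eval (n : ℤ) : ℤ) : ℝ))‖ →
      ∃ q : ℕ, 1 ≤ q ∧ (q : ℝ) ≤ c * D ^ m ∧ ∃ a : ℤ,
        |(q : ℝ) * (l * (γ * (((j + 1).factorial : ℝ) * (f.coeff (j + 1) : ℤ)))) - a| ≤
          c * D ^ (m + j) / (x : ℝ) ^ j := by
  obtain ⟨c, m, hc, hI⟩ := IW_all j hj
  refine ⟨c, m, hc, fun f hf D hD γ x1 x l mm hx hmm hbig => ?_⟩
  have hx0 : (0 : ℝ) < x := by exact_mod_cast hx
  have hD0 : 0 < D := by linarith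
  have hph := Ph_poly (j + 1) f hf γ
  have hph2 : Ph j ((l : ℝ) * (γ * (((j + 1).factorial : ℝ) * (f.coeff (j + 1) : ℤ))))
      (fun n => γ * ((f.eval ((n + l : ℕ) : ℤ) : ℤ) : ℝ) - γ * ((f.eval (n : ℤ) : ℤ) : ℝ)) := hph l
  have hph3 := Ph_add _ _ _ hph2 (x1 + 1)
  set N := mm - x1 with hN
  have hNx : (N : ℝ) ≤ x := by
    have : N ≤ x := by omega
    exact_mod_cast this
  have hsum : ∑ n ∈ Ioc x1 mm, e (γ * ((f.eval ((n + l : ℕ) : ℤ) - f.eval (n : ℤ) : ℤ) : ℝ)) =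
      ∑ i ∈ range N, Pool.Agent.Helper602.MK.ee (γ * ((f.eval (((i + (x1 + 1)) + l : ℕ) : ℤ) : ℤ) : ℝ) -
        γ * ((f.eval ((i + (x1 + 1) : ℕ) : ℤ) : ℤ) : ℝ)) := by
    rw [sum_Ioc_range (fun n => e (γ * ((f.eval ((n + l : ℕ) : ℤ) - f.eval (n : ℤ) : ℤ) : ℝ)))]
    refine sum_congr rfl fun i _ => ?_
    rw [eeN_eq]
    congr 1
    push_cast
    ring
  rw [hsum] at hbig
  set S := ‖∑ i ∈ range N, Pool.Agent.Helper602.MK.ee (γ * ((f.eval (((i + (x1 + 1)) + l : ℕ) : ℤ) : ℤ) : ℝ) -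
        γ * ((f.eval ((i + (x1 + 1) : ℕ) : ℤ) : ℤ) : ℝ))‖ with hS
  have hSN : S ≤ N := by
    rw [hS]
    refine (norm_sum_le _ _).trans ?_
    calc ∑ i ∈ range N, ‖Pool.Agent.Helper602.MK.ee (γ * ((f.eval (((i + (x1 + 1)) + l : ℕ) : ℤ) : ℤ) : ℝ) -
        γ * ((f.eval ((i + (x1 + 1) : ℕ) : ℤ) : ℤ) : ℝ))‖ ≤ ∑ i ∈ range N, 1 := by
          refine sum_le_sum fun i _ => ?_
          rw [eeN_eq, norm_e]
      _ = N := by rw [sum_const, card_range]; simp
  have hxN : (x : ℝ) / D ≤ N := by linarith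
  have hN0 : (0 : ℝ) < N := lt_of_lt_of_le (by positivity) hxN
  have hN1 : 1 ≤ N := by exact_mod_cast hN0
  have hxDS : (x : ℝ) ≤ D * S := by
    rw [div_lt_iff₀ hD0] at hbig
    linarith
  obtain ⟨q, hq1, hq2, a, ha⟩ := hI N D _ _ hN1 hD hph3 (hNx.trans hxDS)
  refine ⟨q, hq1, hq2, a, ha.trans ?_⟩
  rw [div_le_div_iff₀ (by positivity) (by positivity)]
  have h1 : (x : ℝ) ^ j ≤ (N * D) ^ j := by
    apply pow_le_pow_left₀ hx0.le
    rw [div_le_iff₀ hD0] at hxN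
    exact hxN
  calc (c : ℝ) * D ^ m * (x : ℝ) ^ j ≤ c * D ^ m * (N * D) ^ j := by gcongr
    _ = c * D ^ (m + j) * (N : ℝ) ^ j := by rw [mul_pow, pow_add]; ring

open Classical in
/-- the minor arcs -/
theorem minor_poly (j : ℕ) (hj : 1 ≤ j) : ∃ c m : ℕ, 1 ≤ c ∧ ∀ (f : ℤ[X]) (α : ℕ),
    f.natDegree ≤ j + 1 → f.coeff (j + 1) = α → 1 ≤ α →
    ∀ (x1 x A K Y Q : ℕ) (D : ℝ), 1 ≤ D → 1 ≤ x → 1 ≤ A → 1 ≤ K → 1 ≤ Y →
      2 * (c * D ^ (m + j)) * (Y : ℝ) + 2 * (c * D ^ (m + j)) * (c * D ^ (m + j)) < (x : ℝ) ^ j →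
      2 * (c * D ^ m) * (c * D ^ (m + j)) * (((j + 1).factorial : ℝ) * α) ≤ Q →
      ∀ h : ℕ, (¬ ∃ q : ℕ, 1 ≤ q ∧ q ≤ Q ∧ ∃ b : ℤ, |(h : ℝ) / ((16 * A * K : ℕ) : ℝ) - b / q| ≤
          2 * (c * D ^ (m + j)) ^ 2 / ((x : ℝ) ^ j * Y) + 1 / (16 * A)) →
        ∃ B : ℕ → ℝ, (∀ l, 0 ≤ B l) ∧ (∀ l ∈ Icc 1 Y, ∀ mm, mm + l ≤ x →
          ‖∑ n ∈ Ioc x1 mm, e (-(((f.eval ((n + l : ℕ) : ℤ) - f.eval (n : ℤ) : ℤ) : ℝ) *
            (((h : ℤ) - K : ℤ) : ℝ) / ((16 * A * K : ℕ) : ℝ)))‖ ≤ B l) ∧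
          ∑ l ∈ Icc 1 Y, B l ≤ 3 / 2 * (x * Y) / D := by
  obtain ⟨c, m, hc, hW⟩ := weyl_l j hj
  refine ⟨c, m, hc, fun f α hf hfα hα x1 x A K Y Q D hD hx hA hK hY hxY hQ h hmin => ?_⟩
  set M := 16 * A * K with hM
  have hM1 : 1 ≤ M := by
    rw [hM]
    have : 1 ≤ A * K := Nat.mul_pos hA hK
    nlinarith
  have hM0 : (0 : ℝ) < M := by exact_mod_cast hM1
  have hx0 : (0 : ℝ) < x := by exact_mod_cast hx
  have hY0 : (0 : ℝ) < Y := by exact_mod_cast hY
  have hA0 : (0 : ℝ) < A := by exact_mod_cast hA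
  have hK0 : (0 : ℝ) < K := by exact_mod_cast hK
  have hD0 : 0 < D := by linarith
  have hα0 : (0 : ℝ) < α := by exact_mod_cast hα
  have hα1 : (1 : ℝ) ≤ α := by exact_mod_cast hα
  have hc1 : (1 : ℝ) ≤ c := by exact_mod_cast hc
  set D1 : ℝ := c * D ^ (m + j) with hD1
  have hD1one : 1 ≤ D1 := one_le_mul_of_one_le_of_one_le hc1 (one_le_pow₀ hD)
  have hD10 : 0 < D1 := by linarith
  set D2 : ℝ := c * D ^ m with hD2
  have hD2one : 1 ≤ D2 := one_le_mul_of_one_le_of_one_le hc1 (one_le_pow₀ hD)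
  have hfac : (1 : ℝ) ≤ ((j + 1).factorial : ℝ) := by exact_mod_cast Nat.factorial_pos (j + 1)
  set γ : ℝ := -((((h : ℤ) - K : ℤ) : ℝ) / M) with hγ
  set θ : ℝ := γ * (((j + 1).factorial : ℝ) * (f.coeff (j + 1) : ℤ)) with hθ
  set P : ℕ → ℕ → Prop := fun q l => (q : ℝ) ≤ D2 ∧ ∃ a : ℤ, |(q : ℝ) * (l * θ) - a| ≤ D1 / (x : ℝ) ^ j with hP
  set B : ℕ → ℝ := fun l => if ∃ q : ℕ, 1 ≤ q ∧ P q l then (x : ℝ) else x / D with hB
  refine ⟨B, ?_, ?_, ?_⟩
  · intro l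
    simp only [hB]
    split_ifs <;> positivity
  · intro l hl mm hmm
    have e1 : ∑ n ∈ Ioc x1 mm, e (-(((f.eval ((n + l : ℕ) : ℤ) - f.eval (n : ℤ) : ℤ) : ℝ) *
            (((h : ℤ) - K : ℤ) : ℝ) / (M : ℝ))) =
        ∑ n ∈ Ioc x1 mm, e (γ * ((f.eval ((n + l : ℕ) : ℤ) - f.eval (n : ℤ) : ℤ) : ℝ)) := by
      refine sum_congr rfl fun n _ => ?_
      congr 1
      rw [hγ]
      ring
    rw [e1]
    simp only [hB]
    split_ifs with h1
    · refine (norm_sum_le _ _).trans ?_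
      calc ∑ n ∈ Ioc x1 mm, ‖e (γ * ((f.eval ((n + l : ℕ) : ℤ) - f.eval (n : ℤ) : ℤ) : ℝ))‖
          ≤ ∑ n ∈ Ioc x1 mm, 1 := sum_le_sum fun n _ => by rw [norm_e]
        _ = ((mm - x1 : ℕ) : ℝ) := by rw [sum_const, Nat.card_Ioc]; simp
        _ ≤ x := by
            have : mm - x1 ≤ x := by omega
            exact_mod_cast this
    · by_contra hcon
      push Not at hcon
      apply h1
      obtain ⟨q, hq1, hq2, a, ha⟩ := hW f hf D hD γ x1 x l mm hx (by omega) hcon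
      exact ⟨q, hq1, hq2, a, ha⟩
  · -- the sum
    set L := (Icc 1 Y).filter (fun l : ℕ => ∃ q : ℕ, 1 ≤ q ∧ P q l) with hL
    have hLcard : ¬ ((Y : ℝ) ≤ 2 * D * L.card) := by
      intro hcard
      -- pigeonhole
      set R := ⌊D2⌋₊ with hR
      have hR1 : 1 ≤ R := Nat.le_floor (by exact_mod_cast hD2one)
      set Lq : ℕ → Finset ℕ := fun q => (Icc 1 Y).filter (fun l => P q l) with hLq
      have hcov : L ⊆ (Icc 1 R).biUnion Lq := by
        intro l hl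
        rw [hL, mem_filter] at hl
        obtain ⟨hl1, q, hq1, hq2⟩ := hl
        rw [mem_biUnion]
        refine ⟨q, ?_, ?_⟩
        · rw [mem_Icc]
          exact ⟨hq1, Nat.le_floor hq2.1⟩
        · simp only [hLq]
          rw [mem_filter]
          exact ⟨hl1, hq2⟩
      obtain ⟨q0, hq0, hq0c⟩ : ∃ q ∈ Icc 1 R, (L.card : ℝ) ≤ D2 * (Lq q).card := by
        by_contra hcon
        push Not at hcon
        have h1 : (L.card : ℝ) ≤ ∑ q ∈ Icc 1 R, ((Lq q).card : ℝ) := by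
          exact_mod_cast (card_le_card hcov).trans card_biUnion_le
        have h2 : D2 * ∑ q ∈ Icc 1 R, ((Lq q).card : ℝ) < ∑ q ∈ Icc 1 R, (L.card : ℝ) := by
          rw [mul_sum]
          apply sum_lt_sum_of_nonempty
          · exact ⟨1, by rw [mem_Icc]; omega⟩
          · exact hcon
        rw [sum_const, Nat.card_Icc, Nat.add_sub_cancel, nsmul_eq_mul] at h2
        have h3 : (R : ℝ) ≤ D2 := Nat.floor_le (by linarith)
        have h4 : (R : ℝ) * L.card ≤ D2 * L.card := by gcongr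
        have h5 : D2 * (L.card : ℝ) ≤ D2 * ∑ q ∈ Icc 1 R, ((Lq q).card : ℝ) := by gcongr
        linarith
      rw [mem_Icc] at hq0
      have hq0r : (1 : ℝ) ≤ q0 := by exact_mod_cast hq0.1
      have hq0pos : (0 : ℝ) < q0 := by linarith
      have hq0D2 : (q0 : ℝ) ≤ D2 := by
        have h1 : (q0 : ℝ) ≤ R := by exact_mod_cast hq0.2
        exact h1.trans (Nat.floor_le (by linarith))
      have hxj : (((x ^ j : ℕ) : ℕ) : ℝ) = (x : ℝ) ^ j := by push_cast; rfl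
      obtain ⟨q', hq'1, hq'2, b, hb⟩ := arc (x ^ j) Y D1 (q0 * θ) hD1one (by positivity) hY (Lq q0)
        (filter_subset _ _)
        (by
          intro l hl
          simp only [hLq] at hl
          rw [mem_filter] at hl
          obtain ⟨a, ha⟩ := hl.2.2
          refine ⟨a, ?_⟩
          rw [hxj]
          have e1 : (l : ℝ) * (q0 * θ) = q0 * (l * θ) := by ring
          rw [e1]
          exact ha)
        (by
          refine hcard.trans ?_
          have h1 : D * D2 ≤ D1 := by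
            rw [hD1, hD2]
            calc D * (c * D ^ m) = c * D ^ (m + 1) := by ring
              _ ≤ c * D ^ (m + j) := by
                  gcongr
          calc 2 * D * (L.card : ℝ) ≤ 2 * D * (D2 * (Lq q0).card) := by gcongr
            _ = 2 * (D * D2) * (Lq q0).card := by ring
            _ ≤ 2 * D1 * (Lq q0).card := by gcongr)
        (by rw [hxj]; exact hxY)
      rw [hxj] at hb
      have hq'0 : (0 : ℝ) < q' := by exact_mod_cast hq'1
      set ε : ℝ := 2 * D1 ^ 2 / ((x : ℝ) ^ j * Y) with hε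
      have hε0 : 0 ≤ ε := by positivity
      set fa : ℝ := ((j + 1).factorial : ℝ) * α with hfa
      have hfa1 : 1 ≤ fa := one_le_mul_of_one_le_of_one_le hfac hα1
      have hfa0 : 0 < fa := by linarith
      apply hmin
      refine ⟨q0 * q' * ((j + 1).factorial * α), ?_, ?_, -b, ?_⟩
      · exact Nat.mul_pos (Nat.mul_pos hq0.1 hq'1) (Nat.mul_pos (Nat.factorial_pos _) hα)
      · have h1 : ((q0 * q' * ((j + 1).factorial * α) : ℕ) : ℝ) ≤ Q := by
          refine le_trans ?_ hQ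
          push_cast
          rw [← hfa]
          calc (q0 : ℝ) * q' * fa ≤ D2 * (2 * D1) * fa := by gcongr
            _ = 2 * D2 * D1 * fa := by ring
        exact_mod_cast h1
      · have h1 : (h : ℝ) / (M : ℝ) - ((-b : ℤ) : ℝ) / ((q0 * q' * ((j + 1).factorial * α) : ℕ) : ℝ) =
            -((q0 * θ - b / q') / (q0 * fa)) + K / M := by
          have hcoef : ((f.coeff (j + 1) : ℤ) : ℝ) = α := by rw [hfα]; push_cast; rfl
          rw [hθ, hγ, hcoef]
          push_cast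
          rw [← hfa]
          field_simp
          ring
        rw [h1]
        have h2 : (K : ℝ) / M = 1 / (16 * A) := by
          rw [hM]; push_cast; field_simp
        calc |-((q0 * θ - b / q') / (q0 * fa)) + (K : ℝ) / M|
            ≤ |-((q0 * θ - b / q') / (q0 * fa))| + |(K : ℝ) / M| := abs_add_le _ _
          _ = |q0 * θ - b / q'| / (q0 * fa) + 1 / (16 * A) := by
              rw [abs_neg, abs_div, abs_of_pos (by positivity : (0 : ℝ) < q0 * fa), h2,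
                abs_of_pos (by positivity : (0 : ℝ) < 1 / (16 * A))]
          _ ≤ ε + 1 / (16 * A) := by
              gcongr
              rw [div_le_iff₀ (by positivity)]
              refine hb.trans ?_
              have h3 : 1 ≤ (q0 : ℝ) * fa := one_le_mul_of_one_le_of_one_le hq0r hfa1
              nlinarith
    push Not at hLcard
    have h1 : ∑ l ∈ Icc 1 Y, B l ≤ ∑ l ∈ Icc 1 Y, ((if l ∈ L then (x : ℝ) else 0) + x / D) := by
      refine sum_le_sum fun l hl => ?_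
      simp only [hB]
      by_cases h2 : ∃ q : ℕ, 1 ≤ q ∧ P q l
      · rw [if_pos h2, if_pos (by rw [hL, mem_filter]; exact ⟨hl, h2⟩)]
        have : 0 ≤ (x : ℝ) / D := by positivity
        linarith
      · rw [if_neg h2]
        split_ifs
        · linarith
        · linarith
    refine h1.trans ?_
    rw [sum_add_distrib, sum_const, Nat.card_Icc, ← sum_filter, sum_const, nsmul_eq_mul, nsmul_eq_mul]
    have h3 : (Icc 1 Y).filter (fun l => l ∈ L) = L := by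
      ext l
      rw [mem_filter]
      constructor
      · exact fun h => h.2
      · intro h
        exact ⟨(mem_filter.1 h).1, h⟩
    rw [h3, Nat.add_sub_cancel]
    have h4 : (L.card : ℝ) * x ≤ Y * x / (2 * D) := by
      rw [le_div_iff₀ (by positivity)]
      nlinarith
    calc (L.card : ℝ) * x + Y * (x / D) ≤ Y * x / (2 * D) + Y * (x / D) := by linarith
      _ = _ := by field_simp; ring

end Pool.Agent.W81.RD
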